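import Pool.Agent.PFS.Defs
import Pool.Agent.PDF.HA

/-!
# Row INT: the polynomial of the signed sums and equivariant interpolation (MP_b906c2_al)
-/

set_option autoImplicit false

namespace Pool.Agent.PFS

open Polynomial Pool.Agent.PDF

namespace INTaux

variable {k : Type} [Field k]

theorem mem_Zs' {F : k[X]} (hF0 : F ≠ 0) {z : Om k} : z ∈ Zs F ↔ aeval z F = 0 := by
  classical
  rw [Zs, Multiset.mem_toFinset, mem_aroots]
  exact ⟨fun h => h.2, fun h => ⟨hF0, h⟩⟩

theorem Zs_map {F : k[X]} (hF0 : F ≠ 0) (σ : Om k ≃ₐ[k] Om k) {z : Om k} (hz : z ∈ Zs F) :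
    σ z ∈ Zs F := by
  rw [mem_Zs' hF0] at hz ⊢
  rw [← AlgEquiv.coe_toAlgHom, aeval_algHom_apply, hz, map_zero]

theorem Zs_map_iff {F : k[X]} (hF0 : F ≠ 0) (σ : Om k ≃ₐ[k] Om k) {z : Om k} :
    σ z ∈ Zs F ↔ z ∈ Zs F := by
  refine ⟨fun h => ?_, Zs_map hF0 σ⟩
  have := Zs_map hF0 σ.symm h
  simpa using this

theorem card_Zs' [CharZero k] {F : k[X]} (hs : Squarefree F) :
    (Zs F).card = F.natDegree := by
  classical
  have hF0 : F ≠ 0 := hs.ne_zero
  have hsp : (F.map (algebraMap k (Om k))).Splits := IsAlgClosed.splits _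
  have hsep : F.Separable := PerfectField.separable_iff_squarefree.2 hs
  have hnd : (F.aroots (Om k)).Nodup := nodup_roots hsep.map
  rw [Zs, Multiset.toFinset_card_of_nodup hnd]
  have h1 := hsp.natDegree_eq_card_roots
  rw [natDegree_map] at h1
  exact h1.symm

open Classical in
/-- the sign of a subset -/
noncomputable def sg (S : Finset (Om k)) (z : Om k) : Om k := if z ∈ S then 1 else -1

theorem sg_sq (S : Finset (Om k)) (z : Om k) : sg S z ^ 2 = 1 := by
  unfold sg
  split_ifs <;> ring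

theorem TT_eq (F : k[X]) (ξ : Om k → Om k) (τ : k[X]) (S : Finset (Om k)) :
    TT F ξ τ S = ∑ z ∈ Zs F, sg S z * (aeval z τ * ξ z) := by
  classical
  unfold TT sg
  refine Finset.sum_congr rfl fun z _ => ?_
  congr 1

/-- the action on subsets -/
noncomputable def act (F : k[X]) (ξ : Om k → Om k) (σ : Om k ≃ₐ[k] Om k) (S : Finset (Om k)) :
    Finset (Om k) :=
  @Finset.filter (Om k) (fun z : Om k => σ (sg S (σ.symm z) * ξ (σ.symm z)) = ξ z)
    (Classical.decPred _) (Zs F)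

theorem act_sub (F : k[X]) (ξ : Om k → Om k) (σ : Om k ≃ₐ[k] Om k) (S : Finset (Om k)) :
    act F ξ σ S ⊆ Zs F := by
  classical
  intro z hz
  unfold act at hz
  exact (Finset.mem_filter.1 hz).1

variable {F ν τ : k[X]} {ξ : Om k → Om k}

/-- key equivariance -/
theorem act_spec [CharZero k] (hF0 : F ≠ 0) (hξ : ∀ z ∈ Zs F, ξ z ^ 2 = aeval z ν)
    (hξ0 : ∀ z ∈ Zs F, ξ z ≠ 0) (σ : Om k ≃ₐ[k] Om k) (S : Finset (Om k)) {z : Om k}
    (hz : z ∈ Zs F) : σ (sg S z * ξ z) = sg (act F ξ σ S) (σ z) * ξ (σ z) := by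
  classical
  have hz' := Zs_map hF0 σ hz
  have h1 : σ (sg S z * ξ z) ^ 2 = ξ (σ z) ^ 2 := by
    rw [← map_pow, mul_pow, sg_sq, one_mul, hξ z hz, hξ _ hz', ← AlgEquiv.coe_toAlgHom,
      aeval_algHom_apply]
  have hmem : σ z ∈ act F ξ σ S ↔ σ (sg S z * ξ z) = ξ (σ z) := by
    unfold act
    rw [Finset.mem_filter]
    simp [hz']
  by_cases h : σ (sg S z * ξ z) = ξ (σ z)
  · have h2 : sg (act F ξ σ S) (σ z) = 1 := by
      unfold sg
      rw [if_pos (hmem.2 h)]
    rw [h2, one_mul, h]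
  · have h2 : sg (act F ξ σ S) (σ z) = -1 := by
      unfold sg
      rw [if_neg (fun h' => h (hmem.1 h'))]
    rw [h2]
    rcases sq_eq_sq_iff_eq_or_eq_neg.1 h1 with h3 | h3
    · exact absurd h3 h
    · rw [h3]; ring

theorem TT_act [CharZero k] (hF0 : F ≠ 0) (hξ : ∀ z ∈ Zs F, ξ z ^ 2 = aeval z ν)
    (hξ0 : ∀ z ∈ Zs F, ξ z ≠ 0) (σ : Om k ≃ₐ[k] Om k) (S : Finset (Om k)) :
    σ (TT F ξ τ S) = TT F ξ τ (act F ξ σ S) := by
  rw [TT_eq, TT_eq, map_sum]
  refine Finset.sum_bij (fun z _ => σ z) (fun z hz => Zs_map hF0 σ hz)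
    (fun a _ b _ h => σ.injective h)
    (fun b hb => ⟨σ.symm b, Zs_map hF0 σ.symm hb, by simp⟩) ?_
  intro z hz
  have h1 := act_spec hF0 hξ hξ0 σ S hz
  have h2 : aeval (σ z) τ = σ (aeval z τ) := by
    rw [← AlgEquiv.coe_toAlgHom, aeval_algHom_apply]
  rw [h2]
  calc σ (sg S z * (aeval z τ * ξ z)) = σ (aeval z τ) * σ (sg S z * ξ z) := by
        rw [← map_mul]; congr 1; ring
    _ = _ := by rw [h1]; ring

/-- the interpolation polynomial in `Y` -/
noncomputable def LL (F : k[X]) (ξ : Om k → Om k) (S : Finset (Om k)) : (Om k)[X] :=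
  letI := Classical.decEq (Om k)
  Lagrange.interpolate (Zs F) id (fun z => sg S z * ξ z)

theorem LL_eval (S : Finset (Om k)) {z : Om k} (hz : z ∈ Zs F) :
    (LL F ξ S).eval z = sg S z * ξ z := by
  classical
  unfold LL
  exact Lagrange.eval_interpolate_at_node _ Function.injective_id.injOn hz

theorem LL_map [CharZero k] (hF0 : F ≠ 0) (hξ : ∀ z ∈ Zs F, ξ z ^ 2 = aeval z ν)
    (hξ0 : ∀ z ∈ Zs F, ξ z ≠ 0) (σ : Om k ≃ₐ[k] Om k) (S : Finset (Om k)) :
    LL F ξ (act F ξ σ S) = (LL F ξ S).map (σ : Om k →+* Om k) := by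
  classical
  symm
  unfold LL
  apply Lagrange.eq_interpolate_of_eval_eq _ Function.injective_id.injOn
  · rw [degree_map]
    exact Lagrange.degree_interpolate_lt _ Function.injective_id.injOn
  · intro z hz
    have h1 : σ.symm z ∈ Zs F := Zs_map hF0 σ.symm hz
    have h2 : (id z : Om k) = (σ : Om k →+* Om k) (id (σ.symm z)) := by simp
    rw [h2, eval_map_apply, Lagrange.eval_interpolate_at_node _ Function.injective_id.injOn h1]
    have h3 := act_spec hF0 hξ hξ0 σ S h1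
    simp only [AlgEquiv.apply_symm_apply] at h3
    exact h3

/-- membership in the ideal `(P, F)` by vanishing at the points -/
theorem mem_ideal [CharZero k] (hF : F.Monic) (hs : Squarefree F) (P : k[X])
    (W : Finset (Om k)) (hP : P.map (algebraMap k (Om k)) = ∏ w ∈ W, (X - C w))
    (G : k[X][X])
    (hG : ∀ w ∈ W, ∀ z ∈ Zs F, (G.map (eval₂RingHom (algebraMap k (Om k)) w)).eval z = 0) :
    ∃ U V : k[X][X], G = C P * U + F.map C * V := by
  classical
  have hFm : (F.map (C : k →+* k[X])).Monic := hF.map _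
  set Rm := G %ₘ (F.map (C : k →+* k[X])) with hRm
  have hdiv : Rm + F.map C * (G /ₘ (F.map C)) = G := modByMonic_add_div G (F.map C)
  have hcomp : ∀ w : Om k, (eval₂RingHom (algebraMap k (Om k)) w).comp C = algebraMap k (Om k) := by
    intro w
    ext x
    simp
  have hz : ∀ w ∈ W, Rm.map (eval₂RingHom (algebraMap k (Om k)) w) = 0 := by
    intro w hw
    by_contra hne
    have h1 : (Zs F).card ≤ (Rm.map (eval₂RingHom (algebraMap k (Om k)) w)).natDegree := by
      refine (Finset.card_le_card ?_).trans (Polynomial.card_roots' _ |> (Multiset.toFinset_card_le _).trans)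
      intro z hzz
      rw [Multiset.mem_toFinset, mem_roots hne, IsRoot.def]
      have h2 := hG w hw z hzz
      rw [← hdiv, Polynomial.map_add, Polynomial.map_mul, Polynomial.map_map, hcomp, eval_add,
        eval_mul, eval_map_algebraMap, (mem_Zs' hF.ne_zero).1 hzz, zero_mul, add_zero] at h2
      exact h2
    rw [card_Zs' hs] at h1
    have h3 : (Rm.map (eval₂RingHom (algebraMap k (Om k)) w)).natDegree ≤ Rm.natDegree :=
      natDegree_map_le
    rcases Nat.eq_zero_or_pos F.natDegree with h0 | h0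
    · have : F = 1 := (Polynomial.eq_one_of_monic_natDegree_zero hF h0)
      apply hne
      rw [hRm, this, Polynomial.map_one, modByMonic_one, Polynomial.map_zero]
    · have h4 : Rm.natDegree < (F.map (C : k →+* k[X])).natDegree := by
        apply natDegree_modByMonic_lt _ hFm
        intro h
        have : (F.map (C : k →+* k[X])).natDegree = F.natDegree := natDegree_map_eq_of_injective C_injective F
        rw [h, natDegree_one] at this
        omega
      rw [natDegree_map_eq_of_injective C_injective F] at h4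
      omega
  have hdvd : C P ∣ Rm := by
    rw [C_dvd_iff_dvd_coeff]
    intro i
    rw [← map_dvd_map' (algebraMap k (Om k)), hP]
    apply Finset.prod_dvd_of_coprime
    · intro a _ b _ hab
      exact pairwise_coprime_X_sub_C Function.injective_id hab
    · intro w hw
      rw [dvd_iff_isRoot, IsRoot.def, eval_map]
      have h4 := congrArg (fun P => P.coeff i) (hz w hw)
      rw [coeff_map, coeff_zero, coe_eval₂RingHom] at h4
      exact h4
  obtain ⟨U, hU⟩ := hdvd
  exact ⟨U, G /ₘ (F.map C), by rw [← hU]; exact hdiv.symm⟩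

end INTaux

open INTaux HAaux in
theorem INT {k : Type} [Field k] [CharZero k] (F : k[X]) (hF : F.Monic) (hs : Squarefree F)
    (hd : 0 < F.natDegree) (ν τ : k[X]) (ξ : Om k → Om k)
    (hξ : ∀ z ∈ Zs F, ξ z ^ 2 = aeval z ν) (hξ0 : ∀ z ∈ Zs F, ξ z ≠ 0)
    (hinj : ∀ S ⊆ Zs F, ∀ S' ⊆ Zs F, TT F ξ τ S = TT F ξ τ S' → S = S') :
    ∃ (P : k[X]) (Ξ U W : k[X][X]), P.Monic ∧
      P.map (algebraMap k (Om k)) = ∏ S ∈ (Zs F).powerset, (X - C (TT F ξ τ S)) ∧
      Ξ ^ 2 - ν.map C = C P * U + F.map C * W := by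
  classical
  have : Algebra.IsSeparable k (Om k) := inferInstance
  have : Normal k (Om k) := IsAlgClosure.normal k (Om k)
  have : IsGalois k (Om k) := ⟨⟩
  have hF0 : F ≠ 0 := hF.ne_zero
  set W : Finset (Om k) := (Zs F).powerset.image (TT F ξ τ) with hWdef
  have hWmem : ∀ w, w ∈ W ↔ ∃ S ⊆ Zs F, TT F ξ τ S = w := by
    intro w
    rw [hWdef, Finset.mem_image]
    simp only [Finset.mem_powerset]
  have hWσ : ∀ (σ : Om k ≃ₐ[k] Om k), ∀ w ∈ W, σ w ∈ W := by
    intro σ w hw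
    rw [hWmem] at hw ⊢
    obtain ⟨S, hS, rfl⟩ := hw
    exact ⟨act F ξ σ S, act_sub F ξ σ S, (TT_act hF0 hξ hξ0 σ S).symm⟩
  have hch : ∃ s : Om k → Finset (Om k), ∀ w ∈ W, s w ⊆ Zs F ∧ TT F ξ τ (s w) = w := by
    have : ∀ w : Om k, ∃ S : Finset (Om k), w ∈ W → S ⊆ Zs F ∧ TT F ξ τ S = w := by
      intro w
      by_cases hw : w ∈ W
      · obtain ⟨S, hS, h⟩ := (hWmem w).1 hw
        exact ⟨S, fun _ => ⟨hS, h⟩⟩
      · exact ⟨∅, fun h => absurd h hw⟩
    choose s hs using this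
    exact ⟨s, hs⟩
  obtain ⟨s, hsW⟩ := hch
  have hsσ : ∀ (σ : Om k ≃ₐ[k] Om k), ∀ w ∈ W, s (σ w) = act F ξ σ (s w) := by
    intro σ w hw
    have h1 := hsW w hw
    have h2 := hsW _ (hWσ σ w hw)
    apply hinj _ h2.1 _ (act_sub F ξ σ (s w))
    rw [h2.2, ← TT_act hF0 hξ hξ0 σ (s w), h1.2]
  obtain ⟨Ξ, hΞ⟩ := interpPoly (k := k) W hWσ (fun w => LL F ξ (s w)) (by
    intro σ w hw
    show LL F ξ (s (σ w)) = _
    rw [hsσ σ w hw, LL_map hF0 hξ hξ0 σ])
  have hprod : ∏ S ∈ (Zs F).powerset, (X - C (TT F ξ τ S)) = ∏ w ∈ W, (X - C w) := by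
    rw [hWdef, Finset.prod_image]
    intro S hS S' hS' h
    exact hinj S (Finset.mem_powerset.1 hS) S' (Finset.mem_powerset.1 hS') h
  obtain ⟨P, hP⟩ := descend (k := k) (∏ w ∈ W, (X - C w)) (by
    intro σ
    rw [Polynomial.map_prod]
    simp only [Polynomial.map_sub, map_X, map_C]
    refine Finset.prod_bij (fun w _ => σ w) (fun w hw => hWσ σ w hw) ?_ ?_ ?_
    · intro a _ b _ h
      exact σ.injective h
    · intro b hb
      exact ⟨σ.symm b, hWσ σ.symm b hb, by simp⟩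
    · intro w _
      rfl)
  have hmem := mem_ideal hF hs P W hP (Ξ ^ 2 - ν.map C) (by
    intro w hw z hz
    have hcomp : (eval₂RingHom (algebraMap k (Om k)) w).comp C = algebraMap k (Om k) := by
      ext x
      simp
    rw [Polynomial.map_sub, Polynomial.map_pow, hΞ w hw, Polynomial.map_map, hcomp, eval_sub,
      eval_pow, LL_eval _ hz, mul_pow, sg_sq, one_mul, hξ z hz, eval_map_algebraMap, sub_self])
  obtain ⟨U, V, hUV⟩ := hmem
  refine ⟨P, Ξ, U, V, ?_, hP.trans hprod.symm, hUV⟩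
  have h1 : (P.map (algebraMap k (Om k))).Monic := by
    rw [hP]
    exact monic_prod_X_sub_C _ _
  exact (monic_map_iff).1 h1

end Pool.Agent.PFS
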