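import Pool.Agent.PFS.ENG

/-!
# The engine, additive form: the field `K(√-F)` and the sum `σ = -P(c)` of squares
-/

set_option autoImplicit false

namespace Pool.Agent.PFS

open Polynomial Pool.Agent.PDF

namespace ENG2aux

theorem SS_mono {K : Type} [Field K] {m n : ℕ} (h : m ≤ n) {a : K} (ha : SS m a) : SS n a := by
  obtain ⟨l, rfl⟩ := Nat.exists_eq_add_of_le h
  exact (SS_add_iff _ _ _).2 ⟨a, 0, ha, SS_zero_val _, by ring⟩

/-- a sum of `b * 2 ^ j` squares times a sum of `2 ^ j` squares is a sum of `b * 2 ^ j` squares -/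
theorem SS_mul {K : Type} [Field K] (b j : ℕ) {s u : K} (hs : SS (b * 2 ^ j) s)
    (hu : SS (2 ^ j) u) : SS (b * 2 ^ j) (s * u) := by
  induction b generalizing s with
  | zero =>
    rw [Nat.zero_mul, SS_zero_iff] at hs ⊢
    rw [hs, zero_mul]
  | succ b ih =>
    rw [Nat.succ_mul, SS_add_iff] at hs ⊢
    obtain ⟨s1, s2, h1, h2, rfl⟩ := hs
    refine ⟨s1 * u, s2 * u, ih h1, ?_, by ring⟩
    rw [SS_iff_D] at h2 hu ⊢
    exact D_mul _ h2 hu

/-- from `-σ` a sum of `2 ^ j` squares in `K(√-F)` to sums of squares in `K` -/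
theorem E2b {K L : Type} [Field K] [Field L] (hK : FR K) (ψ : K →+* L) (F : K) (e : L)
    (he : e ^ 2 = - ψ F) (hs : ∀ z : L, ∃ a b : K, z = ψ a + e * ψ b) (j b : ℕ) (σ : K)
    (hσ0 : σ ≠ 0) (hσ : SS (b * 2 ^ j) σ) (hL : SS (2 ^ j) (ψ (-σ))) :
    SS ((b + 1) * 2 ^ j - 1) F := by
  have h2 := hK.two
  obtain ⟨z, hz⟩ := hL
  choose a c hac using fun i => hs (z i)
  have hψ := ψ.injective
  obtain ⟨y, hy⟩ := hσ
  -- sums of squares plus `σ` do not vanish
  have hne : ∀ {m : ℕ} (x : Fin m → K), ∑ i, x i ^ 2 + σ ≠ 0 := by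
    intro m x h
    have h5 := hK (m + b * 2 ^ j) (Fin.append x y) (by
      rw [Fin.sum_univ_add]
      simp only [Fin.append_left, Fin.append_right]
      rw [← hy]
      exact h)
    apply hσ0
    rw [hy]
    refine Finset.sum_eq_zero fun i _ => ?_
    have h6 := congrFun h5 (Fin.natAdd m i)
    rw [Fin.append_right, Pi.zero_apply] at h6
    rw [h6]
    ring
  by_cases hcase : ∃ s, ψ s = e
  · exfalso
    obtain ⟨s, rfl⟩ := hcase
    have h3 : ψ (∑ i, (a i + s * c i) ^ 2 + σ) = 0 := by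
      rw [map_add, map_sum]
      have : ∑ i, ψ ((a i + s * c i) ^ 2) = ∑ i, z i ^ 2 := by
        refine Finset.sum_congr rfl fun i _ => ?_
        rw [hac i]; simp
      rw [this, ← hz, map_neg]; ring
    exact hne _ (hψ (by rw [h3, map_zero]))
  have hind : ∀ u v : K, ψ u + e * ψ v = 0 → u = 0 ∧ v = 0 := by
    intro u v h
    have hv : v = 0 := by
      by_contra hv
      apply hcase
      refine ⟨-(u / v), ?_⟩
      have : ψ v ≠ 0 := (map_ne_zero ψ).2 hv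
      rw [map_neg, map_div₀]
      field_simp
      linear_combination -h
    subst hv
    rw [map_zero, mul_zero, add_zero] at h
    exact ⟨hψ (by rw [h, map_zero]), rfl⟩
  have key : ψ ((∑ i, a i ^ 2 + σ) - F * ∑ i, c i ^ 2) + e * ψ (2 * ∑ i, a i * c i) = 0 := by
    have h3 : ∑ i, z i ^ 2 = ψ (∑ i, a i ^ 2) - ψ F * ψ (∑ i, c i ^ 2) +
        e * ψ (2 * ∑ i, a i * c i) := by
      simp only [map_sum, map_mul, map_pow, map_ofNat, Finset.mul_sum]
      rw [← Finset.sum_sub_distrib, ← Finset.sum_add_distrib]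
      refine Finset.sum_congr rfl fun i _ => ?_
      rw [hac i]
      linear_combination (ψ (c i)) ^ 2 * he
    simp only [map_add, map_sub, map_neg, map_mul] at h3 hz ⊢
    linear_combination -h3 - hz
  obtain ⟨k1, k2⟩ := hind _ _ key
  have k3 : ∑ i, a i * c i = 0 := by
    rcases mul_eq_zero.1 k2 with h | h
    · exact absurd h h2
    · exact h
  have k4 : ∑ i, a i ^ 2 + σ = F * ∑ i, c i ^ 2 := sub_eq_zero.1 k1
  have hpos : 0 < 2 ^ j := by positivity
  obtain ⟨w, hw0, hw⟩ := MS hK j a c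
  rw [k3] at hw0
  set B := ∑ i, c i ^ 2 with hB
  have hB0 : B ≠ 0 := by
    intro h
    rw [h, mul_zero] at k4
    exact hne _ k4
  -- drop the first coordinate
  have hlen2 : 2 ^ j = (2 ^ j - 1) + 1 := by omega
  have h7 : ∑ i : Fin ((2 ^ j - 1) + 1), w (Fin.cast hlen2.symm i) ^ 2 =
      (∑ i, a i ^ 2) * B := by
    rw [← hw]
    exact (Fintype.sum_equiv (finCongr hlen2) _ _ (fun i => rfl)).symm
  rw [Fin.sum_univ_succ] at h7
  have h8 : w (Fin.cast hlen2.symm 0) = 0 := by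
    rw [← hw0]
    congr 1
  rw [h8] at h7
  have h10 : SS (2 ^ j - 1) ((∑ i, a i ^ 2) * B) :=
    ⟨fun i => w (Fin.cast hlen2.symm i.succ), by rw [← h7]; ring⟩
  have h11 : SS (b * 2 ^ j) (σ * B) := SS_mul b j ⟨y, hy⟩ ⟨c, rfl⟩
  have hcount : (b + 1) * 2 ^ j - 1 = b * 2 ^ j + (2 ^ j - 1) := by
    rw [Nat.succ_mul]
    omega
  have h12 : SS ((b + 1) * 2 ^ j - 1) (F * B * B) := by
    rw [hcount]
    refine (SS_add_iff _ _ _).2 ⟨_, _, h11, h10, ?_⟩
    linear_combination (-B) * k4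
  have h13 := SS_sq_mul h12 (B⁻¹)
  have h14 : F = (B⁻¹) ^ 2 * (F * B * B) := by field_simp
  rw [h14]
  exact h13

/-- the value `P(c)` in the field `L` -/
theorem E1b {k L : Type} [Field k] [Field L] (φ : k →+* L) (h2 : (2 : L) ≠ 0) (j : ℕ)
    (P : k[X]) (hP : P.Monic) (c : k) (hc : P.eval c ≠ 0)
    (hiso : ∀ q : L[X], Irreducible q → q ∣ P.map φ →
      IsoMod (wt (List.replicate j (1 : L))) q) :
    SS (2 ^ j) (φ (P.eval c)) := by
  rw [SS_iff_D]
  have hl0 : ∀ a ∈ List.replicate j (1 : L), a ≠ 0 := fun a ha => by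
    rw [List.eq_of_mem_replicate ha]; exact one_ne_zero
  by_cases hA : Aniso (wt (List.replicate j (1 : L)))
  · have h1 : Rep (wt (List.replicate j (1 : L))) ((P.map φ).eval (φ c)) := by
      refine NP _ hA ((D_wt _ _).1 (D_one _)) (mulC_wt _) _ (hP.map φ) hiso _ ?_
      rw [eval_map_apply]
      exact (map_ne_zero φ).2 hc
    rwa [eval_map_apply, ← D_wt] at h1
  · exact D_univ h2 _ hl0 hA _

end ENG2aux

/-- `2 ^ r ≥ n + 2`, `2 ^ r + 1 + t ≤ 2 ^ j`, and `-P(c)` is a sum of `b * 2 ^ j` squares in `k`: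
then `F(y)` plus `t` squares is a sum of `(b + 1) * 2 ^ j - 1` squares -/
theorem ENG2 {k : Type} [Field k] (n r t j b : ℕ) (hr : n + 2 ≤ 2 ^ r)
    (ht : 2 ^ r + 1 + t ≤ 2 ^ j) (F P : k[X]) (Ξ U W : k[X][X]) (a : Fin (n + 1) → k[X]) (c : k)
    (hF : F.Monic) (hP : P.Monic) (hc : P.eval c ≠ 0) (hσ : SS (b * 2 ^ j) (-(P.eval c)))
    (hco : IsCoprime (∑ i, a i ^ 2) F)
    (hid : Ξ ^ 2 + (∑ i, a i ^ 2).map C = C P * U + F.map C * W)
    {K : Type} [Field K] (hK : FR K) (φ : k →+* K) (y : K) (x : Fin t → K) :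
    SS ((b + 1) * 2 ^ j - 1) (F.eval₂ φ y + ∑ i, x i ^ 2) := by
  set G := F.eval₂ φ y + ∑ i, x i ^ 2 with hG
  by_cases hG0 : G = 0
  · rw [hG0]; exact SS_zero_val _
  obtain ⟨L, _, ψ, e, he, hs⟩ := E0 G
  have he0 : e ≠ 0 := by
    rintro rfl
    rw [zero_pow two_ne_zero] at he
    exact hG0 ((map_eq_zero ψ).1 (neg_eq_zero.1 he.symm))
  have hσ0 : φ (-(P.eval c)) ≠ 0 := (map_ne_zero φ).2 (neg_ne_zero.2 hc)
  refine ENG2aux.E2b hK ψ G e he hs j b (φ (-(P.eval c))) hσ0 (SS_map φ hσ) ?_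
  have h2 : (2 : L) ≠ 0 := by
    have := (map_ne_zero ψ).2 hK.two
    rwa [map_ofNat] at this
  have h3 := ENG2aux.E1b (ψ.comp φ) h2 j P hP c hc ?_
  · rw [map_neg, map_neg, map_neg, neg_neg]
    exact h3
  intro q hq hqP
  have : Fact (Irreducible q) := ⟨hq⟩
  set ρ : k →+* AdjoinRoot q := (AdjoinRoot.of q).comp (ψ.comp φ) with hρ
  have hT : P.eval₂ ρ (AdjoinRoot.root q) = 0 := by
    obtain ⟨u, hu⟩ := hqP
    have h4 : (P.map (ψ.comp φ)).eval₂ (AdjoinRoot.of q) (AdjoinRoot.root q) = 0 := by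
      rw [hu, eval₂_mul, AdjoinRoot.eval₂_root, zero_mul]
    rwa [eval₂_map] at h4
  have h2' : (2 : AdjoinRoot q) ≠ 0 := by
    have := (map_ne_zero (AdjoinRoot.of q)).2 h2
    rwa [map_ofNat] at this
  have h5 := ENGaux.inner n r hr F P Ξ U W a hF hco hid h2' ρ (AdjoinRoot.root q) hT
    (AdjoinRoot.of q (ψ y))
  obtain ⟨g, hg⟩ := h5
  have hval : F.eval₂ ρ (AdjoinRoot.of q (ψ y)) = AdjoinRoot.mk q (C (ψ (F.eval₂ φ y))) := by
    rw [AdjoinRoot.mk_C, hom_eval₂, hom_eval₂]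
  choose g' hg' using fun i => AdjoinRoot.mk_surjective (g i)
  have hdvd : q ∣ (C (ψ (F.eval₂ φ y)) - ∑ i, g' i ^ 2) := by
    rw [← AdjoinRoot.mk_eq_zero, map_sub, ← hval, hg, map_sum, sub_eq_zero]
    refine Finset.sum_congr rfl fun i _ => ?_
    rw [map_pow, hg']
  refine iso_one (κ := (Unit ⊕ Fin (2 ^ r)) ⊕ (Fin t ⊕ Fin (2 ^ j - (2 ^ r + 1 + t)))) _
    (fun a ha => List.eq_of_mem_replicate ha) ?_ q
    (Sum.elim (Sum.elim (fun _ => C e) (fun i => g' i))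
      (Sum.elim (fun i => C (ψ (x i))) (fun _ => 0))) ?_ ?_
  · simp only [Fintype.card_sum, Fintype.card_unit, Fintype.card_fin, List.length_replicate]
    omega
  · refine ⟨Sum.inl (Sum.inl ()), ?_⟩
    intro h
    exact hq.not_isUnit (isUnit_of_dvd_unit h (isUnit_C.2 (isUnit_iff_ne_zero.2 he0)))
  · rw [Fintype.sum_sum_type, Fintype.sum_sum_type, Fintype.sum_sum_type]
    simp only [Sum.elim_inl, Sum.elim_inr, Finset.univ_unique, Finset.sum_singleton]
    have h7 : (C e) ^ 2 = -C (ψ (F.eval₂ φ y)) - ∑ i, C (ψ (x i)) ^ 2 := by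
      have h8 : ψ G = ψ (F.eval₂ φ y) + ∑ i, ψ (x i) ^ 2 := by
        rw [hG, map_add, map_sum]; simp
      rw [← C_pow, he, h8]
      simp only [C_neg, C_add, map_sum, C_pow]
      ring
    have h9 : C e ^ 2 + ∑ i, g' i ^ 2 + (∑ i, C (ψ (x i)) ^ 2 +
        ∑ _i : Fin (2 ^ j - (2 ^ r + 1 + t)), (0 : L[X]) ^ 2) =
        -(C (ψ (F.eval₂ φ y)) - ∑ i, g' i ^ 2) := by
      rw [h7]
      simp only [ne_eq, OfNat.ofNat_ne_zero, not_false_eq_true, zero_pow,
        Finset.sum_const_zero, add_zero]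
      ring
    rw [h9]
    exact dvd_neg.2 hdvd

end Pool.Agent.PFS
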