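import Pool.Agent.PDF.Fin

/-!
# Pfister's bound is not optimal: basic definitions (MP_b906c2_al, project PFS)

`k = ℝ(X₁,…,X_n)` (or a general field with `Algebra ℝ k`), `F ∈ k[Y]` monic and squarefree with
non-real residue fields, `Om k` the algebraic closure, `Zs F` the roots of `F`.
-/

set_option autoImplicit false

namespace Pool.Agent.PFS

open Polynomial Pool.Agent.PDF

/-- a place of `Ω` with values in `ℂ` which extends the standard part of an ordering of `k`;
`V` is a valuation ring of `Ω`, `lam` is only meaningful on `V` -/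
structure Pl (k Ω : Type) [Field k] [LinearOrder k] [IsStrictOrderedRing k] [Field Ω]
    [Algebra k Ω] where
  V : Subring Ω
  lam : Ω → ℂ
  lam_one : lam 1 = 1
  lam_add : ∀ x ∈ V, ∀ y ∈ V, lam (x + y) = lam x + lam y
  lam_mul : ∀ x ∈ V, ∀ y ∈ V, lam (x * y) = lam x * lam y
  val : ∀ x, x ∈ V ∨ x⁻¹ ∈ V
  inv_mem : ∀ x ∈ V, lam x ≠ 0 → x⁻¹ ∈ V
  fin_of_mem : ∀ x : k, algebraMap k Ω x ∈ V → 0 ≤ ArchimedeanClass.mk x
  mem_of_fin : ∀ x : k, 0 ≤ ArchimedeanClass.mk x → algebraMap k Ω x ∈ V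
  lam_fin : ∀ x : k, 0 ≤ ArchimedeanClass.mk x →
    lam (algebraMap k Ω x) = (ArchimedeanClass.stdPart x : ℂ)
  integ : ∀ (x : Ω) (p : k[X]), p.Monic → (∀ i, 0 ≤ ArchimedeanClass.mk (p.coeff i)) →
    aeval x p = 0 → x ∈ V

/-- the algebraic closure of `k` -/
abbrev Om (k : Type) [Field k] : Type := AlgebraicClosure k

open Classical in
/-- the set of the roots of `F` in the algebraic closure -/
noncomputable def Zs {k : Type} [Field k] (F : k[X]) : Finset (Om k) :=
  (F.aroots (AlgebraicClosure k)).toFinset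

open Classical in
/-- the signed sum `∑_{z ∈ S} τ(z) ξ(z) - ∑_{z ∉ S} τ(z) ξ(z)` over the roots of `F` -/
noncomputable def TT {k : Type} [Field k] (F : k[X]) (ξ : Om k → Om k) (τ : k[X])
    (S : Finset (Om k)) : Om k :=
  ∑ z ∈ Zs F, (if z ∈ S then 1 else -1) * (aeval z τ * ξ z)

/-- any `n + 1` elements of `k` are algebraically dependent over `ℝ` -/
def TrD (n : ℕ) (k : Type) [Field k] [Algebra ℝ k] : Prop :=
  ∀ e : Fin (n + 1) → k, ∃ Q : MvPolynomial (Fin (n + 1)) ℝ, Q ≠ 0 ∧ MvPolynomial.aeval e Q = 0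

/-- `F` is monic, squarefree, of positive degree, and divides `∑ B i ^ 2`, where the `B i` have no
common root with `F` (so all the residue fields of `F` are non-real) -/
structure Dat {k : Type} [Field k] (F : k[X]) {q : ℕ} (B : Fin q → k[X]) : Prop where
  monic : F.Monic
  sqf : Squarefree F
  deg : 0 < F.natDegree
  dvd : F ∣ ∑ i, B i ^ 2
  ne : ∀ z ∈ Zs F, ∃ i, aeval z (B i) ≠ 0

end Pool.Agent.PFS
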