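import Pool.Agent.PFS.ENG

/-!
# The engine for the polynomial bound: norm principle over `K` with the Pfister form
`2 ^ r ⟨1⟩ ⊗ ⟨1, -F⟩` (MP_b906c2_al)
-/

set_option autoImplicit false

namespace Pool.Agent.PFS

open Polynomial Pool.Agent.PDF

namespace ENG3aux

/-- `D` of the form `2 ^ r ⟨1⟩` times a sum of `b * 2 ^ r` squares -/
theorem SS_mul {K : Type} [Field K] (r : ℕ) {t : K} (ht : t ∈ D (List.replicate r (1 : K))) :
    ∀ (b : ℕ) (σ : K), SS (b * 2 ^ r) σ → SS (b * 2 ^ r) (σ * t) := by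
  intro b
  induction b with
  | zero =>
    intro σ hσ
    rw [Nat.zero_mul] at hσ ⊢
    rw [(SS_zero_iff σ).1 hσ, zero_mul]
    exact SS_zero_val _
  | succ b ih =>
    intro σ hσ
    rw [Nat.succ_mul, SS_add_iff] at hσ ⊢
    obtain ⟨s1, s2, h1, h2, rfl⟩ := hσ
    refine ⟨s1 * t, s2 * t, ih _ h1, ?_, by ring⟩
    rw [SS_iff_D] at h2 ⊢
    exact D_mul _ h2 ht

/-- both sums of squares vanish if their sum vanishes -/
theorem zero_of_add {K : Type} [Field K] (hK : FR K) {m n : ℕ} {s t : K} (hs : SS m s)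
    (ht : SS n t) (h : s + t = 0) : t = 0 := by
  obtain ⟨x, rfl⟩ := hs
  obtain ⟨y, rfl⟩ := ht
  have h1 := hK (m + n) (Fin.append x y) (by
    rw [Fin.sum_univ_add]
    simpa using h)
  refine Finset.sum_eq_zero fun i _ => ?_
  have h2 := congrFun h1 (Fin.natAdd m i)
  simp only [Fin.append_right, Pi.zero_apply] at h2
  rw [h2]
  ring

/-- the isotropic vector over `K[T]/(q)` -/
theorem isoMod {K : Type} [Field K] (r : ℕ) (f : K) (q : K[X]) (hq : Irreducible q)
    (g : Fin (2 ^ r) → K[X]) (hg : q ∣ C f - ∑ i, g i ^ 2) :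
    IsoMod (wt (-f :: List.replicate r 1)) q := by
  classical
  set l' : List K := List.replicate r 1 with hl'
  have hone : ∀ i, wt l' i = 1 := wt_one l' fun a ha => List.eq_of_mem_replicate ha
  have hcard : Fintype.card (Ix l'.length) = 2 ^ r := by
    rw [card_Ix, hl', List.length_replicate]
  let e : Ix l'.length ≃ Fin (2 ^ r) := Fintype.equivFinOfCardEq hcard
  have h0 : 0 < 2 ^ r := by positivity
  let i₀ : Ix l'.length := e.symm ⟨0, h0⟩
  let v : Ix l'.length ⊕ Ix l'.length → K[X] :=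
    Sum.elim (fun i => g (e i)) (fun i => if i = i₀ then 1 else 0)
  refine ⟨v, ⟨Sum.inr i₀, ?_⟩, ?_⟩
  · show ¬ q ∣ (if i₀ = i₀ then (1 : K[X]) else 0)
    rw [if_pos rfl]
    exact fun h => hq.not_isUnit (isUnit_of_dvd_one h)
  · show q ∣ ∑ i : Ix l'.length ⊕ Ix l'.length, C (Sum.elim (wt l') (fun i => -f * wt l' i) i) *
      v i ^ 2
    rw [Fintype.sum_sum_type]
    have h1 : ∑ i : Ix l'.length, C (Sum.elim (wt l') (fun i => -f * wt l' i) (Sum.inl i)) *
        v (Sum.inl i) ^ 2 = ∑ i, g i ^ 2 := by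
      rw [← Equiv.sum_comp e]
      refine Finset.sum_congr rfl fun i _ => ?_
      show C (wt l' i) * g (e i) ^ 2 = _
      rw [hone, C_1, one_mul]
    have h2 : ∑ i : Ix l'.length, C (Sum.elim (wt l') (fun i => -f * wt l' i) (Sum.inr i)) *
        v (Sum.inr i) ^ 2 = - C f := by
      rw [Finset.sum_eq_single i₀]
      · show C (-f * wt l' i₀) * (if i₀ = i₀ then (1 : K[X]) else 0) ^ 2 = _
        rw [if_pos rfl, hone, mul_one, one_pow, mul_one, C_neg]
      · intro i _ hi
        show C (-f * wt l' i) * (if i = i₀ then (1 : K[X]) else 0) ^ 2 = _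
        rw [if_neg hi]
        ring
      · intro h
        exact absurd (Finset.mem_univ _) h
    rw [h1, h2]
    have h3 : ∑ i, g i ^ 2 + -C f = -(C f - ∑ i, g i ^ 2) := by ring
    rw [h3]
    exact dvd_neg.2 hg

end ENG3aux

open ENG3aux in
/-- the engine: if `-P(c)` is a sum of `b * 2 ^ r` squares, `2 ^ r ≥ n + 2`, then `F(y)` is a sum
of `(b + 1) * 2 ^ r` squares -/
theorem ENG3 {k : Type} [Field k] (n r b : ℕ) (hr : n + 2 ≤ 2 ^ r)
    (F P : k[X]) (Ξ U W : k[X][X]) (a : Fin (n + 1) → k[X]) (c : k)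
    (hF : F.Monic) (hP : P.Monic) (hc : P.eval c ≠ 0) (hσ : SS (b * 2 ^ r) (-(P.eval c)))
    (hco : IsCoprime (∑ i, a i ^ 2) F)
    (hid : Ξ ^ 2 + (∑ i, a i ^ 2).map C = C P * U + F.map C * W)
    {K : Type} [Field K] (hK : FR K) (φ : k →+* K) (y : K) :
    SS ((b + 1) * 2 ^ r) (F.eval₂ φ y) := by
  set f := F.eval₂ φ y with hf
  by_cases hf0 : f = 0
  · rw [hf0]; exact SS_zero_val _
  set l : List K := -f :: List.replicate r 1 with hl
  have hl0 : ∀ a ∈ l, a ≠ 0 := by
    intro a ha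
    rcases List.mem_cons.1 ha with h | h
    · rw [h]; exact neg_ne_zero.2 hf0
    · rw [List.eq_of_mem_replicate h]; exact one_ne_zero
  have h2 : (2 : K) ≠ 0 := hK.two
  have hPe : (P.map φ).eval (φ c) = φ (P.eval c) := by
    rw [eval_map, eval₂_at_apply]
  -- the value `P(c)` is represented by the Pfister form
  have hD : φ (P.eval c) ∈ D l := by
    by_cases hA : Aniso (wt l)
    · rw [D_wt, ← hPe]
      refine NP _ hA ((D_wt _ _).1 (D_one _)) (mulC_wt _) _ (hP.map φ) ?_ _ ?_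
      · intro q hq hqP
        have : Fact (Irreducible q) := ⟨hq⟩
        set ρ : k →+* AdjoinRoot q := (AdjoinRoot.of q).comp φ with hρ
        have hT : P.eval₂ ρ (AdjoinRoot.root q) = 0 := by
          obtain ⟨u, hu⟩ := hqP
          have h4 : (P.map φ).eval₂ (AdjoinRoot.of q) (AdjoinRoot.root q) = 0 := by
            rw [hu, eval₂_mul, AdjoinRoot.eval₂_root, zero_mul]
          rwa [eval₂_map] at h4
        have h2' : (2 : AdjoinRoot q) ≠ 0 := by
          have := (map_ne_zero (AdjoinRoot.of q)).2 h2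
          rwa [map_ofNat] at this
        obtain ⟨g, hg⟩ := ENGaux.inner n r hr F P Ξ U W a hF hco hid h2' ρ (AdjoinRoot.root q) hT
          (AdjoinRoot.of q y)
        have hval : F.eval₂ ρ (AdjoinRoot.of q y) = AdjoinRoot.mk q (C f) := by
          rw [AdjoinRoot.mk_C, hf, hom_eval₂]
        choose g' hg' using fun i => AdjoinRoot.mk_surjective (g i)
        refine isoMod r f q hq g' ?_
        rw [← AdjoinRoot.mk_eq_zero, map_sub, ← hval, hg, map_sum, sub_eq_zero]
        refine Finset.sum_congr rfl fun i _ => ?_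
        rw [map_pow, hg']
      · rw [hPe]
        exact (map_ne_zero φ).2 hc
    · exact D_univ h2 _ hl0 hA _
  rw [hl, D_cons] at hD
  obtain ⟨s, hs, t, ht, hst⟩ := hD
  have hσ' : SS (b * 2 ^ r) (-(φ (P.eval c))) := by
    rw [← map_neg]
    exact SS_map φ hσ
  set σ := -(φ (P.eval c)) with hσdef
  have hσ0 : σ ≠ 0 := neg_ne_zero.2 ((map_ne_zero φ).2 hc)
  have hft : f * t = s + σ := by
    rw [hσdef, hst]; ring
  have ht0 : t ≠ 0 := by
    intro h
    rw [h, mul_zero] at hft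
    exact hσ0 (zero_of_add hK ((SS_iff_D _ _).2 hs) hσ' hft.symm)
  have hfin : f = (t⁻¹) ^ 2 * (σ * t + s * t) := by
    have : σ * t + s * t = f * t * t := by rw [hft]; ring
    rw [this]
    field_simp
  rw [hfin]
  refine SS_sq_mul ?_ _
  rw [Nat.succ_mul, SS_add_iff]
  exact ⟨_, _, SS_mul r ht b σ hσ', (SS_iff_D _ _).2 (D_mul _ hs ht), rfl⟩

end Pool.Agent.PFS
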