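import Pool.Agent.PFS.RED0

/-!
# Row RED: every nonzero sum of squares of `ℝ(X₀,…,X_n)` is, after an automorphism and up to a
square, a monic squarefree sum of squares in `ℝ(X₁,…,X_n)[X₀]` (MP_b906c2_al)
-/

set_option autoImplicit false

namespace Pool.Agent.PFS.REDaux

open Polynomial Pool.Agent.PDF Pool.Agent.PDF.Rows

/-- squarefree part of a monic polynomial -/
theorem sqfree {k : Type} [Field k] : ∀ (d : ℕ) (F : k[X]), F.Monic → F.natDegree ≤ d →
    ∃ G H : k[X], G.Monic ∧ H.Monic ∧ Squarefree H ∧ F = G ^ 2 * H := by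
  intro d
  induction d with
  | zero =>
    intro F hF hd
    have h1 : F = 1 := hF.natDegree_eq_zero.1 (by omega)
    exact ⟨1, 1, monic_one, monic_one, squarefree_one, by rw [h1]; ring⟩
  | succ d ih =>
    intro F hF hd
    by_cases hs : Squarefree F
    · exact ⟨1, F, monic_one, hF, hs, by ring⟩
    rw [Squarefree] at hs
    push Not at hs
    obtain ⟨p, ⟨F1, hF1⟩, hp⟩ := hs
    have hp0 : p ≠ 0 := by
      rintro rfl
      rw [zero_mul, zero_mul] at hF1
      exact hF.ne_zero hF1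
    have hl : p.leadingCoeff ≠ 0 := leadingCoeff_ne_zero.2 hp0
    set p' := p * C p.leadingCoeff⁻¹ with hp'
    have hm : p'.Monic := monic_mul_leadingCoeff_inv hp0
    have hF2 : F = p' ^ 2 * (C (p.leadingCoeff ^ 2) * F1) := by
      rw [hF1, hp']
      have : C p.leadingCoeff⁻¹ * C p.leadingCoeff = (1 : k[X]) := by
        rw [← C_mul, inv_mul_cancel₀ hl, C_1]
      rw [C_pow]
      linear_combination (-p * p * F1 * (C p.leadingCoeff⁻¹ * C p.leadingCoeff + 1)) * this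
    have hm2 : (C (p.leadingCoeff ^ 2) * F1).Monic :=
      (hm.pow 2).of_mul_monic_left (by rw [← hF2]; exact hF)
    have hdeg : F.natDegree = 2 * p'.natDegree + (C (p.leadingCoeff ^ 2) * F1).natDegree := by
      conv_lhs => rw [hF2]
      rw [(hm.pow 2).natDegree_mul hm2, hm.natDegree_pow]
    have hpd : 0 < p'.natDegree := by
      rw [Nat.pos_iff_ne_zero]
      intro h0
      have h1 := hm.natDegree_eq_zero.1 h0
      apply hp
      rw [hp'] at h1
      exact IsUnit.of_mul_eq_one _ h1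
    obtain ⟨G, H, hG, hH, hHs, hGH⟩ := ih _ hm2 (by omega)
    refine ⟨p' * G, H, hm.mul hG, hH, hHs, ?_⟩
    rw [hF2, hGH]
    ring

/-- the leading coefficient of a sum of squares is a sum of squares -/
theorem lead {k : Type} [Field k] (hk : FR k) (r : ℕ) (h : Fin r → k[X]) :
    ∃ u : Fin r → k, (∑ i, h i ^ 2).leadingCoeff = ∑ i, u i ^ 2 := by
  set P := ∑ i, h i ^ 2 with hP
  rcases Nat.even_or_odd' P.natDegree with ⟨m, hm | hm⟩
  · have hd : ∀ i, (h i).natDegree ≤ m := Rows.STaux.deg_le hk r h m (by rw [← hP, hm])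
    refine ⟨fun i => (h i).coeff m, ?_⟩
    rw [leadingCoeff, hm, hP, finsetSum_coeff]
    exact Finset.sum_congr rfl fun i _ => coeff_pow_of_natDegree_le (hd i)
  · exfalso
    have hd : ∀ i, (h i).natDegree ≤ m + 1 :=
      Rows.STaux.deg_le hk r h (m + 1) (by rw [← hP, hm]; omega)
    have h0 : P.coeff (2 * (m + 1)) = 0 := coeff_eq_zero_of_natDegree_lt (by omega)
    rw [hP, finsetSum_coeff,
      Finset.sum_congr rfl fun i _ => coeff_pow_of_natDegree_le (hd i)] at h0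
    have h1 := hk r _ h0
    have h2 : ∀ i, (h i).natDegree ≤ m := by
      intro i
      have h3 : (h i).natDegree ≠ m + 1 := by
        intro h4
        have h5 := congrFun h1 i
        simp only [Pi.zero_apply] at h5
        rw [← h4, coeff_natDegree, leadingCoeff_eq_zero] at h5
        rw [h5] at h4
        simp at h4
      have := hd i
      omega
    have h3 : P.natDegree ≤ 2 * m := by
      rw [hP]
      refine natDegree_sum_le_of_forall_le _ _ fun i _ => ?_
      exact le_trans natDegree_pow_le (Nat.mul_le_mul_left 2 (h2 i))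
    omega

section embed

variable (n : ℕ) (φ : kk n →+* kk (n + 1)) (hφ : ∀ p : MvPolynomial (Fin n) ℝ,
    φ (algebraMap _ _ p) = algebraMap _ _ (MvPolynomial.rename Fin.succ p))

/-- the polynomial over `ℝ(X₁,…,X_n)` -/
noncomputable def toP (p : MvPolynomial (Fin (n + 1)) ℝ) : (kk n)[X] :=
  (MvPolynomial.finSuccEquiv ℝ n p).map (algebraMap (MvPolynomial (Fin n) ℝ) (kk n))

include hφ in
theorem eval_toP (p : MvPolynomial (Fin (n + 1)) ℝ) :
    (toP n p).eval₂ φ (algebraMap (MvPolynomial (Fin (n + 1)) ℝ) _ (MvPolynomial.X 0)) =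
      algebraMap (MvPolynomial (Fin (n + 1)) ℝ) (kk (n + 1)) p := by
  rw [toP, Polynomial.eval₂_map]
  induction p using MvPolynomial.induction_on with
  | C a =>
    rw [MvPolynomial.finSuccEquiv_apply]
    simp only [MvPolynomial.coe_eval₂Hom, MvPolynomial.eval₂_C, RingHom.comp_apply,
      Polynomial.eval₂_C]
    rw [hφ, MvPolynomial.rename_C]
  | add p q hp hq => rw [map_add, Polynomial.eval₂_add, hp, hq, map_add]
  | mul_X p i hp =>
    rw [map_mul, Polynomial.eval₂_mul, hp, map_mul]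
    congr 1
    cases i using Fin.cases with
    | zero => rw [MvPolynomial.finSuccEquiv_X_zero, Polynomial.eval₂_X]
    | succ j =>
      rw [MvPolynomial.finSuccEquiv_X_succ, Polynomial.eval₂_C, RingHom.comp_apply, hφ,
        MvPolynomial.rename_X]

include hφ in
theorem eval_inj (P : (kk n)[X])
    (hP : P.eval₂ φ (algebraMap (MvPolynomial (Fin (n + 1)) ℝ) _ (MvPolynomial.X 0)) = 0) :
    P = 0 := by
  obtain ⟨b, hbm, hb⟩ := IsLocalization.integerNormalization_spec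
    (nonZeroDivisors (MvPolynomial (Fin n) ℝ)) P
  set P' := IsLocalization.integerNormalization (nonZeroDivisors (MvPolynomial (Fin n) ℝ)) P
  have h1 : toP n ((MvPolynomial.finSuccEquiv ℝ n).symm P') = b • P := by
    rw [toP, AlgEquiv.apply_symm_apply, hb]
  have h2 := eval_toP n φ hφ ((MvPolynomial.finSuccEquiv ℝ n).symm P')
  rw [h1, Algebra.smul_def, Polynomial.eval₂_mul, hP, mul_zero] at h2
  have h3 := (map_eq_zero_iff _ (IsFractionRing.injective (MvPolynomial (Fin (n + 1)) ℝ)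
    (kk (n + 1)))).1 h2.symm
  rw [h3, toP, map_zero, Polynomial.map_zero] at h1
  have hb0 : b ≠ 0 := nonZeroDivisors.ne_zero hbm
  rcases smul_eq_zero.1 h1.symm with h | h
  · exact absurd h hb0
  · exact h

end embed

theorem map_isSumSq {A B : Type} [CommRing A] [CommRing B] (f : A →+* B) {x : A}
    (hx : IsSumSq x) : IsSumSq (f x) := by
  induction hx with
  | zero => rw [map_zero]; exact IsSumSq.zero
  | sq_add a _ ih =>
    rw [map_add, map_mul]
    exact IsSumSq.sq_add _ ih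

/-- Row RED -/
theorem red (n : ℕ) (x : kk (n + 1)) (hx : IsSumSq x) (hx0 : x ≠ 0) :
    ∃ (φ : kk n →+* kk (n + 1)) (y : kk (n + 1)) (τ : kk (n + 1) ≃+* kk (n + 1)) (c : kk (n + 1))
      (F : (kk n)[X]) (r : ℕ) (f : Fin r → (kk n)[X]),
      F.Monic ∧ Squarefree F ∧ F = ∑ i, f i ^ 2 ∧ τ x = c ^ 2 * F.eval₂ φ y := by
  obtain ⟨φ, hφ⟩ := exists_embed n
  set y : kk (n + 1) := algebraMap (MvPolynomial (Fin (n + 1)) ℝ) _ (MvPolynomial.X 0) with hy
  obtain ⟨a, b, hb, hab⟩ := IsFractionRing.div_surjective (A := MvPolynomial (Fin (n + 1)) ℝ) x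
  have hinj := IsFractionRing.injective (MvPolynomial (Fin (n + 1)) ℝ) (kk (n + 1))
  have hb0 : b ≠ 0 := nonZeroDivisors.ne_zero hb
  have ha0 : a ≠ 0 := by
    rintro rfl
    rw [map_zero, zero_div] at hab
    exact hx0 hab.symm
  set p := a * b with hp
  have hp0 : p ≠ 0 := mul_ne_zero ha0 hb0
  set T' : MvPolynomial (Fin (n + 1)) ℝ ≃ₐ[ℝ] MvPolynomial (Fin (n + 1)) ℝ :=
    T (2 + p.totalDegree) with hT'
  obtain ⟨a0, ha00, hlc⟩ := exists_leadingCoeff p hp0
  rw [← hT'] at hlc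
  let τ : kk (n + 1) ≃+* kk (n + 1) := IsFractionRing.ringEquivOfRingEquiv T'.toRingEquiv
  have hτ : ∀ q : MvPolynomial (Fin (n + 1)) ℝ, τ (algebraMap _ _ q) = algebraMap _ _ (T' q) :=
    fun q => IsFractionRing.ringEquivOfRingEquiv_algebraMap _ _
  have halgb : algebraMap (MvPolynomial (Fin (n + 1)) ℝ) (kk (n + 1)) b ≠ 0 := fun h =>
    hb0 ((map_eq_zero_iff _ hinj).1 h)
  have hx1 : x = (algebraMap (MvPolynomial (Fin (n + 1)) ℝ) (kk (n + 1)) b)⁻¹ ^ 2 *
      algebraMap _ _ p := by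
    rw [← hab, hp, map_mul]
    field_simp
  set q := toP n (T' p) with hq
  have hqlc : q.leadingCoeff = algebraMap (MvPolynomial (Fin n) ℝ) (kk n) (MvPolynomial.C a0) := by
    rw [hq, toP, leadingCoeff_map_of_injective (IsFractionRing.injective _ _), hlc]
  have hcn : ∀ (m : ℕ) (t : ℝ), t ≠ 0 →
      algebraMap (MvPolynomial (Fin m) ℝ) (kk m) (MvPolynomial.C t) ≠ 0 := by
    intro m t ht h
    have := (map_eq_zero_iff _ (IsFractionRing.injective (MvPolynomial (Fin m) ℝ) (kk m))).1 h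
    rw [MvPolynomial.C_eq_zero] at this
    exact ht this
  set l := algebraMap (MvPolynomial (Fin n) ℝ) (kk n) (MvPolynomial.C a0) with hl
  have hl0 : l ≠ 0 := hcn n a0 ha00
  have hq0 : q ≠ 0 := by
    intro h
    rw [h, leadingCoeff_zero] at hqlc
    exact hl0 hqlc.symm
  have hm0 : (q * C l⁻¹).Monic := by
    rw [← hqlc]; exact monic_mul_leadingCoeff_inv hq0
  obtain ⟨G, H, hG, hH, hHs, hGH⟩ := sqfree _ _ hm0 le_rfl
  have hqGH : q = C l * (G ^ 2 * H) := by
    rw [← hGH, mul_comm q, ← mul_assoc, ← C_mul, mul_inv_cancel₀ hl0, C_1, one_mul]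
  have hev : algebraMap (MvPolynomial (Fin (n + 1)) ℝ) (kk (n + 1)) (T' p) =
      (G.eval₂ φ y) ^ 2 * (C l * H).eval₂ φ y := by
    rw [← eval_toP n φ hφ (T' p), ← hq, hqGH, Polynomial.eval₂_mul, Polynomial.eval₂_mul,
      Polynomial.eval₂_pow, Polynomial.eval₂_mul]
    ring
  have hGne : G.eval₂ φ y ≠ 0 := fun h => hG.ne_zero (eval_inj n φ hφ G h)
  -- sum of squares
  have hτb : τ (algebraMap (MvPolynomial (Fin (n + 1)) ℝ) (kk (n + 1)) b) ≠ 0 :=
    (map_ne_zero τ).2 halgb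
  have hτx : τ x = (τ (algebraMap (MvPolynomial (Fin (n + 1)) ℝ) (kk (n + 1)) b))⁻¹ ^ 2 *
      ((G.eval₂ φ y) ^ 2 * (C l * H).eval₂ φ y) := by
    rw [hx1, map_mul, map_pow, map_inv₀, hτ p, hev]
  set c1 := (τ (algebraMap (MvPolynomial (Fin (n + 1)) ℝ) (kk (n + 1)) b))⁻¹ * G.eval₂ φ y
    with hc1
  have hc10 : c1 ≠ 0 := mul_ne_zero (inv_ne_zero hτb) hGne
  have hτx2 : τ x = c1 ^ 2 * (C l * H).eval₂ φ y := by
    rw [hτx, hc1]; ring
  obtain ⟨r, z, hz⟩ := ASaux.sum_of_isSumSq (map_isSumSq (τ : kk (n + 1) →+* kk (n + 1)) hx)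
  have hz1 : (C l * H).eval₂ φ y = ∑ i, (c1⁻¹ * z i) ^ 2 := by
    have h1 : ∑ i, (c1⁻¹ * z i) ^ 2 = c1⁻¹ ^ 2 * ∑ i, z i ^ 2 := by
      rw [Finset.mul_sum]
      exact Finset.sum_congr rfl fun i _ => by ring
    have h2 : τ x = ∑ i, z i ^ 2 := hz
    rw [h1, ← h2, hτx2]
    field_simp
  obtain ⟨w, hw⟩ := IsLocalization.exist_integer_multiples_of_finite
    (nonZeroDivisors (MvPolynomial (Fin (n + 1)) ℝ)) (fun i => c1⁻¹ * z i)
  choose g hg using hw
  have hw0 : (w : MvPolynomial (Fin (n + 1)) ℝ) ≠ 0 := nonZeroDivisors.coe_ne_zero w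
  have hpoly : (C l * H) * (toP n w) ^ 2 = ∑ i, (toP n (g i)) ^ 2 := by
    rw [← sub_eq_zero]
    apply eval_inj n φ hφ
    rw [Polynomial.eval₂_sub, Polynomial.eval₂_mul, Polynomial.eval₂_pow,
      Polynomial.eval₂_finsetSum, ← hy, hz1]
    have h3 : ∀ i, (toP n (g i) ^ 2).eval₂ φ y =
        (algebraMap (MvPolynomial (Fin (n + 1)) ℝ) (kk (n + 1)) w) ^ 2 * (c1⁻¹ * z i) ^ 2 := by
      intro i
      rw [Polynomial.eval₂_pow, eval_toP n φ hφ, hg i, Algebra.smul_def]
      ring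
    rw [Finset.sum_congr rfl fun i _ => h3 i, eval_toP n φ hφ, ← Finset.mul_sum]
    ring
  have hw1 : toP n w ≠ 0 := by
    intro h
    have := eval_toP n φ hφ w
    rw [h, Polynomial.eval₂_zero] at this
    exact hw0 ((map_eq_zero_iff _ hinj).1 this.symm)
  obtain ⟨h, hh⟩ := Rows.STaux.descent (FR_kk n) r (C l * H) _ (toP n w) (fun i => toP n (g i))
    le_rfl hw1 hpoly
  -- the sign
  have hpos : 0 < a0 := by
    by_contra hneg
    have hneg : 0 < -a0 := by
      rcases lt_trichotomy a0 0 with h | h | h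
      · linarith
      · exact absurd h ha00
      · exact absurd h hneg
    obtain ⟨u, hu⟩ := lead (FR_kk n) r h
    rw [← hh, leadingCoeff_mul, leadingCoeff_C, hH.leadingCoeff, mul_one] at hu
    have hs : (algebraMap (MvPolynomial (Fin n) ℝ) (kk n) (MvPolynomial.C (Real.sqrt (-a0)))) ^ 2 =
        - l := by
      rw [← map_pow, ← MvPolynomial.C_pow, Real.sq_sqrt hneg.le, MvPolynomial.C_neg, map_neg, hl]
    have h5 := FR_kk n (r + 1) (Fin.snoc u
      (algebraMap (MvPolynomial (Fin n) ℝ) (kk n) (MvPolynomial.C (Real.sqrt (-a0))))) (by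
        rw [Fin.sum_univ_castSucc]
        simp only [Fin.snoc_castSucc, Fin.snoc_last]
        rw [hs, ← hu]; ring)
    have h6 := congrFun h5 (Fin.last _)
    simp only [Fin.snoc_last, Pi.zero_apply] at h6
    exact hcn n _ (Real.sqrt_pos.2 hneg).ne' h6
  set s := Real.sqrt a0 with hs
  have hs0 : s ≠ 0 := (Real.sqrt_pos.2 hpos).ne'
  set σ := algebraMap (MvPolynomial (Fin n) ℝ) (kk n) (MvPolynomial.C s) with hσ
  have hσ0 : σ ≠ 0 := hcn n s hs0
  have hσ2 : σ ^ 2 = l := by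
    rw [hσ, ← map_pow, ← MvPolynomial.C_pow, hs, Real.sq_sqrt hpos.le, hl]
  refine ⟨φ, y, τ, c1 * φ σ, H, r, fun i => C σ⁻¹ * h i, hH, hHs, ?_, ?_⟩
  · have h1 : ∑ i, (C σ⁻¹ * h i) ^ 2 = C (σ⁻¹ ^ 2) * ∑ i, h i ^ 2 := by
      rw [Finset.mul_sum]
      refine Finset.sum_congr rfl fun i _ => ?_
      rw [C_pow]; ring
    rw [h1, ← hh, ← mul_assoc, ← C_mul, ← hσ2]
    have : σ⁻¹ ^ 2 * σ ^ 2 = 1 := by field_simp
    rw [this, C_1, one_mul]
  · rw [hτx2, Polynomial.eval₂_mul, Polynomial.eval₂_C, ← hσ2, map_pow]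
    ring

end Pool.Agent.PFS.REDaux

namespace Pool.Agent.PFS

open Polynomial Pool.Agent.PDF

theorem RED (n : ℕ) (x : kk (n + 1)) (hx : IsSumSq x) (hx0 : x ≠ 0) :
    ∃ (F h : (kk n)[X]) (φ : kk n →+* kk (n + 1)) (y g : kk (n + 1)),
      F.Monic ∧ Squarefree F ∧ h ≠ 0 ∧ IsSumSq (h ^ 2 * F) ∧ x = g ^ 2 * F.eval₂ φ y := by
  obtain ⟨φ, y, τ, c, F, r, f, h1, h2, h3, h4⟩ := REDaux.red n x hx hx0
  refine ⟨F, 1, (τ.symm : kk (n + 1) →+* kk (n + 1)).comp φ, τ.symm y, τ.symm c, h1, h2,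
    one_ne_zero, ?_, ?_⟩
  · rw [one_pow, one_mul, h3]
    exact IsSumSq.sum fun i _ => (IsSquare.sq (f i)).isSumSq
  · apply τ.injective
    have h5 : τ (F.eval₂ ((τ.symm : kk (n + 1) →+* kk (n + 1)).comp φ) (τ.symm y)) =
        F.eval₂ φ y := by
      have h6 := Polynomial.hom_eval₂ F ((τ.symm : kk (n + 1) →+* kk (n + 1)).comp φ)
        (τ : kk (n + 1) →+* kk (n + 1)) (τ.symm y)
      have h7 : (τ : kk (n + 1) →+* kk (n + 1)).comp
          ((τ.symm : kk (n + 1) →+* kk (n + 1)).comp φ) = φ := by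
        ext a
        simp
      rw [h7] at h6
      simpa using h6
    rw [map_mul, map_pow, h5, RingEquiv.apply_symm_apply, h4]

end Pool.Agent.PFS
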