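import Pool.Agent.PFS.Defs

/-!
# Row API: places (MP_b906c2_al)
-/

set_option autoImplicit false

namespace Pool.Agent.PFS

open Polynomial Pool.Agent.PDF

section API

variable {k Ω : Type} [Field k] [LinearOrder k] [IsStrictOrderedRing k] [Field Ω] [Algebra k Ω]
  (p : Pl k Ω)

theorem lam_zero : p.lam 0 = 0 := by
  have h := p.lam_add 0 p.V.zero_mem 0 p.V.zero_mem
  rw [add_zero] at h
  linear_combination -h

/-- the ring homomorphism -/
noncomputable def Pl.hom : p.V →+* ℂ where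
  toFun x := p.lam x.1
  map_one' := p.lam_one
  map_zero' := lam_zero p
  map_mul' x y := p.lam_mul x.1 x.2 y.1 y.2
  map_add' x y := p.lam_add x.1 x.2 y.1 y.2

theorem Pl.hom_apply (x : p.V) : p.hom x = p.lam x.1 := rfl

theorem lam_neg {x : Ω} (hx : x ∈ p.V) : p.lam (-x) = - p.lam x :=
  map_neg p.hom ⟨x, hx⟩

theorem lam_sub {x y : Ω} (hx : x ∈ p.V) (hy : y ∈ p.V) : p.lam (x - y) = p.lam x - p.lam y :=
  map_sub p.hom ⟨x, hx⟩ ⟨y, hy⟩

theorem lam_pow {x : Ω} (hx : x ∈ p.V) (n : ℕ) : p.lam (x ^ n) = p.lam x ^ n :=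
  map_pow p.hom ⟨x, hx⟩ n

theorem lam_sum {ι : Type} (s : Finset ι) (f : ι → Ω) (h : ∀ i ∈ s, f i ∈ p.V) :
    p.lam (∑ i ∈ s, f i) = ∑ i ∈ s, p.lam (f i) := by
  classical
  induction s using Finset.induction_on with
  | empty => simp [lam_zero]
  | insert a s ha ih =>
    rw [Finset.sum_insert ha, Finset.sum_insert ha, p.lam_add _ (h a (Finset.mem_insert_self _ _))
      _ (sum_mem fun i hi => h i (Finset.mem_insert_of_mem hi)),
      ih fun i hi => h i (Finset.mem_insert_of_mem hi)]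

theorem lam_prod {ι : Type} (s : Finset ι) (f : ι → Ω) (h : ∀ i ∈ s, f i ∈ p.V) :
    p.lam (∏ i ∈ s, f i) = ∏ i ∈ s, p.lam (f i) := by
  classical
  induction s using Finset.induction_on with
  | empty => simp [p.lam_one]
  | insert a s ha ih =>
    rw [Finset.prod_insert ha, Finset.prod_insert ha,
      p.lam_mul _ (h a (Finset.mem_insert_self _ _))
      _ (prod_mem fun i hi => h i (Finset.mem_insert_of_mem hi)),
      ih fun i hi => h i (Finset.mem_insert_of_mem hi)]

theorem ne_zero_of_lam {x : Ω} (h : p.lam x ≠ 0) : x ≠ 0 := by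
  rintro rfl
  exact h (lam_zero p)

theorem lam_inv {x : Ω} (hx : x ∈ p.V) (h : p.lam x ≠ 0) : p.lam x⁻¹ = (p.lam x)⁻¹ := by
  have h0 := ne_zero_of_lam p h
  have h1 := p.lam_mul x hx x⁻¹ (p.inv_mem x hx h)
  rw [mul_inv_cancel₀ h0, p.lam_one] at h1
  exact eq_inv_of_mul_eq_one_right h1.symm

/-- non-members have inverses in the maximal ideal -/
theorem lam_inv_zero {x : Ω} (hx : x ∉ p.V) : x⁻¹ ∈ p.V ∧ p.lam x⁻¹ = 0 := by
  have h1 : x⁻¹ ∈ p.V := (p.val x).resolve_left hx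
  refine ⟨h1, ?_⟩
  by_contra h
  apply hx
  have := p.inv_mem _ h1 h
  rwa [inv_inv] at this

theorem mem_of_pow {x : Ω} {n : ℕ} (hn : 0 < n) (h : x ^ n ∈ p.V) : x ∈ p.V := by
  by_contra hx
  obtain ⟨h1, h2⟩ := lam_inv_zero p hx
  have hx0 : x ≠ 0 := by
    rintro rfl
    exact hx p.V.zero_mem
  have h3 := p.lam_mul _ h _ (p.V.pow_mem h1 n)
  rw [lam_pow p h1, h2, zero_pow hn.ne', mul_zero, inv_pow, mul_inv_cancel₀ (pow_ne_zero _ hx0),
    p.lam_one] at h3
  exact one_ne_zero h3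

theorem lam_real [Algebra ℝ k] (r : ℝ) :
    algebraMap k Ω (algebraMap ℝ k r) ∈ p.V ∧ p.lam (algebraMap k Ω (algebraMap ℝ k r)) = r := by
  have h1 : 0 ≤ ArchimedeanClass.mk (algebraMap ℝ k r) := by
    rw [← realHom_apply]
    exact ArchimedeanClass.mk_map_nonneg_of_archimedean _ _
  refine ⟨p.mem_of_fin _ h1, ?_⟩
  rw [p.lam_fin _ h1]
  congr 1
  rw [← realHom_apply]
  exact ArchimedeanClass.stdPart_map_real _ _

/-- root bounds: a root of a monic polynomial of degree `d` with coefficients of absolute value at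
most `s` (standard part) -/
theorem root_bound (x : Ω) (P : k[X]) (hP : P.Monic) (s : ℝ) (hs : 0 ≤ s)
    (hc : ∀ i < P.natDegree, 0 ≤ ArchimedeanClass.mk (P.coeff i) ∧
      |ArchimedeanClass.stdPart (P.coeff i)| ≤ s) (hx : aeval x P = 0) :
    x ∈ p.V ∧ ‖p.lam x‖ ^ P.natDegree ≤ s * ∑ i ∈ Finset.range P.natDegree, ‖p.lam x‖ ^ i ∧
      ‖p.lam x‖ ≤ 1 + s := by
  have hxV : x ∈ p.V := by
    refine p.integ x P hP (fun i => ?_) hx
    rcases lt_trichotomy i P.natDegree with h | h | h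
    · exact (hc i h).1
    · rw [h, hP.coeff_natDegree]
      simp
    · rw [coeff_eq_zero_of_natDegree_lt h]
      simp
  set d := P.natDegree with hd
  have h1 : x ^ d + ∑ i ∈ Finset.range d, algebraMap k Ω (P.coeff i) * x ^ i = 0 := by
    rw [aeval_eq_sum_range, Finset.sum_range_succ, ← hd, hP.coeff_natDegree, one_smul] at hx
    rw [add_comm, ← hx]
    congr 1
    refine Finset.sum_congr rfl fun i _ => ?_
    rw [Algebra.smul_def]
  have hm : ∀ i ∈ Finset.range d, algebraMap k Ω (P.coeff i) * x ^ i ∈ p.V := fun i hi =>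
    p.V.mul_mem (p.mem_of_fin _ (hc i (Finset.mem_range.1 hi)).1) (p.V.pow_mem hxV i)
  have h2 : p.lam x ^ d = - ∑ i ∈ Finset.range d,
      (ArchimedeanClass.stdPart (P.coeff i) : ℂ) * p.lam x ^ i := by
    have h3 := congrArg p.lam h1
    rw [p.lam_add _ (p.V.pow_mem hxV d) _ (sum_mem hm), lam_pow p hxV, lam_sum p _ _ hm,
      lam_zero] at h3
    have h4 : ∑ i ∈ Finset.range d, p.lam (algebraMap k Ω (P.coeff i) * x ^ i) =
        ∑ i ∈ Finset.range d, (ArchimedeanClass.stdPart (P.coeff i) : ℂ) * p.lam x ^ i := by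
      refine Finset.sum_congr rfl fun i hi => ?_
      have h5 := (hc i (Finset.mem_range.1 hi)).1
      rw [p.lam_mul _ (p.mem_of_fin _ h5) _ (p.V.pow_mem hxV i), p.lam_fin _ h5, lam_pow p hxV]
    rw [h4] at h3
    linear_combination h3
  have h3 : ‖p.lam x‖ ^ d ≤ s * ∑ i ∈ Finset.range d, ‖p.lam x‖ ^ i := by
    rw [← norm_pow, h2, norm_neg, Finset.mul_sum]
    refine (norm_sum_le _ _).trans (Finset.sum_le_sum fun i hi => ?_)
    rw [norm_mul, norm_pow, Complex.norm_real, Real.norm_eq_abs]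
    exact mul_le_mul_of_nonneg_right (hc i (Finset.mem_range.1 hi)).2 (by positivity)
  refine ⟨hxV, h3, ?_⟩
  by_contra hlt
  rw [not_le] at hlt
  set y := ‖p.lam x‖ with hy
  have hy1 : 1 < y := by linarith
  have h4 : (y - 1) * ∑ i ∈ Finset.range d, y ^ i = y ^ d - 1 := by
    rw [mul_comm]
    exact geom_sum_mul y d
  have h5 : 0 ≤ ∑ i ∈ Finset.range d, y ^ i := Finset.sum_nonneg fun i _ => by positivity
  have h6 : s * ∑ i ∈ Finset.range d, y ^ i ≤ (y - 1) * ∑ i ∈ Finset.range d, y ^ i :=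
    mul_le_mul_of_nonneg_right (by linarith) h5
  linarith

/-- polynomials with real coefficients -/
theorem lam_mvaeval [Algebra ℝ k] {ι : Type} (e : ι → Ω) (he : ∀ j, e j ∈ p.V)
    (Q : MvPolynomial ι ℝ) :
    MvPolynomial.eval₂ ((algebraMap k Ω).comp (algebraMap ℝ k)) e Q ∈ p.V ∧
      p.lam (MvPolynomial.eval₂ ((algebraMap k Ω).comp (algebraMap ℝ k)) e Q) =
        MvPolynomial.aeval (fun j => p.lam (e j)) Q := by
  induction Q using MvPolynomial.induction_on with
  | C a =>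
    rw [MvPolynomial.eval₂_C, MvPolynomial.aeval_C]
    exact lam_real p a
  | add P Q hP hQ =>
    rw [MvPolynomial.eval₂_add, map_add, p.lam_add _ hP.1 _ hQ.1, hP.2, hQ.2]
    exact ⟨p.V.add_mem hP.1 hQ.1, rfl⟩
  | mul_X P i hP =>
    rw [MvPolynomial.eval₂_mul, MvPolynomial.eval₂_X, map_mul, MvPolynomial.aeval_X,
      p.lam_mul _ hP.1 _ (he i), hP.2]
    exact ⟨p.V.mul_mem hP.1 (he i), rfl⟩

end API

/-! ### roots -/

theorem mem_Zs {k : Type} [Field k] {F : k[X]} (hF : F ≠ 0) {z : Om k} :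
    z ∈ Zs F ↔ aeval z F = 0 := by
  classical
  rw [Zs, Multiset.mem_toFinset, mem_aroots]
  exact ⟨fun h => h.2, fun h => ⟨hF, h⟩⟩

theorem card_Zs {k : Type} [Field k] [CharZero k] {F : k[X]} (hs : Squarefree F) :
    (Zs F).card = F.natDegree := by
  classical
  have hsep : F.Separable := PerfectField.separable_iff_squarefree.2 hs
  rw [Zs, Multiset.toFinset_card_of_nodup (nodup_aroots_iff_of_splits hs.ne_zero ?_ |>.2 hsep)]
  · rw [aroots, ← (IsAlgClosed.splits _).natDegree_eq_card_roots, natDegree_map]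
  · exact IsAlgClosed.splits _

/-- `F = ∏ (X - z)` -/
theorem prod_Zs {k : Type} [Field k] [CharZero k] {F : k[X]} (hF : F.Monic) (hs : Squarefree F) :
    F.map (algebraMap k (Om k)) = ∏ z ∈ Zs F, (X - C z) := by
  classical
  have hsep : F.Separable := PerfectField.separable_iff_squarefree.2 hs
  have h1 := (IsAlgClosed.splits (F.map (algebraMap k (Om k)))).eq_prod_roots_of_monic (hF.map _)
  have h2 : (F.aroots (Om k)).Nodup :=
    (nodup_aroots_iff_of_splits hs.ne_zero (IsAlgClosed.splits _)).2 hsep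
  rw [h1, Zs, Finset.prod_multiset_map_count]
  refine Finset.prod_congr rfl fun z hz => ?_
  rw [Multiset.count_eq_one_of_mem h2 (Multiset.mem_toFinset.1 hz), pow_one]

end Pool.Agent.PFS
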