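import Mathlib

/-!
# Complex conjugation on the roots of a real monic polynomial is approximated by one real polynomial
in the coefficients and the root (MP_b906c2_al)
-/

set_option autoImplicit false

namespace Pool.Agent.PFS

open Polynomial

namespace Conj

/-- multivariate Weierstrass on a compact set -/
theorem weier {σ : Type} (K : Set (σ → ℝ)) (hK : IsCompact K) (f : (σ → ℝ) → ℝ)
    (hf : ContinuousOn f K) (ε : ℝ) (hε : 0 < ε) :
    ∃ p : MvPolynomial σ ℝ, ∀ c ∈ K, |MvPolynomial.eval c p - f c| < ε := by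
  have : CompactSpace K := isCompact_iff_compactSpace.1 hK
  let cr : σ → C(K, ℝ) := fun i => ⟨fun x => x.1 i, (continuous_apply i).comp continuous_subtype_val⟩
  let A : Subalgebra ℝ C(K, ℝ) := (MvPolynomial.aeval (R := ℝ) cr).range
  have hev : ∀ (p : MvPolynomial σ ℝ) (x : K), (MvPolynomial.aeval (R := ℝ) cr p) x =
      MvPolynomial.eval x.1 p := by
    intro p x
    induction p using MvPolynomial.induction_on with
    | C a => simp
    | add p q hp hq => rw [map_add, map_add, ContinuousMap.add_apply, hp, hq]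
    | mul_X p i hp =>
      rw [map_mul, map_mul, ContinuousMap.mul_apply, hp, MvPolynomial.aeval_X,
        MvPolynomial.eval_X]
      rfl
  have hsep : A.SeparatesPoints := by
    intro x y hxy
    obtain ⟨i, hi⟩ : ∃ i, x.1 i ≠ y.1 i := by
      by_contra h
      push Not at h
      exact hxy (Subtype.ext (funext h))
    refine ⟨cr i, ⟨cr i, ⟨MvPolynomial.X i, by simp⟩, rfl⟩, hi⟩
  obtain ⟨⟨g, p, hp⟩, hg⟩ := ContinuousMap.exists_mem_subalgebra_near_continuous_of_separatesPoints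
    A hsep (K.domRestrict f) (continuousOn_iff_continuous_domRestrict.1 hf) ε hε
  refine ⟨p, fun c hc => ?_⟩
  have h1 := hg ⟨c, hc⟩
  have h2 := hev p ⟨c, hc⟩
  have h3 : g = MvPolynomial.aeval (R := ℝ) cr p := hp.symm
  rw [← h2, ← h3]
  exact h1

/-- the value at `ζ` of the monic polynomial with lower coefficients `c` -/
noncomputable def ev (D : ℕ) (c : Fin D → ℝ) (ζ : ℂ) : ℂ := ζ ^ D + ∑ i : Fin D, (c i : ℂ) * ζ ^ (i : ℕ)

theorem ev_conj (D : ℕ) (c : Fin D → ℝ) (ζ : ℂ) :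
    ev D c ((starRingEnd ℂ) ζ) = (starRingEnd ℂ) (ev D c ζ) := by
  unfold ev
  rw [map_add, map_sum, map_pow]
  congr 1
  refine Finset.sum_congr rfl fun i _ => ?_
  rw [map_mul, map_pow, Complex.conj_ofReal]

theorem ev_fin (D : ℕ) (c : Fin D → ℝ) : {ζ : ℂ | ev D c ζ = 0}.Finite := by
  let P : ℂ[X] := X ^ D + ∑ i : Fin D, C (c i : ℂ) * X ^ (i : ℕ)
  have hP : P.Monic := by
    refine monic_X_pow_add (lt_of_le_of_lt (degree_sum_le _ _) ?_)
    rw [Finset.sup_lt_iff (by exact WithBot.bot_lt_coe D)]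
    intro i _
    refine lt_of_le_of_lt (degree_C_mul_X_pow_le _ _) ?_
    exact_mod_cast i.2
  have h : {ζ : ℂ | ev D c ζ = 0} ⊆ (P.roots.toFinset : Set ℂ) := by
    intro ζ hζ
    simp only [Finset.mem_coe, Multiset.mem_toFinset]
    rw [mem_roots hP.ne_zero, IsRoot.def]
    simp only [P, eval_add, eval_pow, eval_X, eval_finsetSum, eval_mul, eval_C]
    exact hζ
  exact P.roots.toFinset.finite_toSet.subset h

theorem ev_bound (D : ℕ) (B : ℝ) (c : Fin D → ℝ) (hc : ∀ i, |c i| ≤ B) (ζ : ℂ)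
    (h : ev D c ζ = 0) : ‖ζ‖ ≤ 1 + D * |B| := by
  by_contra hcon
  push Not at hcon
  have hDB : 0 ≤ (D : ℝ) * |B| := by positivity
  have h1 : 1 < ‖ζ‖ := by linarith
  obtain rfl | ⟨d, rfl⟩ : D = 0 ∨ ∃ d, D = d + 1 := by
    cases D with
    | zero => exact Or.inl rfl
    | succ d => exact Or.inr ⟨d, rfl⟩
  · simp [ev] at h
  have h2 : ζ ^ (d + 1) = - ∑ i : Fin (d + 1), (c i : ℂ) * ζ ^ (i : ℕ) :=
    eq_neg_of_add_eq_zero_left h
  have h3 : ‖ζ‖ ^ (d + 1) ≤ ((d + 1 : ℕ) : ℝ) * |B| * ‖ζ‖ ^ d := by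
    rw [← norm_pow, h2, norm_neg]
    refine (norm_sum_le _ _).trans ?_
    have : ∀ i ∈ (Finset.univ : Finset (Fin (d + 1))),
        ‖(c i : ℂ) * ζ ^ (i : ℕ)‖ ≤ |B| * ‖ζ‖ ^ d := by
      intro i _
      rw [norm_mul, norm_pow, Complex.norm_real, Real.norm_eq_abs]
      refine mul_le_mul ((hc i).trans (le_abs_self B)) ?_ (by positivity) (abs_nonneg _)
      exact pow_le_pow_right₀ h1.le (Nat.lt_succ_iff.1 i.2)
    refine (Finset.sum_le_card_nsmul _ _ _ this).trans ?_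
    rw [Finset.card_univ, Fintype.card_fin, nsmul_eq_mul, mul_assoc]
  have h4 : 0 < ‖ζ‖ ^ d := by positivity
  rw [pow_succ, mul_comm] at h3
  have h5 := le_of_mul_le_mul_right h3 h4
  linarith

/-- real interpolation of the conjugation on a finite set stable under conjugation -/
theorem interp (Z : Finset ℂ) (hZ : ∀ z ∈ Z, (starRingEnd ℂ) z ∈ Z) :
    ∃ g : ℝ[X], ∀ z ∈ Z, aeval z g = (starRingEnd ℂ) z := by
  classical
  let L : ℂ[X] := Lagrange.interpolate Z id (fun z => (starRingEnd ℂ) z)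
  have hL : ∀ z ∈ Z, L.eval z = (starRingEnd ℂ) z := fun z hz =>
    Lagrange.eval_interpolate_at_node _ (Set.injOn_id _) hz
  let g : ℝ[X] := ∑ i ∈ Finset.range (L.natDegree + 1), C (L.coeff i).re * X ^ i
  refine ⟨g, fun z hz => ?_⟩
  have h1 : L.eval z = ∑ i ∈ Finset.range (L.natDegree + 1), L.coeff i * z ^ i :=
    eval_eq_sum_range z
  have h2 : (starRingEnd ℂ) (L.eval ((starRingEnd ℂ) z)) =
      ∑ i ∈ Finset.range (L.natDegree + 1), (starRingEnd ℂ) (L.coeff i) * z ^ i := by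
    rw [eval_eq_sum_range, map_sum]
    refine Finset.sum_congr rfl fun i _ => ?_
    rw [map_mul, map_pow, Complex.conj_conj]
  rw [hL z hz] at h1
  rw [hL _ (hZ z hz), Complex.conj_conj] at h2
  have h3 : aeval z g = ∑ i ∈ Finset.range (L.natDegree + 1), ((L.coeff i).re : ℂ) * z ^ i := by
    simp only [g, map_sum, map_mul, map_pow, aeval_C, aeval_X]
    rfl
  have h4 : (2 : ℂ) * aeval z g = (starRingEnd ℂ) z + (starRingEnd ℂ) z := by
    nth_rewrite 1 [h1]
    rw [h2, h3, Finset.mul_sum, ← Finset.sum_add_distrib]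
    refine Finset.sum_congr rfl fun i _ => ?_
    have h5 := Complex.add_conj (L.coeff i)
    rw [← add_mul, h5]
    push_cast
    ring
  have h6 : (2 : ℂ) ≠ 0 := two_ne_zero
  apply mul_left_cancel₀ h6
  rw [h4]
  ring

theorem ev_cont (D : ℕ) : Continuous (fun x : (Fin D → ℝ) × ℂ => ev D x.1 x.2) := by
  unfold ev
  fun_prop

/-- one polynomial works near `c0` -/
theorem local_conj (D : ℕ) (B ε : ℝ) (hε : 0 < ε) (c0 : Fin D → ℝ) :
    ∃ (g : ℝ[X]) (δ : ℝ), 0 < δ ∧ ∀ c : Fin D → ℝ, (∀ i, |c i| ≤ B) → dist c c0 < δ →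
      ∀ ζ : ℂ, ev D c ζ = 0 → ‖aeval ζ g - (starRingEnd ℂ) ζ‖ < ε := by
  obtain ⟨g, hg⟩ := interp (ev_fin D c0).toFinset (by
    intro z hz
    rw [Set.Finite.mem_toFinset] at hz ⊢
    show ev D c0 ((starRingEnd ℂ) z) = 0
    rw [ev_conj, show ev D c0 z = 0 from hz, map_zero])
  refine ⟨g, ?_⟩
  let T : Set ((Fin D → ℝ) × ℂ) := (Metric.closedBall c0 1 ×ˢ Metric.closedBall 0 (1 + D * |B|)) ∩
    ({x | ev D x.1 x.2 = 0} ∩ {x | ε ≤ ‖aeval x.2 g - (starRingEnd ℂ) x.2‖})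
  have hcg : Continuous (fun x : (Fin D → ℝ) × ℂ => ‖aeval x.2 g - (starRingEnd ℂ) x.2‖) := by
    have h1 : Continuous (fun x : (Fin D → ℝ) × ℂ => aeval x.2 g) :=
      (Polynomial.continuous_aeval g).comp continuous_snd
    exact (h1.sub (Complex.continuous_conj.comp continuous_snd)).norm
  have hT : IsCompact T :=
    ((isCompact_closedBall _ _).prod (isCompact_closedBall _ _)).inter_right
      ((isClosed_eq (ev_cont D) continuous_const).inter (isClosed_le continuous_const hcg))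
  have hT' : IsClosed (Prod.fst '' T) := (hT.image continuous_fst).isClosed
  have h0 : c0 ∉ Prod.fst '' T := by
    rintro ⟨⟨c, ζ⟩, hx, rfl⟩
    have h1 := hg ζ (by rw [Set.Finite.mem_toFinset]; exact hx.2.1)
    have h2 : ε ≤ ‖aeval ζ g - (starRingEnd ℂ) ζ‖ := hx.2.2
    rw [h1, sub_self, norm_zero] at h2
    linarith
  obtain ⟨δ, hδ, hball⟩ := Metric.isOpen_iff.1 hT'.isOpen_compl c0 h0
  refine ⟨min δ 1, lt_min hδ one_pos, fun c hc hd ζ hζ => ?_⟩
  by_contra hcon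
  push Not at hcon
  have h1 : c ∈ (Prod.fst '' T)ᶜ := hball (lt_of_lt_of_le hd (min_le_left _ _))
  apply h1
  refine ⟨(c, ζ), ⟨⟨?_, ?_⟩, hζ, hcon⟩, rfl⟩
  · exact (lt_of_lt_of_le hd (min_le_right _ _)).le
  · rw [Metric.mem_closedBall, dist_zero_right]
    exact ev_bound D B c hc ζ hζ

end Conj

open Conj in
/-- complex conjugation on the roots is approximated by one real polynomial in the coefficients and the root -/
theorem conj_approx (D : ℕ) (B ε : ℝ) (hε : 0 < ε) :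
    ∃ G : (MvPolynomial (Fin D) ℝ)[X], ∀ c : Fin D → ℝ, (∀ i, |c i| ≤ B) →
      ∀ ζ : ℂ, ζ ^ D + ∑ i : Fin D, (c i : ℂ) * ζ ^ (i : ℕ) = 0 →
        ‖G.eval₂ ((algebraMap ℝ ℂ).comp (MvPolynomial.eval c)) ζ - (starRingEnd ℂ) ζ‖ < ε := by
  classical
  choose g δ hδ hg using local_conj D B (ε / 2) (by positivity)
  let K : Set (Fin D → ℝ) := {c | ∀ i, |c i| ≤ B}
  have hK : IsCompact K := by
    have : K = Set.pi Set.univ (fun _ : Fin D => Set.Icc (-B) B) := by
      ext c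
      simp only [K, Set.mem_ofPred_eq, Set.mem_pi, Set.mem_univ, true_imp_iff, Set.mem_Icc, abs_le]
    rw [this]
    exact isCompact_univ_pi fun _ => isCompact_Icc
  obtain ⟨t, ht, hcov⟩ := hK.elim_nhds_subcover (fun c => Metric.ball c (δ c))
    (fun c _ => Metric.ball_mem_nhds c (hδ c))
  let τ : (Fin D → ℝ) → (Fin D → ℝ) → ℝ := fun q c => max 0 (δ q - dist c q)
  have hτ0 : ∀ q c, 0 ≤ τ q c := fun q c => le_max_left _ _
  have hτc : ∀ q, Continuous (τ q) := fun q => by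
    show Continuous (fun c => max 0 (δ q - dist c q))
    fun_prop
  have hτ1 : ∀ q c, τ q c ≠ 0 → dist c q < δ q := by
    intro q c h
    by_contra hcon
    push Not at hcon
    exact h (max_eq_left (by linarith))
  let S : (Fin D → ℝ) → ℝ := fun c => ∑ q ∈ t, τ q c
  have hS : ∀ c ∈ K, 0 < S c := by
    intro c hc
    obtain ⟨q, hq, hcq⟩ := Set.mem_iUnion₂.1 (hcov hc)
    refine lt_of_lt_of_le ?_ (Finset.single_le_sum (fun q _ => hτ0 q c) hq)
    have : dist c q < δ q := hcq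
    exact lt_of_lt_of_le (by linarith) (le_max_right _ _)
  have hSc : Continuous S := continuous_finsetSum _ fun q _ => hτc q
  -- bounds of the local polynomials
  have hM : ∀ q, ∃ M : ℝ, 0 ≤ M ∧ ∀ ζ : ℂ, ‖ζ‖ ≤ 1 + D * |B| → ‖aeval ζ (g q)‖ ≤ M := by
    intro q
    obtain ⟨M, hM⟩ := (isCompact_closedBall (0 : ℂ) (1 + D * |B|)).exists_bound_of_continuousOn
      (Polynomial.continuous_aeval (g q)).continuousOn
    refine ⟨max M 0, le_max_right _ _, fun ζ hζ => (hM ζ ?_).trans (le_max_left _ _)⟩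
    rw [Metric.mem_closedBall, dist_zero_right]
    exact hζ
  choose M hM0 hM using hM
  set MM : ℝ := ∑ q ∈ t, M q + 1 with hMM
  have hMM0 : 0 < MM := by
    have := Finset.sum_nonneg (fun q (_ : q ∈ t) => hM0 q)
    linarith
  have hη : 0 < ε / 2 / MM := by positivity
  have hp : ∀ q, ∃ p : MvPolynomial (Fin D) ℝ, ∀ c ∈ K,
      |MvPolynomial.eval c p - τ q c / S c| < ε / 2 / MM := by
    intro q
    refine weier K hK _ ?_ _ hη
    exact (hτc q).continuousOn.div hSc.continuousOn fun c hc => (hS c hc).ne'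
  choose p hp using hp
  refine ⟨∑ q ∈ t, C (p q) * (g q).map MvPolynomial.C, fun c hc ζ hζ => ?_⟩
  have hc' : c ∈ K := hc
  have hζ' : ev D c ζ = 0 := hζ
  have hζb := ev_bound D B c hc ζ hζ
  have h1 : (∑ q ∈ t, C (p q) * (g q).map MvPolynomial.C).eval₂
      ((algebraMap ℝ ℂ).comp (MvPolynomial.eval c)) ζ =
      ∑ q ∈ t, ((MvPolynomial.eval c (p q) : ℝ) : ℂ) * aeval ζ (g q) := by
    rw [eval₂_finsetSum]
    refine Finset.sum_congr rfl fun q _ => ?_
    rw [eval₂_mul, eval₂_C, eval₂_map]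
    have h2 : ((algebraMap ℝ ℂ).comp (MvPolynomial.eval c)).comp MvPolynomial.C =
        algebraMap ℝ ℂ := by
      ext x
      simp
    rw [h2]
    rfl
  rw [h1]
  have hsum : ∑ q ∈ t, (τ q c / S c) = 1 := by
    rw [← Finset.sum_div]
    exact div_self (hS c hc').ne'
  have h2 : ∑ q ∈ t, ((MvPolynomial.eval c (p q) : ℝ) : ℂ) * aeval ζ (g q) - (starRingEnd ℂ) ζ =
      ∑ q ∈ t, ((MvPolynomial.eval c (p q) - τ q c / S c : ℝ) : ℂ) * aeval ζ (g q) +
      ∑ q ∈ t, ((τ q c / S c : ℝ) : ℂ) * (aeval ζ (g q) - (starRingEnd ℂ) ζ) := by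
    have h3 : ∑ q ∈ t, ((τ q c / S c : ℝ) : ℂ) * (aeval ζ (g q) - (starRingEnd ℂ) ζ) =
        ∑ q ∈ t, ((τ q c / S c : ℝ) : ℂ) * aeval ζ (g q) - (starRingEnd ℂ) ζ := by
      simp only [mul_sub]
      rw [Finset.sum_sub_distrib, ← Finset.sum_mul, ← Complex.ofReal_sum, hsum,
        Complex.ofReal_one, one_mul]
    rw [h3, ← add_sub_assoc, ← Finset.sum_add_distrib]
    congr 1
    refine Finset.sum_congr rfl fun q _ => ?_
    push_cast
    ring
  rw [h2]
  have h4 : ‖∑ q ∈ t, ((MvPolynomial.eval c (p q) - τ q c / S c : ℝ) : ℂ) * aeval ζ (g q)‖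
      ≤ ε / 2 / MM * ∑ q ∈ t, M q := by
    refine (norm_sum_le _ _).trans ?_
    rw [Finset.mul_sum]
    refine Finset.sum_le_sum fun q _ => ?_
    rw [norm_mul, Complex.norm_real, Real.norm_eq_abs]
    exact mul_le_mul (hp q c hc').le (hM q ζ hζb) (norm_nonneg _) hη.le
  have h5 : ε / 2 / MM * ∑ q ∈ t, M q < ε / 2 := by
    have h6 : ∑ q ∈ t, M q < MM := by rw [hMM]; linarith
    calc ε / 2 / MM * ∑ q ∈ t, M q < ε / 2 / MM * MM := mul_lt_mul_of_pos_left h6 hη
      _ = ε / 2 := div_mul_cancel₀ _ hMM0.ne'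
  have h7 : ‖∑ q ∈ t, ((τ q c / S c : ℝ) : ℂ) * (aeval ζ (g q) - (starRingEnd ℂ) ζ)‖ ≤ ε / 2 := by
    refine (norm_sum_le _ _).trans ?_
    have h8 : ∀ q ∈ t, ‖((τ q c / S c : ℝ) : ℂ) * (aeval ζ (g q) - (starRingEnd ℂ) ζ)‖ ≤
        (τ q c / S c) * (ε / 2) := by
      intro q _
      have h9 : 0 ≤ τ q c / S c := div_nonneg (hτ0 q c) (hS c hc').le
      rw [norm_mul, Complex.norm_real, Real.norm_eq_abs, abs_of_nonneg h9]
      by_cases hz : τ q c = 0
      · rw [hz, zero_div, zero_mul, zero_mul]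
      · exact mul_le_mul_of_nonneg_left (hg q c hc (hτ1 q c hz) ζ hζ').le h9
    refine (Finset.sum_le_sum h8).trans ?_
    rw [← Finset.sum_mul, hsum, one_mul]
  calc _ ≤ _ := norm_add_le _ _
    _ < ε := by linarith

end Pool.Agent.PFS
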