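import Pool.Agent.PFS.Defs

/-!
# The engine: the norm principle twice
-/

set_option autoImplicit false

namespace Pool.Agent.PFS

open Polynomial Pool.Agent.PDF

namespace ENGaux

/-- the inner norm principle: over a field `M` with a point `T` where `P` vanishes, the value of
`F` is a sum of `2 ^ r` squares -/
theorem inner {k M : Type} [Field k] [Field M] (n r : ℕ) (hr : n + 2 ≤ 2 ^ r)
    (F P : k[X]) (Ξ U W : k[X][X]) (a : Fin (n + 1) → k[X])
    (hF : F.Monic) (hco : IsCoprime (∑ i, a i ^ 2) F)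
    (hid : Ξ ^ 2 + (∑ i, a i ^ 2).map C = C P * U + F.map C * W)
    (h2 : (2 : M) ≠ 0) (ρ : k →+* M) (T : M) (hT : P.eval₂ ρ T = 0) (y : M) :
    SS (2 ^ r) (F.eval₂ ρ y) := by
  rw [SS_iff_D]
  set l : List M := List.replicate r 1 with hl
  have hl1 : ∀ b ∈ l, b = 1 := fun b hb => List.eq_of_mem_replicate hb
  have hl0 : ∀ b ∈ l, b ≠ 0 := fun b hb => by rw [hl1 b hb]; exact one_ne_zero
  by_cases h0 : F.eval₂ ρ y = 0
  · rw [h0]; exact D_zero _
  by_cases hA : Aniso (wt l)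
  · have h3 : (F.map ρ).eval y ≠ 0 := by rw [eval_map]; exact h0
    rw [D_wt, ← eval_map]
    refine NP _ hA ((D_wt _ _).1 (D_one _)) (mulC_wt _) _ (hF.map ρ) ?_ _ h3
    intro q hq hqF
    let θ : k[X][X] →+* M[X] := mapRingHom (eval₂RingHom ρ T)
    have hθ1 : θ (C P) = 0 := by
      show (C P).map (eval₂RingHom ρ T) = 0
      rw [map_C]
      show C (P.eval₂ ρ T) = 0
      rw [hT, C_0]
    have hcomp : (eval₂RingHom ρ T).comp (C : k →+* k[X]) = ρ := by
      ext z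
      simp
    have hθ2 : ∀ G : k[X], θ (G.map C) = G.map ρ := by
      intro G
      show (G.map C).map (eval₂RingHom ρ T) = _
      rw [Polynomial.map_map, hcomp]
    have h4 := congrArg θ hid
    rw [map_add, map_add, map_mul, map_mul, map_pow, hθ1, zero_mul, zero_add, hθ2, hθ2] at h4
    have h5 : q ∣ θ Ξ ^ 2 + (∑ i, a i ^ 2).map ρ := by
      rw [h4]
      exact hqF.mul_right _
    have h6 : (∑ i, a i ^ 2).map ρ = ∑ i, (a i).map ρ ^ 2 := by
      rw [← coe_mapRingHom, map_sum]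
      simp
    refine iso_one (κ := (Unit ⊕ Fin (n + 1)) ⊕ Fin (2 ^ r - (n + 2))) l hl1 ?_ q
      (Sum.elim (Sum.elim (fun _ => θ Ξ) (fun i => (a i).map ρ)) (fun _ => 0)) ?_ ?_
    · simp only [Fintype.card_sum, Fintype.card_unit, Fintype.card_fin, hl,
        List.length_replicate]
      omega
    · by_contra hcon
      push Not at hcon
      have h7 : q ∣ (∑ i, a i ^ 2).map ρ := by
        rw [h6]
        refine Finset.dvd_sum fun i _ => ?_
        have := hcon (Sum.inl (Sum.inr i))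
        exact dvd_pow this two_ne_zero
      have h8 : IsCoprime ((∑ i, a i ^ 2).map ρ) (F.map ρ) := by
        have := hco.map (mapRingHom ρ)
        rwa [coe_mapRingHom] at this
      exact hq.not_isUnit (h8.isUnit_of_dvd' h7 hqF)
    · rw [Fintype.sum_sum_type, Fintype.sum_sum_type]
      simp only [Sum.elim_inl, Sum.elim_inr, Finset.univ_unique, Finset.sum_singleton]
      rw [h6] at h5
      simpa using h5
  · exact D_univ h2 _ hl0 hA _

end ENGaux

/-- `2 ^ r ≥ n + 2`, `2 ^ r + 1 + t ≤ 2 ^ n` -/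
theorem ENG (n r t : ℕ) (hr : n + 2 ≤ 2 ^ r) (ht : 2 ^ r + 1 + t ≤ 2 ^ n)
    (F P : (kk n)[X]) (Ξ U W : (kk n)[X][X]) (a : Fin (n + 1) → (kk n)[X]) (c : kk n)
    (hF : F.Monic) (hP : P.Monic) (hc : P.eval c ≠ 0) (hσ : IsSumSq (-(P.eval c)))
    (hco : IsCoprime (∑ i, a i ^ 2) F)
    (hid : Ξ ^ 2 + (∑ i, a i ^ 2).map C = C P * U + F.map C * W)
    {K : Type} [Field K] (hK : FR K) (φ : kk n →+* K) (y : K) (x : Fin t → K) :
    SS (2 ^ (n + 1) - 1) (F.eval₂ φ y + ∑ i, x i ^ 2) := by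
  set G := F.eval₂ φ y + ∑ i, x i ^ 2 with hG
  by_cases hG0 : G = 0
  · rw [hG0]; exact SS_zero_val _
  obtain ⟨L, _, ψ, e, he, hs⟩ := E0 G
  have he0 : e ≠ 0 := by
    rintro rfl
    rw [zero_pow two_ne_zero] at he
    exact hG0 ((map_eq_zero ψ).1 (neg_eq_zero.1 he.symm))
  refine E2 hK ψ G e he hs n ?_
  have h2 : (2 : L) ≠ 0 := by
    have := (map_ne_zero ψ).2 hK.two
    rwa [map_ofNat] at this
  have h1 : ∀ a ∈ List.replicate n (1 : kk n), a ≠ 0 := by
    intro a ha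
    rw [List.eq_of_mem_replicate ha]
    exact one_ne_zero
  have hmap : (List.replicate n (1 : kk n)).map (ψ.comp φ) = List.replicate n (1 : L) := by
    rw [List.map_replicate, map_one]
  have h3 := E1 (ψ.comp φ) h2 (List.replicate n 1) h1 P hP c hc
    (SPn n _ (List.length_replicate) h1 _ hσ) ?_
  · rw [hmap] at h3
    exact (SS_iff_D n _).2 h3
  intro q hq hqP
  rw [hmap]
  have : Fact (Irreducible q) := ⟨hq⟩
  set ρ : kk n →+* AdjoinRoot q := (AdjoinRoot.of q).comp (ψ.comp φ) with hρ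
  have hT : P.eval₂ ρ (AdjoinRoot.root q) = 0 := by
    obtain ⟨u, hu⟩ := hqP
    have h4 : (P.map (ψ.comp φ)).eval₂ (AdjoinRoot.of q) (AdjoinRoot.root q) = 0 := by
      rw [hu, eval₂_mul, AdjoinRoot.eval₂_root, zero_mul]
    rwa [eval₂_map] at h4
  have h2' : (2 : AdjoinRoot q) ≠ 0 := by
    have := (map_ne_zero (AdjoinRoot.of q)).2 h2
    rwa [map_ofNat] at this
  have h5 := ENGaux.inner n r hr F P Ξ U W a hF hco hid h2' ρ (AdjoinRoot.root q) hT
    (AdjoinRoot.of q (ψ y))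
  obtain ⟨g, hg⟩ := h5
  have hval : F.eval₂ ρ (AdjoinRoot.of q (ψ y)) = AdjoinRoot.mk q (C (ψ (F.eval₂ φ y))) := by
    rw [AdjoinRoot.mk_C, hom_eval₂, hom_eval₂]
  choose g' hg' using fun i => AdjoinRoot.mk_surjective (g i)
  have hdvd : q ∣ (C (ψ (F.eval₂ φ y)) - ∑ i, g' i ^ 2) := by
    rw [← AdjoinRoot.mk_eq_zero, map_sub, ← hval, hg, map_sum, sub_eq_zero]
    refine Finset.sum_congr rfl fun i _ => ?_
    rw [map_pow, hg']
  refine iso_one (κ := (Unit ⊕ Fin (2 ^ r)) ⊕ (Fin t ⊕ Fin (2 ^ n - (2 ^ r + 1 + t)))) _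
    (fun a ha => List.eq_of_mem_replicate ha) ?_ q
    (Sum.elim (Sum.elim (fun _ => C e) (fun i => g' i))
      (Sum.elim (fun i => C (ψ (x i))) (fun _ => 0))) ?_ ?_
  · simp only [Fintype.card_sum, Fintype.card_unit, Fintype.card_fin, List.length_replicate]
    omega
  · refine ⟨Sum.inl (Sum.inl ()), ?_⟩
    intro h
    exact hq.not_isUnit (isUnit_of_dvd_unit h (isUnit_C.2 (isUnit_iff_ne_zero.2 he0)))
  · rw [Fintype.sum_sum_type, Fintype.sum_sum_type, Fintype.sum_sum_type]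
    simp only [Sum.elim_inl, Sum.elim_inr, Finset.univ_unique, Finset.sum_singleton]
    have h7 : (C e) ^ 2 = -C (ψ (F.eval₂ φ y)) - ∑ i, C (ψ (x i)) ^ 2 := by
      have h8 : ψ G = ψ (F.eval₂ φ y) + ∑ i, ψ (x i) ^ 2 := by
        rw [hG, map_add, map_sum]; simp
      rw [← C_pow, he, h8]
      simp only [C_neg, C_add, map_sum, C_pow]
      ring
    have h9 : C e ^ 2 + ∑ i, g' i ^ 2 + (∑ i, C (ψ (x i)) ^ 2 +
        ∑ _i : Fin (2 ^ n - (2 ^ r + 1 + t)), (0 : L[X]) ^ 2) =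
        -(C (ψ (F.eval₂ φ y)) - ∑ i, g' i ^ 2) := by
      rw [h7]
      simp only [ne_eq, OfNat.ofNat_ne_zero, not_false_eq_true, zero_pow,
        Finset.sum_const_zero, add_zero]
      ring
    rw [h9]
    exact dvd_neg.2 hdvd

end Pool.Agent.PFS
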