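import Pool.Agent.PFS.Defs

/-!
# Row NR: a monic squarefree polynomial which is a sum of squares up to a square has non-real
residue fields (MP_b906c2_al)
-/

set_option autoImplicit false

namespace Pool.Agent.PFS

open Polynomial Pool.Agent.PDF

namespace NRaux

theorem sum_of {A : Type} [CommRing A] {s : A} (hs : IsSumSq s) :
    ∃ (q : ℕ) (B : Fin q → A), s = ∑ i, B i ^ 2 := by
  induction hs with
  | zero => exact ⟨0, fun i => i.elim0, by simp⟩
  | sq_add a _ ih =>
    obtain ⟨q, B, hB⟩ := ih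
    refine ⟨q + 1, Fin.cons a B, ?_⟩
    rw [Fin.sum_univ_succ]
    simp only [Fin.cons_zero, Fin.cons_succ]
    rw [← hB]
    ring

theorem mem_Zs {k : Type} [Field k] {F : k[X]} (hF : F ≠ 0) {z : Om k} :
    z ∈ Zs F ↔ aeval z F = 0 := by
  classical
  unfold Zs
  rw [Multiset.mem_toFinset, mem_aroots]
  exact ⟨fun h => h.2, fun h => ⟨hF, h⟩⟩

theorem main {k : Type} [Field k] (F : k[X]) (hF : F.Monic) (hs : Squarefree F)
    (hd : 0 < F.natDegree) (q : ℕ) : ∀ (d : ℕ) (h : k[X]) (B : Fin q → k[X]), h.natDegree ≤ d →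
    h ≠ 0 → h ^ 2 * F = ∑ i, B i ^ 2 → ∃ B' : Fin q → k[X], Dat F B' := by
  intro d
  induction d with
  | zero =>
    intro h B hhd hh hB
    obtain ⟨c, hc⟩ : ∃ c, h = C c := ⟨_, eq_C_of_natDegree_le_zero hhd⟩
    refine ⟨B, hF, hs, hd, ⟨h ^ 2, by rw [← hB]; ring⟩, ?_⟩
    intro z hz
    by_contra hcon
    push Not at hcon
    have hQi : Irreducible (minpoly k z) := minpoly.irreducible (Algebra.IsIntegral.isIntegral z)
    obtain ⟨F', hF'⟩ := minpoly.dvd k z ((mem_Zs hF.ne_zero).1 hz)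
    choose B' hB' using fun i => minpoly.dvd k z (hcon i)
    have h1 : (minpoly k z) * (h ^ 2 * F') = (minpoly k z) * ((minpoly k z) * ∑ i, B' i ^ 2) := by
      have h2 : ∑ i, B i ^ 2 = (minpoly k z) * ((minpoly k z) * ∑ i, B' i ^ 2) := by
        rw [Finset.mul_sum, Finset.mul_sum]
        refine Finset.sum_congr rfl fun i _ => ?_
        conv_lhs => rw [hB' i]
        ring
      rw [← h2, ← hB]
      conv_rhs => rw [hF']
      ring
    have h3 := mul_left_cancel₀ hQi.ne_zero h1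
    have h4 : minpoly k z ∣ h ^ 2 * F' := ⟨_, h3⟩
    rcases hQi.prime.dvd_or_dvd h4 with h5 | h5
    · have h6 := hQi.prime.dvd_of_dvd_pow h5
      rw [hc] at h6
      have hc0 : c ≠ 0 := by
        rintro rfl
        exact hh (by rw [hc]; simp)
      exact hQi.not_isUnit (isUnit_of_dvd_unit h6 (isUnit_C.2 (isUnit_iff_ne_zero.2 hc0)))
    · exact hQi.not_isUnit (hs _ (by rw [hF']; exact mul_dvd_mul_left _ h5))
  | succ d ih =>
    intro h B hhd hh hB
    by_cases hz : ∀ z ∈ Zs F, ∃ i, aeval z (B i) ≠ 0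
    · exact ⟨B, hF, hs, hd, ⟨h ^ 2, by rw [← hB]; ring⟩, hz⟩
    push Not at hz
    obtain ⟨z, hz, hcon⟩ := hz
    have hQi : Irreducible (minpoly k z) := minpoly.irreducible (Algebra.IsIntegral.isIntegral z)
    obtain ⟨F', hF'⟩ := minpoly.dvd k z ((mem_Zs hF.ne_zero).1 hz)
    choose B' hB' using fun i => minpoly.dvd k z (hcon i)
    have h2 : ∑ i, B i ^ 2 = (minpoly k z) * ((minpoly k z) * ∑ i, B' i ^ 2) := by
      rw [Finset.mul_sum, Finset.mul_sum]
      refine Finset.sum_congr rfl fun i _ => ?_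
      conv_lhs => rw [hB' i]
      ring
    have h1 : (minpoly k z) * (h ^ 2 * F') = (minpoly k z) * ((minpoly k z) * ∑ i, B' i ^ 2) := by
      rw [← h2, ← hB]
      conv_rhs => rw [hF']
      ring
    have h3 := mul_left_cancel₀ hQi.ne_zero h1
    have h4 : minpoly k z ∣ h ^ 2 * F' := ⟨_, h3⟩
    rcases hQi.prime.dvd_or_dvd h4 with h5 | h5
    · obtain ⟨h', hh'⟩ := hQi.prime.dvd_of_dvd_pow h5
      have hh'0 : h' ≠ 0 := by
        rintro rfl
        exact hh (by rw [hh']; simp)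
      refine ih h' B' ?_ hh'0 ?_
      · have h6 : h.natDegree = (minpoly k z).natDegree + h'.natDegree := by
          conv_lhs => rw [hh']
          exact natDegree_mul hQi.ne_zero hh'0
        have h7 : 0 < (minpoly k z).natDegree := hQi.natDegree_pos
        omega
      · have h8 : (minpoly k z) * ((minpoly k z) * (h' ^ 2 * F)) =
            (minpoly k z) * ((minpoly k z) * ∑ i, B' i ^ 2) := by
          rw [← h2, ← hB]
          conv_rhs => rw [hh']
          ring
        exact mul_left_cancel₀ hQi.ne_zero (mul_left_cancel₀ hQi.ne_zero h8)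
    · exact absurd (hs _ (by rw [hF']; exact mul_dvd_mul_left _ h5)) hQi.not_isUnit

end NRaux

theorem NR {k : Type} [Field k] [CharZero k] (F h : k[X]) (hF : F.Monic) (hs : Squarefree F)
    (hd : 0 < F.natDegree) (hh : h ≠ 0) (hF2 : IsSumSq (h ^ 2 * F)) :
    ∃ (q : ℕ) (B : Fin q → k[X]), Dat F B := by
  obtain ⟨q, B, hB⟩ := NRaux.sum_of hF2
  exact ⟨q, NRaux.main F hF hs hd q _ h B le_rfl hh hB⟩

end Pool.Agent.PFS
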