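import Pool.Agent.PFS.Defs

/-!
# Row TRD: transcendence degree of `ℝ(X₁,…,X_n)` (MP_b906c2_al)
-/

set_option autoImplicit false

namespace Pool.Agent.PFS

open Polynomial Pool.Agent.PDF

theorem TRD (n : ℕ) : TrD n (kk n) := by
  intro e
  by_contra hcon
  push Not at hcon
  have hind : AlgebraicIndependent ℝ e := by
    rw [algebraicIndependent_iff]
    intro p hp
    by_contra h0
    exact hcon p h0 hp
  have h1 := hind.cardinalMk_le_trdeg
  have h2 : Algebra.trdeg ℝ (MvPolynomial (Fin n) ℝ) +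
      Algebra.trdeg (MvPolynomial (Fin n) ℝ) (kk n) = Algebra.trdeg ℝ (kk n) :=
    trdeg_add_eq ℝ (MvPolynomial (Fin n) ℝ)
  have : Algebra.IsAlgebraic (MvPolynomial (Fin n) ℝ) (kk n) :=
    IsLocalization.isAlgebraic (kk n) (nonZeroDivisors (MvPolynomial (Fin n) ℝ))
  have h3 : Algebra.trdeg (MvPolynomial (Fin n) ℝ) (kk n) = 0 := trdeg_eq_zero
  rw [h3, add_zero, MvPolynomial.trdeg_of_isDomain] at h2
  rw [← h2] at h1
  simp only [Cardinal.mk_fin, Cardinal.lift_natCast, Nat.cast_le] at h1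
  omega

end Pool.Agent.PFS
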