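import Pool.Agent.PFS.HE2
import Pool.Agent.PFS.ENG
import Pool.Agent.PFS.RED
import Pool.Agent.PFS.NR
import Pool.Agent.PFS.TRD

/-!
# Row FIN: the main theorem
-/

set_option autoImplicit false

namespace Pool.Agent.PFS

open Polynomial Pool.Agent.PDF

namespace FINaux

theorem SS_mono {K : Type} [Field K] {m n : ℕ} (h : m ≤ n) {a : K} (ha : SS m a) : SS n a := by
  obtain ⟨x, rfl⟩ := ha
  obtain ⟨j, rfl⟩ := Nat.exists_eq_add_of_le h
  refine ⟨Fin.append x 0, ?_⟩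
  rw [Fin.sum_univ_add]
  simp

theorem SS_sq {K : Type} [Field K] {n : ℕ} (hn : 0 < n) (a : K) : SS n (a ^ 2) := by
  refine SS_mono (m := 1) hn ⟨fun _ => a, ?_⟩
  simp

end FINaux

open FINaux in
/-- main theorem -/
theorem main (N e : ℕ) (h1 : N + 1 ≤ 2 ^ e) (h2 : 2 ^ e < 2 ^ (N - 1)) (x : kk N)
    (hx : IsSumSq x) : SS (2 ^ (N - 1) + 2 ^ e) x := by
  obtain ⟨n, rfl⟩ : ∃ n, N = n + 1 := by
    rcases Nat.eq_zero_or_pos N with rfl | h
    · exfalso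
      have : 0 < 2 ^ e := by positivity
      simp at h2
    · exact ⟨N - 1, by omega⟩
  rw [Nat.add_sub_cancel] at h2 ⊢
  have hpos : 0 < 2 ^ n + 2 ^ e := by positivity
  by_cases hx0 : x = 0
  · rw [hx0]; exact SS_zero_val _
  obtain ⟨F, h, φ, y, g, hF, hs, hh, hsum, hxg⟩ := RED n x hx hx0
  rw [hxg]
  refine SS_sq_mul ?_ g
  rcases Nat.eq_zero_or_pos F.natDegree with hd | hd
  · have : F = 1 := hF.natDegree_eq_zero.1 hd
    rw [this, eval₂_one]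
    have := SS_sq hpos (1 : kk (n + 1))
    rwa [one_pow] at this
  obtain ⟨q, B, hB⟩ := NR F h hF hs hd hh hsum
  obtain ⟨P, Ξ, U, W, a, c, hPm, hPc, hσ, hco, hid⟩ := HE2 (FR_kk n) n (TRD n) F B hB
  refine E5 (FR_kk (n + 1)) _ (2 ^ n - 2 ^ e - 1) _ ?_
  intro K' _ hK' ψ z
  have h5 := ENG n e (2 ^ n - 2 ^ e - 1) (by omega) (by omega) F P Ξ U W a c hF hPm hPc hσ hco hid
    hK' (ψ.comp φ) (ψ y) z
  rw [← hom_eval₂] at h5
  have h6 : 2 ^ n + 2 ^ e + (2 ^ n - 2 ^ e - 1) = 2 ^ (n + 1) - 1 := by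
    rw [pow_succ]; omega
  rw [h6]
  exact h5

theorem not_main :
    ¬ (∀ n : ℕ,
      sInf {p : ℕ | ∀ x : FractionRing (MvPolynomial (Fin n) ℝ), IsSumSq x →
        ∃ f : Fin p → FractionRing (MvPolynomial (Fin n) ℝ), x = ∑ i, f i ^ 2} = 2 ^ n) := by
  intro h
  have h1 := h 5
  have h2 : sInf {p : ℕ | ∀ x : FractionRing (MvPolynomial (Fin 5) ℝ), IsSumSq x →
        ∃ f : Fin p → FractionRing (MvPolynomial (Fin 5) ℝ), x = ∑ i, f i ^ 2} ≤ 24 := by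
    refine Nat.sInf_le ?_
    intro x hx
    exact main 5 3 (by norm_num) (by norm_num) x hx
  rw [h1] at h2
  norm_num at h2

end Pool.Agent.PFS
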