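import Pool.Agent.PFS.API

/-!
# Generic weights (row GEN of the project PFS, MP_b906c2_al)

The weights are `τ = ∑_a t^a (b Y)^a` with `b = 1/(1 + ∑ coef²)` and a small real number `t`: all
the `b z` are bounded at all the places, and the signed sums are distinct for almost all `t`.
-/

set_option autoImplicit false

namespace Pool.Agent.PFS

open Polynomial Pool.Agent.PDF

namespace GENaux

/-- `1 + ∑` of the squares of the coefficients -/
noncomputable def nrm {k : Type} [Field k] (F : k[X]) : k :=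
  1 + ∑ i ∈ Finset.range (F.natDegree + 1), F.coeff i ^ 2

open Classical in
/-- the scaling factor -/
noncomputable def bb {k : Type} [Field k] (F : k[X]) : k :=
  if nrm F = 0 then 1 else (nrm F)⁻¹

theorem bb_ne {k : Type} [Field k] (F : k[X]) : bb F ≠ 0 := by
  unfold bb
  split_ifs with h
  · exact one_ne_zero
  · exact inv_ne_zero h

section ord

variable {k : Type} [Field k] [LinearOrder k] [IsStrictOrderedRing k]

theorem one_le_nrm (F : k[X]) : 1 ≤ nrm F := by
  unfold nrm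
  have : 0 ≤ ∑ i ∈ Finset.range (F.natDegree + 1), F.coeff i ^ 2 :=
    Finset.sum_nonneg fun i _ => sq_nonneg _
  linarith

theorem bb_eq (F : k[X]) : bb F = (nrm F)⁻¹ := by
  have h0 : nrm F ≠ 0 := (lt_of_lt_of_le one_pos (one_le_nrm F)).ne'
  unfold bb
  rw [if_neg h0]

theorem bb_pos (F : k[X]) : 0 < bb F := by
  rw [bb_eq]
  exact inv_pos.2 (lt_of_lt_of_le one_pos (one_le_nrm F))

theorem bb_le_one (F : k[X]) : bb F ≤ 1 := by
  rw [bb_eq]
  exact inv_le_one_of_one_le₀ (one_le_nrm F)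

theorem coeff_bb (F : k[X]) (i : ℕ) (hi : i < F.natDegree) : |F.coeff i| * bb F ≤ 1 := by
  rw [bb_eq]
  have h1 : F.coeff i ^ 2 ≤ ∑ j ∈ Finset.range (F.natDegree + 1), F.coeff j ^ 2 :=
    Finset.single_le_sum (f := fun j => F.coeff j ^ 2) (fun j _ => sq_nonneg _)
      (Finset.mem_range.2 (by omega))
  have h2 : |F.coeff i| ≤ nrm F := by
    unfold nrm
    have h3 : |F.coeff i| ^ 2 = F.coeff i ^ 2 := sq_abs _
    nlinarith [sq_nonneg (|F.coeff i| - 1), abs_nonneg (F.coeff i)]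
  exact mul_inv_le_one_of_le₀ h2 (zero_le_one.trans (one_le_nrm F))

theorem coeff_scale (F : k[X]) (i : ℕ) (hi : i < F.natDegree) :
    |(F.scaleRoots (bb F)).coeff i| ≤ 1 := by
  obtain ⟨m, hm⟩ : ∃ m, F.natDegree - i = m + 1 := ⟨F.natDegree - i - 1, by omega⟩
  rw [coeff_scaleRoots, hm, pow_succ', ← mul_assoc, abs_mul, abs_mul, abs_of_pos (bb_pos F),
    abs_of_nonneg (pow_nonneg (bb_pos F).le m)]
  exact mul_le_one₀ (coeff_bb F i hi) (pow_nonneg (bb_pos F).le m)
    (pow_le_one₀ (bb_pos F).le (bb_le_one F))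

/-- the scaled roots are bounded by `2` at all the places -/
theorem scaled_root [Algebra ℝ k] (F : k[X]) (hF : F.Monic) (p : Pl k (Om k)) (z : Om k)
    (hz : aeval z F = 0) :
    algebraMap k (Om k) (bb F) * z ∈ p.V ∧ ‖p.lam (algebraMap k (Om k) (bb F) * z)‖ ≤ 2 := by
  have h := root_bound p (algebraMap k (Om k) (bb F) * z) (F.scaleRoots (bb F))
    ((monic_scaleRoots_iff _).2 hF) 1 zero_le_one (by
      intro i hi
      rw [natDegree_scaleRoots] at hi
      exact fin_of_abs_le_one (coeff_scale F i hi)) (scaleRoots_aeval_eq_zero hz)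
  exact ⟨h.1, h.2.2.trans (by norm_num)⟩

end ord

/-- the weights -/
noncomputable def tau {k : Type} [Field k] [Algebra ℝ k] (F : k[X]) (t : ℝ) : k[X] :=
  ∑ a ∈ Finset.range F.natDegree, C ((algebraMap ℝ k t * bb F) ^ a) * X ^ a

/-- the scaled root -/
noncomputable def ww {k : Type} [Field k] (F : k[X]) (z : Om k) : Om k :=
  algebraMap k (Om k) (bb F) * z

theorem aeval_tau {k : Type} [Field k] [Algebra ℝ k] (F : k[X]) (t : ℝ) (z : Om k) :
    aeval z (tau F t) = ∑ a ∈ Finset.range F.natDegree,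
      (algebraMap k (Om k) (algebraMap ℝ k t) * ww F z) ^ a := by
  unfold tau ww
  rw [map_sum]
  refine Finset.sum_congr rfl fun a _ => ?_
  rw [map_mul, aeval_C, map_pow, map_pow, aeval_X, map_mul]
  ring

theorem near {k : Type} [Field k] [Algebra ℝ k] [LinearOrder k] [IsStrictOrderedRing k]
    (F : k[X]) (hF : F.Monic) (hd : 0 < F.natDegree) (p : Pl k (Om k)) (z : Om k)
    (hz : aeval z F = 0) (t η : ℝ) (ht0 : 0 ≤ t) (ht1 : 2 * t ≤ 1)
    (ht2 : F.natDegree * (2 * t) ≤ η) :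
    aeval z (tau F t) ∈ p.V ∧ ‖p.lam (aeval z (tau F t)) - 1‖ ≤ η := by
  obtain ⟨h1, h2⟩ := scaled_root F hF p z hz
  obtain ⟨h3, h4⟩ := lam_real p (Ω := Om k) t
  have h5 : algebraMap k (Om k) (algebraMap ℝ k t) * ww F z ∈ p.V := p.V.mul_mem h3 h1
  have h6 : p.lam (algebraMap k (Om k) (algebraMap ℝ k t) * ww F z) = t * p.lam (ww F z) := by
    have := p.lam_mul _ h3 _ h1
    rw [h4] at this
    exact this
  have h7 : ‖(t : ℂ) * p.lam (ww F z)‖ ≤ 2 * t := by
    rw [norm_mul, Complex.norm_real, Real.norm_eq_abs, abs_of_nonneg ht0]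
    have : ‖p.lam (ww F z)‖ ≤ 2 := h2
    nlinarith
  obtain ⟨d, hd'⟩ : ∃ d, F.natDegree = d + 1 := ⟨F.natDegree - 1, by omega⟩
  rw [aeval_tau]
  refine ⟨p.V.sum_mem fun a _ => p.V.pow_mem h5 a, ?_⟩
  rw [lam_sum p _ _ (fun a _ => p.V.pow_mem h5 a)]
  have h8 : ∀ a, p.lam ((algebraMap k (Om k) (algebraMap ℝ k t) * ww F z) ^ a) =
      (t * p.lam (ww F z)) ^ a := fun a => by rw [lam_pow p h5, h6]
  simp only [h8]
  rw [hd', Finset.sum_range_succ', pow_zero, add_sub_cancel_right]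
  have h9 : ∀ a ∈ Finset.range d, ‖((t : ℂ) * p.lam (ww F z)) ^ (a + 1)‖ ≤ 2 * t := by
    intro a _
    rw [norm_pow, pow_succ]
    have h10 : ‖(t : ℂ) * p.lam (ww F z)‖ ^ a ≤ 1 :=
      pow_le_one₀ (norm_nonneg _) (h7.trans ht1)
    calc ‖(t : ℂ) * p.lam (ww F z)‖ ^ a * ‖(t : ℂ) * p.lam (ww F z)‖
        ≤ 1 * (2 * t) := mul_le_mul h10 h7 (norm_nonneg _) zero_le_one
      _ = 2 * t := one_mul _
  refine (norm_sum_le _ _).trans ((Finset.sum_le_card_nsmul _ _ _ h9).trans ?_)
  rw [Finset.card_range, nsmul_eq_mul]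
  refine le_trans ?_ ht2
  rw [hd']
  push_cast
  nlinarith

theorem card_Zs_le {k : Type} [Field k] (F : k[X]) : (Zs F).card ≤ F.natDegree := by
  classical
  unfold Zs
  refine (Multiset.toFinset_card_le _).trans ?_
  refine (card_roots' _).trans ?_
  exact natDegree_map_le

open Classical in
/-- the difference of two signed sums as a polynomial in the parameter -/
noncomputable def QQ {k : Type} [Field k] (F : k[X]) (ξ : Om k → Om k) (S S' : Finset (Om k)) :
    (Om k)[X] :=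
  ∑ a ∈ Finset.range F.natDegree, C (∑ z ∈ Zs F,
    ((if z ∈ S then 1 else -1) - (if z ∈ S' then 1 else -1)) * ξ z * ww F z ^ a) * X ^ a

theorem QQ_eval {k : Type} [Field k] [Algebra ℝ k] (F : k[X]) (ξ : Om k → Om k)
    (S S' : Finset (Om k)) (t : ℝ) :
    (QQ F ξ S S').eval (algebraMap k (Om k) (algebraMap ℝ k t)) =
      TT F ξ (tau F t) S - TT F ξ (tau F t) S' := by
  classical
  unfold QQ TT
  rw [eval_finsetSum, ← Finset.sum_sub_distrib]
  simp only [eval_mul, eval_C, eval_pow, eval_X, Finset.sum_mul]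
  rw [Finset.sum_comm]
  refine Finset.sum_congr rfl fun z _ => ?_
  rw [aeval_tau, ← sub_mul, Finset.sum_mul, Finset.mul_sum]
  refine Finset.sum_congr rfl fun a _ => ?_
  rw [mul_pow]
  ring

theorem QQ_ne {k : Type} [Field k] [CharZero k] (F : k[X]) (ξ : Om k → Om k)
    (hξ : ∀ z ∈ Zs F, ξ z ≠ 0) (S S' : Finset (Om k)) (hS : S ⊆ Zs F) (hS' : S' ⊆ Zs F)
    (hne : S ≠ S') : QQ F ξ S S' ≠ 0 := by
  classical
  intro h0
  apply hne
  have hchar : CharZero (Om k) := charZero_of_injective_algebraMap (algebraMap k (Om k)).injective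
  set e : Om k → Om k := fun z =>
    ((if z ∈ S then 1 else -1) - (if z ∈ S' then 1 else -1)) * ξ z with he
  have h1 : ∀ a < F.natDegree, ∑ z ∈ Zs F, e z * ww F z ^ a = 0 := by
    intro a ha
    have h2 : (QQ F ξ S S').coeff a = 0 := by rw [h0, coeff_zero]
    unfold QQ at h2
    rw [finsetSum_coeff] at h2
    simp only [coeff_C_mul, coeff_X_pow] at h2
    rw [Finset.sum_eq_single a] at h2
    · rw [if_pos rfl, mul_one] at h2
      exact h2
    · intro b _ hb
      rw [if_neg (Ne.symm hb), mul_zero]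
    · intro ha'
      exact absurd (Finset.mem_range.2 ha) ha'
  have h2 : ∀ R : (Om k)[X], R.natDegree < F.natDegree →
      ∑ z ∈ Zs F, e z * R.eval (ww F z) = 0 := by
    intro R hR
    have h3 : ∀ z, R.eval (ww F z) = ∑ a ∈ Finset.range F.natDegree, R.coeff a * ww F z ^ a :=
      fun z => eval_eq_sum_range' hR _
    simp only [h3, Finset.mul_sum]
    rw [Finset.sum_comm]
    refine Finset.sum_eq_zero fun a ha => ?_
    have h4 := h1 a (Finset.mem_range.1 ha)
    calc ∑ z ∈ Zs F, e z * (R.coeff a * ww F z ^ a)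
        = R.coeff a * ∑ z ∈ Zs F, e z * ww F z ^ a := by
          rw [Finset.mul_sum]
          exact Finset.sum_congr rfl fun z _ => by ring
      _ = 0 := by rw [h4, mul_zero]
  have h3 : ∀ z₀ ∈ Zs F, e z₀ = 0 := by
    intro z₀ hz₀
    set R : (Om k)[X] := ∏ y ∈ (Zs F).erase z₀, (X - C (ww F y)) with hR
    have h4 : R.natDegree < F.natDegree := by
      rw [hR, natDegree_finsetProd_X_sub_C_eq_card]
      exact lt_of_lt_of_le (Finset.card_erase_lt_of_mem hz₀) (card_Zs_le F)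
    have h5 := h2 R h4
    rw [Finset.sum_eq_single_of_mem z₀ hz₀] at h5
    · rcases mul_eq_zero.1 h5 with h | h
      · exact h
      · exfalso
        rw [hR, eval_prod, Finset.prod_eq_zero_iff] at h
        obtain ⟨y, hy, hy0⟩ := h
        rw [eval_sub, eval_X, eval_C, sub_eq_zero] at hy0
        unfold ww at hy0
        have h6 := mul_left_cancel₀ ((_root_.map_ne_zero _).2 (bb_ne F)) hy0
        exact (Finset.ne_of_mem_erase hy) h6.symm
    · intro z hz hzz
      have : R.eval (ww F z) = 0 := by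
        rw [hR, eval_prod]
        refine Finset.prod_eq_zero (Finset.mem_erase.2 ⟨hzz, hz⟩) ?_
        rw [eval_sub, eval_X, eval_C, sub_self]
      rw [this, mul_zero]
  have h4 : ∀ z ∈ Zs F, (z ∈ S ↔ z ∈ S') := by
    intro z hz
    have h5 := h3 z hz
    rw [he] at h5
    rcases mul_eq_zero.1 h5 with h | h
    · by_cases a1 : z ∈ S <;> by_cases a2 : z ∈ S'
      · simp [a1, a2]
      · rw [if_pos a1, if_neg a2] at h
        norm_num at h
      · rw [if_neg a1, if_pos a2] at h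
        norm_num at h
      · simp [a1, a2]
    · exact absurd h (hξ z hz)
  ext z
  constructor
  · intro h
    exact (h4 z (hS h)).1 h
  · intro h
    exact (h4 z (hS' h)).2 h

end GENaux

open GENaux in
theorem GEN {k : Type} [Field k] [CharZero k] [Algebra ℝ k] (F : k[X]) (hF : F.Monic)
    (hs : Squarefree F) (hd : 0 < F.natDegree) (ξ : Om k → Om k) (hξ : ∀ z ∈ Zs F, ξ z ≠ 0)
    (η : ℝ) (hη : 0 < η) :
    ∃ τ : k[X], (∀ [LinearOrder k] [IsStrictOrderedRing k] (p : Pl k (Om k)), ∀ z ∈ Zs F,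
        aeval z τ ∈ p.V ∧ ‖p.lam (aeval z τ) - 1‖ ≤ η) ∧
      ∀ S ⊆ Zs F, ∀ S' ⊆ Zs F, TT F ξ τ S = TT F ξ τ S' → S = S' := by
  classical
  have hD : (0 : ℝ) < F.natDegree := by exact_mod_cast hd
  set δ : ℝ := min (1 / 2) (η / (F.natDegree * 2)) with hδ
  have hδ0 : 0 < δ := lt_min (by norm_num) (by positivity)
  set prs : Finset (Finset (Om k) × Finset (Om k)) :=
    ((Zs F).powerset ×ˢ (Zs F).powerset).filter (fun q => q.1 ≠ q.2) with hprs
  set G : (Om k)[X] := ∏ q ∈ prs, QQ F ξ q.1 q.2 with hG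
  have hG0 : G ≠ 0 := by
    rw [hG, Finset.prod_ne_zero_iff]
    intro q hq
    rw [hprs, Finset.mem_filter, Finset.mem_product, Finset.mem_powerset,
      Finset.mem_powerset] at hq
    exact QQ_ne F ξ hξ q.1 q.2 hq.1.1 hq.1.2 hq.2
  obtain ⟨t, ht, ht'⟩ : ∃ t ∈ Set.Ioo (0 : ℝ) δ,
      G.eval (algebraMap k (Om k) (algebraMap ℝ k t)) ≠ 0 := by
    by_contra hcon
    push Not at hcon
    apply hG0
    apply eq_zero_of_infinite_isRoot
    have h1 : ((fun t : ℝ => algebraMap k (Om k) (algebraMap ℝ k t)) '' Set.Ioo (0 : ℝ) δ).Infinite :=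
      (Set.Ioo_infinite hδ0).image
        (((algebraMap k (Om k)).injective.comp (algebraMap ℝ k).injective).injOn)
    refine h1.mono ?_
    rintro _ ⟨t, ht, rfl⟩
    exact hcon t ht
  refine ⟨tau F t, ?_, ?_⟩
  · intro _ _ p z hz
    have hz' := (mem_Zs hF.ne_zero).1 hz
    have h1 : t ≤ 1 / 2 := ht.2.le.trans (min_le_left _ _)
    have h2 : t ≤ η / (F.natDegree * 2) := ht.2.le.trans (min_le_right _ _)
    refine near F hF hd p z hz' t η ht.1.le (by linarith) ?_
    rw [le_div_iff₀ (by positivity)] at h2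
    linarith
  · intro S hS S' hS' hTT
    by_contra hne
    apply ht'
    rw [hG, eval_prod]
    refine Finset.prod_eq_zero (i := (S, S')) ?_ ?_
    · rw [hprs, Finset.mem_filter, Finset.mem_product, Finset.mem_powerset, Finset.mem_powerset]
      exact ⟨⟨hS, hS'⟩, hne⟩
    · rw [QQ_eval, hTT, sub_self]

end Pool.Agent.PFS
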