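import Pool.Agent.PDF.AS

/-!
# PFS, row NU3: compactness of the space of orderings of a field
-/

set_option autoImplicit false

namespace Pool.Agent.PFS

open Pool.Agent.PDF Pool.Agent.PDF.ASaux

namespace NU3aux

variable {k : Type} [Field k]

/-- the subsemiring generated by the squares and by `G` -/
def T (G : Set k) : Subsemiring k := Subsemiring.closure (G ∪ Set.range fun x : k => x * x)

theorem T_mono {G H : Set k} (h : G ⊆ H) : T G ≤ T H :=
  Subsemiring.closure_mono (Set.union_subset_union_left _ h)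

open Classical in
theorem T_finite (G : Set k) (x : k) (hx : x ∈ T G) : ∃ s : Finset k, ↑s ⊆ G ∧ x ∈ T (↑s : Set k) := by
  unfold T at hx
  induction hx using Subsemiring.closure_induction with
  | mem x hx =>
    rcases hx with hx | hx
    · exact ⟨{x}, by simpa using hx, Subsemiring.subset_closure (Or.inl (by simp))⟩
    · exact ⟨∅, by simp, Subsemiring.subset_closure (Or.inr hx)⟩
  | zero => exact ⟨∅, by simp, zero_mem _⟩
  | one => exact ⟨∅, by simp, one_mem _⟩
  | add x y _ _ hx hy =>
    obtain ⟨s, hs, h1⟩ := hx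
    obtain ⟨t, ht, h2⟩ := hy
    refine ⟨s ∪ t, by simpa using ⟨hs, ht⟩, add_mem ?_ ?_⟩
    · exact T_mono (by simp) h1
    · exact T_mono (by simp) h2
  | mul x y _ _ hx hy =>
    obtain ⟨s, hs, h1⟩ := hx
    obtain ⟨t, ht, h2⟩ := hy
    refine ⟨s ∪ t, by simpa using ⟨hs, ht⟩, mul_mem ?_ ?_⟩
    · exact T_mono (by simp) h1
    · exact T_mono (by simp) h2

theorem T_nonneg [LinearOrder k] [IsStrictOrderedRing k] (G : Set k) (h : ∀ g ∈ G, 0 ≤ g) (x : k)
    (hx : x ∈ T G) : 0 ≤ x := by
  unfold T at hx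
  induction hx using Subsemiring.closure_induction with
  | mem x hx =>
    rcases hx with hx | ⟨y, rfl⟩
    · exact h x hx
    · exact mul_self_nonneg y
  | zero => exact le_rfl
  | one => exact zero_le_one
  | add x y _ _ hx hy => exact add_nonneg hx hy
  | mul x y _ _ hx hy => exact mul_nonneg hx hy

/-- the preordering generated by `G` -/
def pre (G : Set k) (h : (-1 : k) ∉ T G) : RingPreordering k :=
  RingPreordering.mk' (T G : Set k) (fun h1 h2 => add_mem h1 h2) (fun h1 h2 => mul_mem h1 h2)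
    (fun x => Subsemiring.subset_closure (Or.inr ⟨x, rfl⟩)) h

end NU3aux

open NU3aux in
/-- NU3 (compactness of the space of orderings) -/
theorem NU3 {k : Type} [Field k] (G : Set k)
    (h : ∀ [LinearOrder k] [IsStrictOrderedRing k], ∃ g ∈ G, g < 0) :
    ∃ s : Finset k, ↑s ⊆ G ∧ ∀ [LinearOrder k] [IsStrictOrderedRing k], ∃ g ∈ s, g < 0 := by
  by_cases h1 : (-1 : k) ∈ T G
  · obtain ⟨s, hs, h2⟩ := T_finite G _ h1
    refine ⟨s, hs, ?_⟩
    intro LO SO
    by_contra h3
    push Not at h3
    have h4 := T_nonneg (↑s : Set k) (fun g hg => h3 g (by simpa using hg)) _ h2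
    have h5 : (0 : k) < 1 := zero_lt_one
    exact absurd h4 (not_le.2 (neg_lt_zero.2 h5))
  · exfalso
    obtain ⟨P, hPa, hmax⟩ := zorn_le_nonempty_Ici₀ (pre G h1)
      (fun c _ hc2 y hy => chain_bdd c hc2 y hy) (pre G h1) le_rfl
    have hP : ∀ x, x ∈ P ∨ -x ∈ P := by
      intro x
      by_cases hx : x ∈ P
      · exact Or.inl hx
      · right
        exact hmax (le_adj P x hx) (neg_mem_adj P x hx)
    obtain ⟨LO, SO, hO⟩ := exists_order P hP
    obtain ⟨g, hg, hg0⟩ := @h LO SO
    have h2 : g ∈ pre G h1 := Subsemiring.subset_closure (Or.inl hg)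
    exact absurd ((hO g).2 (hPa h2)) (not_le.2 hg0)

end Pool.Agent.PFS
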