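import Pool.Agent.PFS.Wit

/-!
# Row NU4: a witness at another ordering (MP_b906c2_al)
-/

set_option autoImplicit false

namespace Pool.Agent.PFS

open Polynomial Pool.Agent.PDF

namespace NU4aux

/-- the coefficients of the scaled polynomial -/
theorem coeff_bound {k : Type} [Field k] [LinearOrder k] [IsStrictOrderedRing k] (D : ℕ)
    (χ : k[X]) (hD : χ.natDegree = D) (S e : k) (hS : S = ∑ i ∈ Finset.range D, χ.coeff i ^ 2)
    (he : e = S / (1 + S)) :
    (0 ≤ e ∧ e ≤ 1) ∧ (0 ≤ 1 - e ∧ 1 - e ≤ 1) ∧ ∀ i < D,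
      (scaleRoots χ (1 - e)).coeff i * (scaleRoots χ (1 - e)).coeff i ≤ e ∧
      (scaleRoots χ (1 - e)).coeff i * (scaleRoots χ (1 - e)).coeff i ≤ 1 / 4 := by
  have hS0 : 0 ≤ S := by
    rw [hS]
    exact Finset.sum_nonneg fun i _ => sq_nonneg _
  have h1S : 0 < 1 + S := by linarith
  have hw : 1 - e = 1 / (1 + S) := by
    rw [he]; field_simp; ring
  have he0 : 0 ≤ e := by rw [he]; positivity
  have he1 : e ≤ 1 := by
    rw [he, div_le_one h1S]; linarith
  have hw0 : 0 ≤ 1 - e := by linarith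
  have hw1 : 1 - e ≤ 1 := by linarith
  refine ⟨⟨he0, he1⟩, ⟨hw0, hw1⟩, fun i hi => ?_⟩
  rw [coeff_scaleRoots, hD]
  set w := 1 - e with hwdef
  set c := χ.coeff i with hc
  have hcS : c ^ 2 ≤ S := by
    rw [hS]
    exact Finset.single_le_sum (f := fun i => χ.coeff i ^ 2) (fun j _ => sq_nonneg _)
      (Finset.mem_range.2 hi)
  have hpow : w ^ (D - i) ≤ w := by
    obtain ⟨j, hj⟩ : ∃ j, D - i = j + 1 := ⟨D - i - 1, by omega⟩
    rw [hj, pow_succ]
    have : w ^ j ≤ 1 := pow_le_one₀ hw0 hw1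
    nlinarith
  have hpow0 : 0 ≤ w ^ (D - i) := pow_nonneg hw0 _
  have h1 : (c * w ^ (D - i)) * (c * w ^ (D - i)) ≤ S * (w * w) := by
    have h2 : (c * w ^ (D - i)) * (c * w ^ (D - i)) = c ^ 2 * (w ^ (D - i) * w ^ (D - i)) := by
      ring
    rw [h2]
    exact mul_le_mul hcS (mul_le_mul hpow hpow hpow0 hw0) (by positivity) hS0
  have h3 : S * (w * w) = S / (1 + S) ^ 2 := by
    rw [hw]; field_simp
  constructor
  · refine h1.trans ?_
    rw [h3, he, div_le_div_iff₀ (by positivity) h1S]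
    nlinarith [mul_nonneg hS0 hS0, mul_nonneg (mul_nonneg hS0 hS0) hS0]
  · refine h1.trans ?_
    rw [h3, div_le_div_iff₀ (by positivity) (by norm_num)]
    nlinarith [sq_nonneg (1 - S)]

end NU4aux

open ArchimedeanClass in
theorem NU4 (D : ℕ) (η : ℝ) (hη : 0 < η) :
    ∃ ε : ℝ, 0 < ε ∧ 4 * ε < 1 ∧ ∀ (k : Type) [Field k] [CharZero k] [Algebra ℝ k]
      [LinearOrder k] [IsStrictOrderedRing k] (p : Pl k (Om k)) (F a : k[X]) (e : k),
      F.natDegree = D → 0 < D → Wit F a e →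
      (0 ≤ e ∧ e ≤ 1) ∧ 0 ≤ ArchimedeanClass.mk e ∧
      ∀ z ∈ Zs F, aeval z (C (1 - e) * a) ∈ p.V ∧ ‖p.lam (aeval z (C (1 - e) * a))‖ ≤ 2 ∧
        (ArchimedeanClass.stdPart e ≤ 2 * ε →
          ‖p.lam (aeval z (C (1 - e) * a)) ^ 2 + 1‖ ≤ η) := by
  set B : ℝ := D * (3 / 2) ^ D with hB
  have hB0 : 0 ≤ B := by positivity
  set c : ℝ := (η / 2) ^ D / (B + 1) with hc
  have hc0 : 0 < c := by positivity
  have hcB : c * B ≤ (η / 2) ^ D := by
    rw [hc, div_mul_eq_mul_div, div_le_iff₀ (by positivity)]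
    have : 0 < (η / 2) ^ D := by positivity
    nlinarith
  have hm1 : min (1 / 8) (min (η / 8) (c ^ 2 / 2)) ≤ 1 / 8 := min_le_left _ _
  have hm2 : min (1 / 8) (min (η / 8) (c ^ 2 / 2)) ≤ η / 8 :=
    (min_le_right _ _).trans (min_le_left _ _)
  have hm3 : min (1 / 8) (min (η / 8) (c ^ 2 / 2)) ≤ c ^ 2 / 2 :=
    (min_le_right _ _).trans (min_le_right _ _)
  refine ⟨min (1 / 8) (min (η / 8) (c ^ 2 / 2)), by positivity, by linarith, ?_⟩
  set ε := min (1 / 8) (min (η / 8) (c ^ 2 / 2)) with hε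
  intro k _ _ _ _ _ p F a e hFD hD hW
  obtain ⟨χ, hχ, hχd, hχz, he⟩ := hW
  rw [hFD] at hχd he
  obtain ⟨⟨he0, he1⟩, ⟨hw0, hw1⟩, hcoef⟩ := NU4aux.coeff_bound D χ hχd _ e rfl he
  have hefin := (fin_of_abs_le_one (k := k) (x := e) (by rw [abs_of_nonneg he0]; exact he1)).1
  have hwfin := (fin_of_abs_le_one (k := k) (x := 1 - e) (by rw [abs_of_nonneg hw0]; exact hw1)).1
  refine ⟨⟨he0, he1⟩, hefin, ?_⟩
  intro z hz
  have hse0 : 0 ≤ stdPart e := stdPart_nonneg he0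
  have hsw : stdPart (1 - e) = 1 - stdPart e := by
    rw [stdPart_sub (by simp) hefin, stdPart_one]
  have hsw0 : 0 ≤ stdPart (1 - e) := stdPart_nonneg hw0
  set P := scaleRoots χ (1 - e) with hP
  have hPm : P.Monic := (monic_scaleRoots_iff _).2 hχ
  have hPd : P.natDegree = D := by rw [hP, natDegree_scaleRoots, hχd]
  set τ : Om k := algebraMap k (Om k) (1 - e) * (aeval z a ^ 2 + 1) with hτ
  have hτ0 : aeval τ P = 0 := scaleRoots_aeval_eq_zero (hχz z hz)
  have hfin : ∀ i < P.natDegree, 0 ≤ ArchimedeanClass.mk (P.coeff i) ∧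
      |stdPart (P.coeff i)| ≤ 1 / 2 ∧ |stdPart (P.coeff i)| ≤ Real.sqrt (stdPart e) := by
    intro i hi
    rw [hPd] at hi
    obtain ⟨h1, h2⟩ := hcoef i hi
    set u := P.coeff i with hu
    have hu1 : |u| ≤ 1 := by
      rw [abs_le]
      constructor <;> nlinarith
    have hufin := (fin_of_abs_le_one (k := k) hu1).1
    have huufin : 0 ≤ ArchimedeanClass.mk (u * u) := by
      rw [mk_mul]; exact add_nonneg hufin hufin
    have h3 : stdPart u * stdPart u ≤ stdPart e := by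
      rw [← stdPart_mul hufin hufin]
      exact stdPart_monotoneOn huufin hefin h1
    have h4 : stdPart u * stdPart u ≤ 1 / 4 := by
      rw [← stdPart_mul hufin hufin]
      refine stdPart_le_of_le (realHom k) huufin ?_
      have : realHom k (1 / 4) = 1 / 4 := by
        rw [realHom_apply, map_div₀, map_one, map_ofNat]
      rw [this]
      exact h2
    refine ⟨hufin, ?_, ?_⟩
    · exact abs_le_of_sq_le_sq (by nlinarith) (by norm_num)
    · exact Real.abs_le_sqrt (by nlinarith)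
  obtain ⟨hτV, -, hτn⟩ := root_bound p τ P hPm (1 / 2) (by norm_num)
    (fun i hi => ⟨(hfin i hi).1, (hfin i hi).2.1⟩) hτ0
  obtain ⟨-, hτn2, -⟩ := root_bound p τ P hPm (Real.sqrt (stdPart e)) (Real.sqrt_nonneg _)
    (fun i hi => ⟨(hfin i hi).1, (hfin i hi).2.2⟩) hτ0
  rw [hPd] at hτn2
  have hωV : algebraMap k (Om k) (1 - e) ∈ p.V := p.mem_of_fin _ hwfin
  have hωl : p.lam (algebraMap k (Om k) (1 - e)) = (stdPart (1 - e) : ℂ) := p.lam_fin _ hwfin
  have hb : aeval z (C (1 - e) * a) = algebraMap k (Om k) (1 - e) * aeval z a := by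
    rw [map_mul, aeval_C]
  set b := aeval z (C (1 - e) * a) with hbdef
  have hb2 : b ^ 2 = algebraMap k (Om k) (1 - e) * τ - algebraMap k (Om k) (1 - e) ^ 2 := by
    rw [hb, hτ]; ring
  have hb2V : b ^ 2 ∈ p.V := by
    rw [hb2]
    exact p.V.sub_mem (p.V.mul_mem hωV hτV) (p.V.pow_mem hωV 2)
  have hbV : b ∈ p.V := mem_of_pow p (by norm_num) hb2V
  have hlb : p.lam b ^ 2 = (stdPart (1 - e) : ℂ) * p.lam τ - (stdPart (1 - e) : ℂ) ^ 2 := by
    rw [← lam_pow p hbV, hb2, lam_sub p (p.V.mul_mem hωV hτV) (p.V.pow_mem hωV 2),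
      p.lam_mul _ hωV _ hτV, lam_pow p hωV, hωl]
  have hsw1 : stdPart (1 - e) ≤ 1 := by rw [hsw]; linarith
  refine ⟨hbV, ?_, ?_⟩
  · have h1 : ‖p.lam b‖ ^ 2 ≤ 1 * (1 + 1 / 2) + 1 := by
      rw [← norm_pow, hlb]
      refine (norm_sub_le _ _).trans (add_le_add ?_ ?_)
      · rw [norm_mul, Complex.norm_real, Real.norm_eq_abs, abs_of_nonneg hsw0]
        exact mul_le_mul hsw1 hτn (norm_nonneg _) (by norm_num)
      · rw [norm_pow, Complex.norm_real, Real.norm_eq_abs, abs_of_nonneg hsw0]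
        exact pow_le_one₀ hsw0 hsw1
    nlinarith [norm_nonneg (p.lam b)]
  · intro hsm
    have hsq : Real.sqrt (stdPart e) ≤ c := by
      rw [Real.sqrt_le_left hc0.le]
      linarith
    have hsum : ∑ i ∈ Finset.range D, ‖p.lam τ‖ ^ i ≤ B := by
      have h1 : ∀ i ∈ Finset.range D, ‖p.lam τ‖ ^ i ≤ (3 / 2 : ℝ) ^ D := by
        intro i hi
        have h2 : ‖p.lam τ‖ ≤ 3 / 2 := by linarith
        exact (pow_le_pow_left₀ (norm_nonneg _) h2 i).trans
          (pow_le_pow_right₀ (by norm_num) (Finset.mem_range.1 hi).le)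
      calc ∑ i ∈ Finset.range D, ‖p.lam τ‖ ^ i ≤ ∑ i ∈ Finset.range D, (3 / 2 : ℝ) ^ D :=
            Finset.sum_le_sum h1
        _ = B := by rw [Finset.sum_const, Finset.card_range, nsmul_eq_mul]
    have hτs : ‖p.lam τ‖ ≤ η / 2 := by
      by_contra hlt
      rw [not_le] at hlt
      have h1 : (η / 2) ^ D < ‖p.lam τ‖ ^ D := pow_lt_pow_left₀ hlt (by positivity) (by omega)
      have h2 : ‖p.lam τ‖ ^ D ≤ c * B := by
        refine hτn2.trans (mul_le_mul hsq hsum ?_ hc0.le)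
        exact Finset.sum_nonneg fun i _ => by positivity
      linarith
    have h3 : p.lam b ^ 2 + 1 = (stdPart (1 - e) : ℂ) * p.lam τ +
        ((1 - stdPart (1 - e) ^ 2 : ℝ) : ℂ) := by
      rw [hlb]; push_cast; ring
    rw [h3]
    refine (norm_add_le _ _).trans ?_
    have h4 : ‖(stdPart (1 - e) : ℂ) * p.lam τ‖ ≤ η / 2 := by
      rw [norm_mul, Complex.norm_real, Real.norm_eq_abs, abs_of_nonneg hsw0]
      nlinarith [norm_nonneg (p.lam τ)]
    have h5 : ‖((1 - stdPart (1 - e) ^ 2 : ℝ) : ℂ)‖ ≤ η / 2 := by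
      rw [Complex.norm_real, Real.norm_eq_abs, abs_le]
      rw [hsw] at hsw0 hsw1 ⊢
      constructor <;> nlinarith
    linarith

end Pool.Agent.PFS
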