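import Mathlib

/-!
# PFS, row NU5a: choice of the levels `t` and of `κ`
-/

set_option autoImplicit false

namespace Pool.Agent.PFS

namespace NU5aaux

open MvPolynomial

/-- a nonzero real polynomial does not vanish at some point of an open box -/
theorem exists_point {M : ℕ} (R : MvPolynomial (Fin M) ℝ) (hR : R ≠ 0) (a b : ℝ) (hab : a < b) :
    ∃ t : Fin M → ℝ, (∀ j, t j ∈ Set.Ioo a b) ∧ eval t R ≠ 0 := by
  by_contra hcon
  push Not at hcon
  apply hR
  refine funext_set (fun _ : Fin M => Set.Ioo a b) (fun _ => Set.Ioo_infinite hab) fun x hx => ?_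
  rw [map_zero]
  exact hcon x fun j => hx j (Set.mem_univ j)

/-- a polynomial does not vanish near a point where it does not vanish -/
theorem near {n : ℕ} (q : MvPolynomial (Fin n) ℝ) (y : Fin n → ℝ) (hy : eval y q ≠ 0) :
    ∀ᶠ κ in nhdsWithin (0 : ℝ) (Set.Ioi 0), ∀ x : Fin n → ℝ, (∀ i, |x i - y i| ≤ κ) →
      eval x q ≠ 0 := by
  have hc : Continuous fun x : Fin n → ℝ => eval x q := MvPolynomial.continuous_eval q
  have h1 : ∀ᶠ x in nhds y, eval x q ≠ 0 := hc.continuousAt.eventually_ne hy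
  obtain ⟨δ, hδ, hball⟩ := Metric.eventually_nhds_iff.1 h1
  filter_upwards [Ioo_mem_nhdsGT hδ] with κ hκ x hx
  refine hball ((dist_pi_lt_iff hδ).2 fun i => ?_)
  rw [Real.dist_eq]
  exact (hx i).trans_lt hκ.2

end NU5aaux

open NU5aaux in
/-- NU5a: choice of the levels `t` and of `κ` -/
theorem NU5a (n M : ℕ) (ε : ℝ) (hε : 0 < ε)
    (Q : (Fin (n + 1) → Fin M) → MvPolynomial (Fin (n + 1)) ℝ) (hQ : ∀ J, Q J ≠ 0) :
    ∃ (t : Fin M → ℝ) (κ : ℝ), 0 < κ ∧ (∀ j, ε < t j ∧ t j + κ < 2 * ε) ∧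
      ∀ J : Fin (n + 1) → Fin M, Function.Injective J → ∀ x : Fin M → ℝ,
        (∀ i, |x (J i) - t (J i)| ≤ κ) → MvPolynomial.eval (x ∘ J) (Q J) ≠ 0 := by
  classical
  obtain ⟨t, ht, htR⟩ := exists_point
    (∏ J ∈ Finset.univ.filter (fun J : Fin (n + 1) → Fin M => Function.Injective J),
      MvPolynomial.rename J (Q J)) (by
        refine Finset.prod_ne_zero_iff.2 fun J hJ h => hQ J ?_
        exact MvPolynomial.rename_injective J (Finset.mem_filter.1 hJ).2
          (h.trans (map_zero _).symm)) ε (2 * ε) (by linarith)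
  have htJ : ∀ J : Fin (n + 1) → Fin M, Function.Injective J →
      MvPolynomial.eval (t ∘ J) (Q J) ≠ 0 := by
    intro J hJ h
    apply htR
    rw [map_prod]
    refine Finset.prod_eq_zero (Finset.mem_filter.2 ⟨Finset.mem_univ J, hJ⟩) ?_
    rw [MvPolynomial.eval_rename]
    exact h
  have h1 : ∀ᶠ κ in nhdsWithin (0 : ℝ) (Set.Ioi 0), ∀ J : Fin (n + 1) → Fin M,
      Function.Injective J → ∀ x : Fin (n + 1) → ℝ, (∀ i, |x i - t (J i)| ≤ κ) →
      MvPolynomial.eval x (Q J) ≠ 0 := by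
    rw [Filter.eventually_all]
    intro J
    by_cases hJ : Function.Injective J
    · filter_upwards [near (Q J) (t ∘ J) (htJ J hJ)] with κ hκ _ x hx
      exact hκ x hx
    · exact Filter.Eventually.of_forall fun κ h => absurd h hJ
  have h2 : ∀ᶠ κ in nhdsWithin (0 : ℝ) (Set.Ioi 0), ∀ j, t j + κ < 2 * ε := by
    rw [Filter.eventually_all]
    intro j
    have : 0 < 2 * ε - t j := by linarith [(ht j).2]
    filter_upwards [Ioo_mem_nhdsGT this] with κ hκ
    linarith [hκ.2]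
  obtain ⟨κ, ⟨hκ1, hκ2⟩, hκ0⟩ := ((h1.and h2).and self_mem_nhdsWithin).exists
  exact ⟨t, κ, hκ0, fun j => ⟨(ht j).1, hκ2 j⟩, fun J hJ x hx => hκ1 J hJ (x ∘ J) hx⟩

end Pool.Agent.PFS
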