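import Pool.Agent.PFS.Defs

/-!
# Colouring: the weights `g_j` and the functions `θ_S`
-/

set_option autoImplicit false

namespace Pool.Agent.PFS

open Polynomial Pool.Agent.PDF

namespace NU5baux

open Finset

variable {M : ℕ}

/-- positive exactly when `S` is an upper level set of `g` at a positive level -/
noncomputable def th (S : Finset (Fin M)) (g : Fin M → ℝ) : ℝ :=
  (∏ j ∈ S, max 0 (g j)) * ∏ j ∈ S, ∏ i ∈ Sᶜ, max 0 (g j - g i)

theorem th_cont (S : Finset (Fin M)) : Continuous (th S) := by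
  unfold th
  refine Continuous.mul ?_ ?_
  · exact continuous_finsetProd _ fun j _ => by fun_prop
  · exact continuous_finsetProd _ fun j _ => continuous_finsetProd _ fun i _ => by fun_prop

theorem max_ne {a : ℝ} : max 0 a ≠ 0 ↔ 0 < a := by
  constructor
  · intro h
    by_contra h1
    exact h (max_eq_left (not_lt.1 h1))
  · intro h
    rw [max_eq_right h.le]
    exact h.ne'

theorem th_ne {S : Finset (Fin M)} {g : Fin M → ℝ} :
    th S g ≠ 0 ↔ (∀ j ∈ S, 0 < g j) ∧ ∀ j ∈ S, ∀ i ∉ S, g i < g j := by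
  unfold th
  rw [mul_ne_zero_iff, Finset.prod_ne_zero_iff, Finset.prod_ne_zero_iff]
  refine and_congr (forall₂_congr fun j _ => max_ne) (forall₂_congr fun j _ => ?_)
  rw [Finset.prod_ne_zero_iff]
  simp only [Finset.mem_compl]
  exact forall₂_congr fun i _ => by rw [max_ne, sub_pos]

theorem th_inj {S S' : Finset (Fin M)} {g : Fin M → ℝ} (h : th S g ≠ 0) (h' : th S' g ≠ 0)
    (hc : S.card = S'.card) : S = S' := by
  rw [th_ne] at h h'
  by_contra hne
  have h1 : ∃ j ∈ S, j ∉ S' := by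
    by_contra hcon
    push Not at hcon
    exact hne (Finset.eq_of_subset_of_card_le hcon hc.ge)
  have h2 : ∃ j ∈ S', j ∉ S := by
    by_contra hcon
    push Not at hcon
    exact hne (Finset.eq_of_subset_of_card_le hcon hc.le).symm
  obtain ⟨j, hj, hj'⟩ := h1
  obtain ⟨i, hi, hi'⟩ := h2
  exact lt_asymm (h.2 j hj i hi') (h'.2 i hi j hj')

theorem th_exists {g : Fin M → ℝ} (h : ∃ j, 0 < g j) :
    ∃ S : Finset (Fin M), S.Nonempty ∧ th S g ≠ 0 := by
  classical
  obtain ⟨j, hj⟩ := h
  obtain ⟨m, -, hm⟩ := Finset.exists_max_image (Finset.univ : Finset (Fin M)) g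
    ⟨j, Finset.mem_univ _⟩
  refine ⟨Finset.univ.filter (fun i => g i = g m), ⟨m, by simp⟩, ?_⟩
  rw [th_ne]
  constructor
  · intro i hi
    rw [(Finset.mem_filter.1 hi).2]
    exact hj.trans_le (hm j (Finset.mem_univ _))
  · intro i hi l hl
    rw [(Finset.mem_filter.1 hi).2]
    refine lt_of_le_of_ne (hm l (Finset.mem_univ _)) ?_
    intro h1
    exact hl (Finset.mem_filter.2 ⟨Finset.mem_univ _, h1⟩)

/-- the weights -/
noncomputable def gg (t : Fin M → ℝ) (κ : ℝ) (x : Fin M → ℝ) (j : Fin M) : ℝ :=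
  max 0 (t j + κ - x j) * ∏ i ∈ Finset.Iio j, max 0 (x i - t i + κ)

theorem gg_cont (t : Fin M → ℝ) (κ : ℝ) : Continuous (gg t κ) := by
  refine continuous_pi fun j => ?_
  unfold gg
  refine Continuous.mul (by fun_prop) ?_
  exact continuous_finsetProd _ fun i _ => by fun_prop

theorem gg_nonneg (t : Fin M → ℝ) (κ : ℝ) (x : Fin M → ℝ) (j : Fin M) : 0 ≤ gg t κ x j :=
  mul_nonneg (le_max_left _ _) (Finset.prod_nonneg fun _ _ => le_max_left _ _)

theorem gg_pos {t : Fin M → ℝ} {κ : ℝ} {x : Fin M → ℝ} {j : Fin M} :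
    0 < gg t κ x j ↔ x j < t j + κ ∧ ∀ i < j, t i - κ < x i := by
  rw [(gg_nonneg t κ x j).lt_iff_ne', gg, mul_ne_zero_iff, max_ne, Finset.prod_ne_zero_iff]
  refine and_congr (by rw [sub_pos]) ?_
  simp only [Finset.mem_Iio]
  exact forall₂_congr fun i _ => by
    rw [max_ne]
    constructor <;> intro h <;> linarith

/-- there is a positive weight -/
theorem gg_exists {t : Fin M → ℝ} {κ : ℝ} (hκ : 0 < κ) {x : Fin M → ℝ}
    (h : ∃ j, x j < t j + κ) : ∃ j, 0 < gg t κ x j := by
  classical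
  obtain ⟨j, hj⟩ := h
  obtain ⟨m, hm, hmin⟩ := Finset.exists_min_image
    (Finset.univ.filter (fun j => x j < t j + κ)) id ⟨j, by simpa using hj⟩
  refine ⟨m, gg_pos.2 ⟨(Finset.mem_filter.1 hm).2, ?_⟩⟩
  intro i hi
  by_contra hcon
  have h1 : x i < t i + κ := by linarith
  have h2 := hmin i (Finset.mem_filter.2 ⟨Finset.mem_univ _, h1⟩)
  exact absurd hi (not_lt.2 h2)

/-- at most `n + 1` positive weights -/
theorem gg_card (n : ℕ) {t : Fin M → ℝ} {κ : ℝ} {x : Fin M → ℝ}
    (h2 : ∀ J : Fin (n + 1) → Fin M, Function.Injective J → ∃ i, κ < |x (J i) - t (J i)|)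
    (S : Finset (Fin M)) (hS : ∀ j ∈ S, 0 < gg t κ x j) : S.card ≤ n + 1 := by
  classical
  set A : Finset (Fin M) := Finset.univ.filter (fun j => |x j - t j| ≤ κ) with hA
  have hAc : A.card ≤ n := by
    by_contra hcon
    push Not at hcon
    obtain ⟨B, hB, hBc⟩ := Finset.exists_subset_card_eq (show n + 1 ≤ A.card from hcon)
    obtain ⟨i, hi⟩ := h2 (B.orderEmbOfFin hBc) (B.orderEmbOfFin hBc).injective
    have h3 : B.orderEmbOfFin hBc i ∈ A := hB (B.orderEmbOfFin_mem hBc i)
    exact absurd hi (not_lt.2 (Finset.mem_filter.1 h3).2)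
  have h3 : (S \ A).card ≤ 1 := by
    rw [Finset.card_le_one]
    have key : ∀ a ∈ S \ A, ∀ b ∈ S \ A, ¬ a < b := by
      intro a ha b hb hab
      rw [Finset.mem_sdiff] at ha hb
      have h4 := gg_pos.1 (hS a ha.1)
      have h5 := gg_pos.1 (hS b hb.1)
      apply ha.2
      refine Finset.mem_filter.2 ⟨Finset.mem_univ _, ?_⟩
      rw [abs_le]
      have := h5.2 a hab
      constructor <;> linarith [h4.1]
    intro a ha b hb
    rcases lt_trichotomy a b with h | h | h
    · exact absurd h (key a ha b hb)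
    · exact h
    · exact absurd h (key b hb a ha)
  calc S.card ≤ (S \ A).card + A.card := by
        exact Finset.card_le_card_sdiff_add_card
    _ ≤ n + 1 := by omega

end NU5baux

open NU5baux in
/-- NU5b: the weights `g_j = max 0 (t_j + κ - x_j) * ∏_{i<j} max 0 (x_i - t_i + κ)`, the functions
`θ_S = max 0 (min_S g - max_{S^c} g)` and their normalisation on a compact set -/
theorem NU5b (n M : ℕ) (ε κ : ℝ) (t : Fin M → ℝ) (hκ : 0 < κ)
    (ht : ∀ j, ε < t j ∧ t j + κ < 2 * ε) (K : Set (Fin M → ℝ)) (hK : IsCompact K)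
    (h1 : ∀ x ∈ K, ∃ j, x j ≤ ε)
    (h2 : ∀ x ∈ K, ∀ J : Fin (n + 1) → Fin M, Function.Injective J →
      ∃ i, κ < |x (J i) - t (J i)|) :
    ∃ φ : Fin (n + 1) → Fin M → C(K, ℝ), ∀ x : K, ∃ (J : Fin (n + 1) → Fin M)
      (w : Fin (n + 1) → ℝ), ∑ c, w c ^ 2 = 1 ∧ (∀ c, w c ≠ 0 → x.1 (J c) < 2 * ε) ∧
      ∀ c j, φ c j x = if j = J c then w c else 0 := by
  classical
  -- the element of a nonempty set
  have hpick : ∃ pk : Finset (Fin M) → Option (Fin M), ∀ S : Finset (Fin M), S.Nonempty →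
      ∃ j ∈ S, pk S = some j := by
    refine ⟨fun S => if h : S.Nonempty then some h.choose else none, fun S h => ?_⟩
    exact ⟨h.choose, h.choose_spec, by simp [h]⟩
  obtain ⟨pk, hpk⟩ := hpick
  -- the raw functions
  let ψ : Fin (n + 1) → Fin M → (Fin M → ℝ) → ℝ := fun c j x =>
    ∑ S ∈ Finset.univ.powersetCard (c.val + 1), if pk S = some j then th S (gg t κ x) else 0
  have hψc : ∀ c j, Continuous (ψ c j) := by
    intro c j
    refine continuous_finsetSum _ fun S _ => ?_
    split_ifs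
    · exact (th_cont S).comp (gg_cont t κ)
    · exact continuous_const
  let N : (Fin M → ℝ) → ℝ := fun x => ∑ c, ∑ j, ψ c j x ^ 2
  have hNc : Continuous N :=
    continuous_finsetSum _ fun c _ => continuous_finsetSum _ fun j _ => (hψc c j).pow 2
  -- the structure at a point
  have key : ∀ x ∈ K, ∃ (J : Fin (n + 1) → Fin M) (w : Fin (n + 1) → ℝ),
      (∀ c, w c ≠ 0 → x (J c) < 2 * ε) ∧ (∀ c j, ψ c j x = if j = J c then w c else 0) ∧
      ∃ c, w c ≠ 0 := by
    intro x hx
    obtain ⟨j₀, hj₀⟩ := h1 x hx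
    have hcol : ∀ c : Fin (n + 1), ∃ (j' : Fin M) (w : ℝ), (w ≠ 0 → x j' < 2 * ε) ∧
        (∀ j, ψ c j x = if j = j' then w else 0) ∧
        (∀ S : Finset (Fin M), S.card = c.val + 1 → th S (gg t κ x) ≠ 0 → w ≠ 0) := by
      intro c
      by_cases hc : ∃ S : Finset (Fin M), S.card = c.val + 1 ∧ th S (gg t κ x) ≠ 0
      · obtain ⟨S, hSc, hS⟩ := hc
        have hSne : S.Nonempty := Finset.card_pos.1 (by omega)
        obtain ⟨j', hj', hpkS⟩ := hpk S hSne
        refine ⟨j', th S (gg t κ x), ?_, ?_, fun _ _ _ => hS⟩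
        · intro _
          have h3 := (gg_pos.1 ((th_ne.1 hS).1 j' hj')).1
          exact h3.trans (ht j').2
        · intro j
          show ∑ S' ∈ Finset.univ.powersetCard (c.val + 1),
            (if pk S' = some j then th S' (gg t κ x) else 0) = _
          rw [Finset.sum_eq_single S]
          · rw [hpkS]
            by_cases h : j = j'
            · rw [if_pos h, if_pos (by rw [h])]
            · rw [if_neg h, if_neg (fun h' => h (Option.some.inj h').symm)]
          · intro S' hS' hne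
            have h3 := (Finset.mem_powersetCard.1 hS').2
            by_cases h4 : th S' (gg t κ x) = 0
            · rw [h4]; simp
            · exact absurd (th_inj h4 hS (by rw [h3, hSc])) hne
          · intro hS'
            exact absurd (Finset.mem_powersetCard.2 ⟨Finset.subset_univ _, hSc⟩) hS'
      · push Not at hc
        refine ⟨j₀, 0, fun h => absurd rfl h, ?_, fun S h3 h4 => absurd (hc S h3) h4⟩
        intro j
        show ∑ S' ∈ Finset.univ.powersetCard (c.val + 1),
          (if pk S' = some j then th S' (gg t κ x) else 0) = _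
        rw [ite_self]
        refine Finset.sum_eq_zero fun S' hS' => ?_
        rw [hc S' (Finset.mem_powersetCard.1 hS').2, ite_self]
    choose J w hw1 hw2 hw3 using hcol
    refine ⟨J, w, hw1, hw2, ?_⟩
    obtain ⟨S, hSne, hS⟩ := th_exists (gg_exists hκ
      ⟨j₀, show x j₀ < t j₀ + κ by linarith [(ht j₀).1]⟩)
    have h3 : S.card ≤ n + 1 := gg_card n (h2 x hx) S (th_ne.1 hS).1
    have h4 := Finset.card_pos.2 hSne
    refine ⟨⟨S.card - 1, by omega⟩, hw3 _ S ?_ hS⟩
    show S.card = S.card - 1 + 1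
    omega
  have hNval : ∀ x ∈ K, ∀ (J : Fin (n + 1) → Fin M) (w : Fin (n + 1) → ℝ),
      (∀ c j, ψ c j x = if j = J c then w c else 0) → N x = ∑ c, w c ^ 2 := by
    intro x _ J w h
    show ∑ c, ∑ j, ψ c j x ^ 2 = _
    refine Finset.sum_congr rfl fun c _ => ?_
    rw [Finset.sum_eq_single (J c)]
    · rw [h, if_pos rfl]
    · intro j _ hj
      rw [h, if_neg hj]
      ring
    · intro h'
      exact absurd (Finset.mem_univ _) h'
  have hNpos : ∀ x ∈ K, 0 < N x := by
    intro x hx
    obtain ⟨J, w, -, h4, c, hc⟩ := key x hx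
    rw [hNval x hx J w h4]
    exact Finset.sum_pos' (fun _ _ => sq_nonneg _) ⟨c, Finset.mem_univ _, by positivity⟩
  refine ⟨fun c j => ⟨fun x : K => ψ c j x / Real.sqrt (N x), ?_⟩, ?_⟩
  · refine Continuous.div ((hψc c j).comp continuous_subtype_val)
      ((hNc.comp continuous_subtype_val).sqrt) ?_
    intro x
    exact (Real.sqrt_pos.2 (hNpos x.1 x.2)).ne'
  · intro x
    obtain ⟨J, w, h3, h4, -⟩ := key x.1 x.2
    have h5 := hNval x.1 x.2 J w h4
    have h6 := hNpos x.1 x.2
    refine ⟨J, fun c => w c / Real.sqrt (N x.1), ?_, ?_, ?_⟩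
    · simp only [div_pow, Real.sq_sqrt h6.le]
      rw [← Finset.sum_div, ← h5]
      exact div_self h6.ne'
    · intro c hc
      apply h3
      rintro h
      apply hc
      show w c / Real.sqrt (N x.1) = 0
      rw [h, zero_div]
    · intro c j
      show ψ c j x.1 / Real.sqrt (N x.1) = _
      rw [h4]
      split_ifs
      · rfl
      · rw [zero_div]

end Pool.Agent.PFS
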