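import Pool.Agent.PFS.NU5of
import Pool.Agent.PFS.NU5a
import Pool.Agent.PFS.NU5b

/-! Row NU5 (MP_b906c2_al) -/

set_option autoImplicit false

namespace Pool.Agent.PFS

/-- polynomials with the colouring property -/
theorem NU5 (n M : ℕ) (ε η : ℝ) (hε : 0 < ε) (hη : 0 < η)
    (Q : (Fin (n + 1) → Fin M) → MvPolynomial (Fin (n + 1)) ℝ) (hQ : ∀ J, Q J ≠ 0) :
    ∃ P : Fin (n + 1) → Fin M → MvPolynomial (Fin M) ℝ, ∀ x : Fin M → ℝ,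
      (∀ j, 0 ≤ x j ∧ x j ≤ 1) → (∃ j, x j ≤ ε) →
      (∀ J : Fin (n + 1) → Fin M, MvPolynomial.eval (x ∘ J) (Q J) = 0) →
      ∃ (J : Fin (n + 1) → Fin M) (w : Fin (n + 1) → ℝ), ∑ c, w c ^ 2 = 1 ∧
        (∀ c, w c ≠ 0 → x (J c) < 2 * ε) ∧
        ∀ c j, |MvPolynomial.eval x (P c j) - if j = J c then w c else 0| ≤ η :=
  NU5of (fun n M ε hε Q hQ => NU5a n M ε hε Q hQ)
    (fun n M ε κ t hκ ht K hK h1 h2 => NU5b n M ε κ t hκ ht K hK h1 h2) n M ε η hε hη Q hQ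

end Pool.Agent.PFS
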