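import Pool.Agent.PFS.NU2
import Pool.Agent.PFS.NU3
import Pool.Agent.PFS.NU4
import Pool.Agent.PFS.NU5

/-!
# Row NUA: the key lemma from NU2, NU3, NU4, NU5 (MP_b906c2_al)
-/

set_option autoImplicit false

namespace Pool.Agent.PFS

open Polynomial Pool.Agent.PDF

namespace NUaux

/-- the estimate -/
theorem est (n M : ℕ) (η d : ℝ) (hd0 : 0 ≤ d) (hd1 : d ≤ 1) (hd2 : 10 * (n + 1) * d ≤ η)
    (β : Fin M → ℂ) (hβ : ∀ j, ‖β j‖ ≤ 2) (c : Fin (n + 1) → Fin M → ℝ) (J : Fin (n + 1) → Fin M)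
    (w : Fin (n + 1) → ℝ) (hw : ∑ i, w i ^ 2 = 1)
    (hc : ∀ i j, 2 * (M * |c i j - if j = J i then w i else 0|) ≤ d)
    (h1 : ∀ i, w i ≠ 0 → ‖β (J i) ^ 2 + 1‖ ≤ η / 2) :
    ‖∑ i, (∑ j, (c i j : ℂ) * β j) ^ 2 + 1‖ ≤ η := by
  have hw1 : ∀ i, |w i| ≤ 1 := by
    intro i
    rw [← sq_le_one_iff_abs_le_one, ← hw]
    exact Finset.single_le_sum (f := fun i => w i ^ 2) (fun i _ => sq_nonneg _)
      (Finset.mem_univ i)
  have h2 : ∀ i, ‖(∑ j, (c i j : ℂ) * β j) - w i * β (J i)‖ ≤ d := by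
    intro i
    have h3 : (∑ j, (c i j : ℂ) * β j) - w i * β (J i) =
        ∑ j, ((c i j - if j = J i then w i else 0 : ℝ) : ℂ) * β j := by
      have h4 : (w i : ℂ) * β (J i) = ∑ j, ((if j = J i then w i else 0 : ℝ) : ℂ) * β j := by
        rw [Finset.sum_eq_single (J i)]
        · simp
        · intro j _ hj
          simp [hj]
        · simp
      rw [h4, ← Finset.sum_sub_distrib]
      refine Finset.sum_congr rfl fun j _ => ?_
      push_cast
      ring
    rw [h3]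
    rcases Nat.eq_zero_or_pos M with hM | hM
    · subst hM
      simpa using hd0
    refine (norm_sum_le _ _).trans ?_
    have h5 : ∀ j ∈ (Finset.univ : Finset (Fin M)),
        ‖((c i j - if j = J i then w i else 0 : ℝ) : ℂ) * β j‖ ≤ d / M := by
      intro j _
      rw [norm_mul, Complex.norm_real, Real.norm_eq_abs]
      have h6 := hc i j
      have h7 := hβ j
      have hM' : (0 : ℝ) < M := by exact_mod_cast hM
      rw [le_div_iff₀ hM']
      calc |c i j - if j = J i then w i else 0| * ‖β j‖ * M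
          ≤ |c i j - if j = J i then w i else 0| * 2 * M := by gcongr
        _ = 2 * (M * |c i j - if j = J i then w i else 0|) := by ring
        _ ≤ d := h6
    refine (Finset.sum_le_sum h5).trans ?_
    rw [Finset.sum_const, Finset.card_univ, Fintype.card_fin, nsmul_eq_mul]
    have hM' : (M : ℝ) ≠ 0 := by exact_mod_cast hM.ne'
    exact le_of_eq (mul_div_cancel₀ _ hM')
  have h3 : ∑ i, (∑ j, (c i j : ℂ) * β j) ^ 2 + 1 =
      ∑ i, ((∑ j, (c i j : ℂ) * β j) ^ 2 - (w i * β (J i)) ^ 2) +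
      ∑ i, (w i : ℂ) ^ 2 * (β (J i) ^ 2 + 1) := by
    have h4 : ∑ i, (w i : ℂ) ^ 2 = 1 := by exact_mod_cast congrArg (fun x : ℝ => (x : ℂ)) hw
    rw [← Finset.sum_add_distrib]
    have h5 : ∀ i, (∑ j, (c i j : ℂ) * β j) ^ 2 - (w i * β (J i)) ^ 2 +
        (w i : ℂ) ^ 2 * (β (J i) ^ 2 + 1) = (∑ j, (c i j : ℂ) * β j) ^ 2 + (w i : ℂ) ^ 2 := by
      intro i; ring
    simp_rw [h5]
    rw [Finset.sum_add_distrib, h4]
  rw [h3]
  have h4 : ‖∑ i, ((∑ j, (c i j : ℂ) * β j) ^ 2 - (w i * β (J i)) ^ 2)‖ ≤ (n + 1) * (5 * d) := by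
    refine (norm_sum_le _ _).trans ?_
    have h5 : ∀ i ∈ (Finset.univ : Finset (Fin (n + 1))),
        ‖(∑ j, (c i j : ℂ) * β j) ^ 2 - (w i * β (J i)) ^ 2‖ ≤ 5 * d := by
      intro i _
      set A := ∑ j, (c i j : ℂ) * β j with hA
      set Bc := (w i : ℂ) * β (J i) with hB
      have h6 : A ^ 2 - Bc ^ 2 = (A - Bc) * (A - Bc + 2 * Bc) := by ring
      have h7 : ‖Bc‖ ≤ 2 := by
        rw [hB, norm_mul, Complex.norm_real, Real.norm_eq_abs]
        calc |w i| * ‖β (J i)‖ ≤ 1 * 2 := by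
              gcongr
              · exact hw1 i
              · exact hβ _
          _ = 2 := by norm_num
      rw [h6, norm_mul]
      have h8 : ‖A - Bc + 2 * Bc‖ ≤ 5 := by
        refine (norm_add_le _ _).trans ?_
        rw [norm_mul, Complex.norm_ofNat]
        have := h2 i
        linarith
      calc ‖A - Bc‖ * ‖A - Bc + 2 * Bc‖ ≤ d * 5 := by
            gcongr
            exact h2 i
        _ = 5 * d := by ring
    refine (Finset.sum_le_sum h5).trans ?_
    rw [Finset.sum_const, Finset.card_univ, Fintype.card_fin, nsmul_eq_mul]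
    push_cast
    exact le_rfl
  have h5 : ‖∑ i, (w i : ℂ) ^ 2 * (β (J i) ^ 2 + 1)‖ ≤ η / 2 := by
    refine (norm_sum_le _ _).trans ?_
    have h6 : ∀ i ∈ (Finset.univ : Finset (Fin (n + 1))),
        ‖(w i : ℂ) ^ 2 * (β (J i) ^ 2 + 1)‖ ≤ w i ^ 2 * (η / 2) := by
      intro i _
      rw [norm_mul, norm_pow, Complex.norm_real, Real.norm_eq_abs, sq_abs]
      by_cases hwi : w i = 0
      · rw [hwi]; simp
      · exact mul_le_mul_of_nonneg_left (h1 i hwi) (sq_nonneg _)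
    refine (Finset.sum_le_sum h6).trans ?_
    rw [← Finset.sum_mul, hw, one_mul]
  refine (norm_add_le _ _).trans ?_
  linarith

end NUaux

open NUaux in
/-- the key lemma -/
theorem NU {k : Type} [Field k] [CharZero k] [Algebra ℝ k] (n : ℕ) (hn : TrD n k)
    (F : k[X]) {q : ℕ} (B : Fin q → k[X]) (hF : Dat F B) (η : ℝ) (hη : 0 < η) :
    ∃ a : Fin (n + 1) → k[X], ∀ [LinearOrder k] [IsStrictOrderedRing k] (p : Pl k (Om k)),
      ∀ z ∈ Zs F, (∀ c, aeval z (a c) ∈ p.V) ∧ ‖p.lam (∑ c, aeval z (a c) ^ 2) + 1‖ ≤ η := by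
  classical
  obtain ⟨ε, hε, hε1, h4⟩ := NU4 F.natDegree (η / 2) (half_pos hη)
  obtain ⟨s, hsG, hs⟩ := NU3 (k := k)
    {g | ∃ (a : k[X]) (e : k), Wit F a e ∧ g = e - algebraMap ℝ k ε} (by
      intro _ _
      obtain ⟨a, e, h1, h2⟩ := NU2 F B hF ε hε
      exact ⟨_, ⟨a, e, h1, rfl⟩, sub_neg.2 h2⟩)
  set M := s.card with hM
  have hch : ∀ j : Fin M, ∃ (a : k[X]) (e : k), Wit F a e ∧
      ((s.equivFin.symm j : s) : k) = e - algebraMap ℝ k ε := fun j => hsG (s.equivFin.symm j).2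
  choose a e hW hg using hch
  choose Q hQ0 hQ using fun J : Fin (n + 1) → Fin M => hn (e ∘ J)
  set d : ℝ := min 1 (η / (10 * (n + 1))) with hd
  have hd0 : 0 < d := lt_min one_pos (by positivity)
  have hd1 : d ≤ 1 := min_le_left _ _
  have hd2 : 10 * (n + 1) * d ≤ η := by
    have h1 : d ≤ η / (10 * (n + 1)) := min_le_right _ _
    have h2 : (0 : ℝ) < 10 * (n + 1) := by positivity
    rw [le_div_iff₀ h2] at h1
    linarith
  set δ : ℝ := d / (2 * (M + 1)) with hδ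
  have hδ0 : 0 < δ := by positivity
  have hδ1 : ∀ y : ℝ, y ≤ δ → 2 * (M * y) ≤ d := by
    intro y hy
    have hM0 : (0 : ℝ) ≤ M := Nat.cast_nonneg M
    have h1 : 2 * ((M : ℝ) * y) ≤ 2 * (M * δ) := by gcongr
    have h2 : 2 * ((M : ℝ) * δ) ≤ d := by
      rw [hδ]
      have h3 : 2 * ((M : ℝ) * (d / (2 * (M + 1)))) = d * (M / (M + 1)) := by
        field_simp
      rw [h3]
      have h4 : (M : ℝ) / (M + 1) ≤ 1 := by
        rw [div_le_one (by positivity)]
        linarith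
      nlinarith
    linarith
  obtain ⟨P, hP⟩ := NU5 n M ε δ hε hδ0 Q hQ0
  refine ⟨fun c => ∑ j, C (MvPolynomial.aeval e (P c j)) * (C (1 - e j) * a j), ?_⟩
  intro _ _ p z hz
  have hb := fun j => h4 k p F (a j) (e j) rfl hF.deg (hW j)
  set x : Fin M → ℝ := fun j => ArchimedeanClass.stdPart (e j) with hx
  have hefin : ∀ j, 0 ≤ ArchimedeanClass.mk (e j) := fun j => (hb j).2.1
  have hx01 : ∀ j, 0 ≤ x j ∧ x j ≤ 1 := by
    intro j
    refine ⟨ArchimedeanClass.stdPart_nonneg (hb j).1.1, ?_⟩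
    refine ArchimedeanClass.stdPart_le_of_le (realHom k) (hefin j) ?_
    rw [map_one]
    exact (hb j).1.2
  have hxε : ∃ j, x j ≤ ε := by
    obtain ⟨g, hgs, hg0⟩ := hs
    refine ⟨s.equivFin ⟨g, hgs⟩, ?_⟩
    have h1 := hg (s.equivFin ⟨g, hgs⟩)
    rw [Equiv.symm_apply_apply] at h1
    refine ArchimedeanClass.stdPart_le_of_le (realHom k) (hefin _) ?_
    rw [realHom_apply]
    have h2 : g = e (s.equivFin ⟨g, hgs⟩) - algebraMap ℝ k ε := h1
    rw [h2] at hg0
    exact (sub_neg.1 hg0).le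
  have hxQ : ∀ J : Fin (n + 1) → Fin M, MvPolynomial.eval (x ∘ J) (Q J) = 0 := by
    intro J
    have h1 := (fin_aeval (e ∘ J) (fun i => hefin (J i)) (Q J)).2
    rw [hQ J, ArchimedeanClass.stdPart_zero] at h1
    exact h1.symm
  obtain ⟨J, w, hw1, hw2, hw3⟩ := hP x hx01 hxε hxQ
  -- values
  have hval : ∀ c, aeval z (∑ j, C (MvPolynomial.aeval e (P c j)) * (C (1 - e j) * a j)) =
      ∑ j, algebraMap k (Om k) (MvPolynomial.aeval e (P c j)) *
        aeval z (C (1 - e j) * a j) := by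
    intro c
    rw [map_sum]
    refine Finset.sum_congr rfl fun j _ => ?_
    rw [map_mul (aeval z) (C (MvPolynomial.aeval e (P c j))), aeval_C]
  have hcf : ∀ c j, 0 ≤ ArchimedeanClass.mk (MvPolynomial.aeval e (P c j)) ∧
      ArchimedeanClass.stdPart (MvPolynomial.aeval e (P c j)) = MvPolynomial.eval x (P c j) :=
    fun c j => fin_aeval e hefin (P c j)
  have hmem : ∀ c j, algebraMap k (Om k) (MvPolynomial.aeval e (P c j)) *
        aeval z (C (1 - e j) * a j) ∈ p.V := fun c j =>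
    p.V.mul_mem (p.mem_of_fin _ (hcf c j).1) ((hb j).2.2 z hz).1
  have hV : ∀ c, aeval z (∑ j, C (MvPolynomial.aeval e (P c j)) * (C (1 - e j) * a j)) ∈ p.V := by
    intro c
    rw [hval c]
    exact sum_mem fun j _ => hmem c j
  refine ⟨hV, ?_⟩
  rw [lam_sum p _ _ fun c _ => p.V.pow_mem (hV c) 2]
  have hlam : ∀ c, p.lam (aeval z (∑ j, C (MvPolynomial.aeval e (P c j)) *
      (C (1 - e j) * a j)) ^ 2) =
      (∑ j, ((MvPolynomial.eval x (P c j) : ℝ) : ℂ) *
        p.lam (aeval z (C (1 - e j) * a j))) ^ 2 := by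
    intro c
    rw [lam_pow p (hV c), hval c, lam_sum p _ _ fun j _ => hmem c j]
    congr 1
    refine Finset.sum_congr rfl fun j _ => ?_
    rw [p.lam_mul _ (p.mem_of_fin _ (hcf c j).1) _ ((hb j).2.2 z hz).1, p.lam_fin _ (hcf c j).1,
      (hcf c j).2]
  rw [Finset.sum_congr rfl fun c _ => hlam c]
  refine est n M η d hd0.le hd1 hd2 _ (fun j => ((hb j).2.2 z hz).2.1) _ J w hw1
    (fun i j => hδ1 _ (hw3 i j)) ?_
  intro i hi
  exact ((hb (J i)).2.2 z hz).2.2 (hw2 i hi).le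

end Pool.Agent.PFS
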