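import Pool.Agent.PDF.AS

/-!
# PFS, row ORD: a formally real field has an ordering
-/

set_option autoImplicit false

namespace Pool.Agent.PFS

open Pool.Agent.PDF Pool.Agent.PDF.ASaux

/-- a formally real field has an ordering -/
theorem exists_ordering {k : Type} [Field k] (hk : FR k) :
    ∃ (_ : LinearOrder k), IsStrictOrderedRing k := by
  obtain ⟨P, _, hmax⟩ := zorn_le_nonempty_Ici₀ (base hk)
    (fun c _ hc2 y hy => chain_bdd c hc2 y hy) (base hk) le_rfl
  have hP : ∀ x, x ∈ P ∨ -x ∈ P := by
    intro x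
    by_cases hx : x ∈ P
    · exact Or.inl hx
    · right
      exact hmax (le_adj P x hx) (neg_mem_adj P x hx)
  obtain ⟨LO, SO, _⟩ := exists_order P hP
  exact ⟨LO, SO⟩

end Pool.Agent.PFS
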