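import Pool.Agent.PFS.Defs

/-!
# Row PLV: a place of the algebraic closure which extends the standard part (MP_b906c2_al)
-/

set_option autoImplicit false

namespace Pool.Agent.PFS

open Polynomial IsLocalRing Pool.Agent.PDF Pool.Agent.PDF.PLaux

/-- existence (from the proof of PDF.PL: the ring there is a valuation ring) -/
theorem PLV {k : Type} [Field k] [LinearOrder k] [IsStrictOrderedRing k] :
    Nonempty (Pl k (Om k)) := by
  classical
  obtain ⟨B, hB, hloc⟩ := IsLocalRing.exists_factor_valuationRing
    ((algebraMap k (Om k)).comp (vl (k := k)))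
  set g : ArchimedeanClass.FiniteElement k →+* B.toSubring :=
    ((algebraMap k (Om k)).comp (vl (k := k))).codRestrict B.toSubring hB with hg
  have : IsLocalRing B.toSubring := B.isLocalRing
  have : IsLocalHom g := hloc
  have hgval : ∀ x, (g x : Om k) = algebraMap k (Om k) x.1 := fun x => rfl
  let alg1 : Algebra (ResidueField (ArchimedeanClass.FiniteElement k))
      (ResidueField B.toSubring) := (ResidueField.map g).toAlgebra
  let alg2 : Algebra (ResidueField (ArchimedeanClass.FiniteElement k)) ℂ :=
    (Complex.ofRealHom.comp (ResidueField.lift (sp (k := k)))).toAlgebra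
  have halg : Algebra.IsAlgebraic (ResidueField (ArchimedeanClass.FiniteElement k))
      (ResidueField B.toSubring) := by
    refine ⟨fun z => ?_⟩
    obtain ⟨b, rfl⟩ := residue_surjective z
    obtain ⟨p, hp, hpb⟩ := Algebra.IsAlgebraic.isAlgebraic (R := k) (b : Om k)
    obtain ⟨c, q, j, hc, hq, hqj⟩ := scale p hp
    refine ⟨q.map (residue _), ?_, ?_⟩
    · intro h
      have h1 := congrArg (fun P => P.coeff j) h
      simp only [coeff_map, hqj, map_one, coeff_zero] at h1
      exact one_ne_zero h1
    · have h1 : q.eval₂ g b = 0 := by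
        apply Subtype.ext
        have h2 : (B.toSubring.subtype) (q.eval₂ g b) = 0 := by
          rw [hom_eval₂]
          have h3 : (B.toSubring.subtype).comp g = (algebraMap k (Om k)).comp vl := rfl
          rw [h3, ← eval₂_map, hq, eval₂_mul, eval₂_C]
          rw [aeval_def] at hpb
          rw [show (B.toSubring.subtype b) = (b : Om k) from rfl, hpb, mul_zero]
        exact h2
      rw [aeval_def, eval₂_map]
      have h4 : (algebraMap (ResidueField (ArchimedeanClass.FiniteElement k))
          (ResidueField B.toSubring)).comp (residue (ArchimedeanClass.FiniteElement k))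
          = (residue B.toSubring).comp g := by
        ext x
        exact ResidueField.map_residue g x
      rw [h4, ← hom_eval₂, h1, map_zero]
  have := halg
  let Λ : ResidueField B.toSubring →ₐ[ResidueField (ArchimedeanClass.FiniteElement k)] ℂ :=
    IsAlgClosed.lift
  let Φ : B.toSubring →+* ℂ := (Λ : ResidueField B.toSubring →+* ℂ).comp (residue B.toSubring)
  have hΦ : ∀ x : ArchimedeanClass.FiniteElement k,
      Φ (g x) = (ArchimedeanClass.stdPart x.1 : ℂ) := by
    intro x
    have h1 : residue B.toSubring (g x) =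
        algebraMap (ResidueField (ArchimedeanClass.FiniteElement k)) (ResidueField B.toSubring)
          (residue _ x) := (ResidueField.map_residue g x).symm
    show Λ (residue B.toSubring (g x)) = _
    rw [h1, AlgHom.commutes]
    rfl
  have hmem : ∀ x : k, algebraMap k (Om k) x ∈ B.toSubring → 0 ≤ ArchimedeanClass.mk x := by
    intro x h
    by_contra hfin
    rw [not_le] at hfin
    have hx0 : x ≠ 0 := by
      rintro rfl
      simp at hfin
    have h1 : 0 < ArchimedeanClass.mk x⁻¹ := by
      by_contra hcon
      rw [not_lt] at hcon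
      have h2 : ArchimedeanClass.mk (x⁻¹ * x) < 0 := by
        rw [ArchimedeanClass.mk_mul]
        calc ArchimedeanClass.mk x⁻¹ + ArchimedeanClass.mk x
            ≤ 0 + ArchimedeanClass.mk x := add_le_add_left hcon _
          _ = ArchimedeanClass.mk x := zero_add _
          _ < 0 := hfin
      rw [inv_mul_cancel₀ hx0, ArchimedeanClass.mk_one] at h2
      exact lt_irrefl _ h2
    have h2 : ¬ IsUnit (⟨x⁻¹, h1.le⟩ : ArchimedeanClass.FiniteElement k) :=
      ArchimedeanClass.FiniteElement.not_isUnit_iff_mk_pos.2 h1
    apply h2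
    apply isUnit_of_map_unit g
    refine IsUnit.of_mul_eq_one ⟨algebraMap k (Om k) x, h⟩ ?_
    apply Subtype.ext
    show algebraMap k (Om k) x⁻¹ * algebraMap k (Om k) x = 1
    rw [← map_mul, inv_mul_cancel₀ hx0, map_one]
  let lam : Om k → ℂ := fun x => if h : x ∈ B.toSubring then Φ ⟨x, h⟩ else 0
  have hlam : ∀ (x : Om k) (h : x ∈ B.toSubring), lam x = Φ ⟨x, h⟩ := fun x h => dif_pos h
  refine ⟨⟨B.toSubring, lam, ?_, ?_, ?_, ?_, ?_, hmem, ?_, ?_, ?_⟩⟩
  · rw [hlam 1 B.toSubring.one_mem]
    exact map_one Φ
  · intro x hx y hy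
    rw [hlam x hx, hlam y hy, hlam (x + y) (B.toSubring.add_mem hx hy), ← map_add]
    rfl
  · intro x hx y hy
    rw [hlam x hx, hlam y hy, hlam (x * y) (B.toSubring.mul_mem hx hy), ← map_mul]
    rfl
  · intro x
    exact B.mem_or_inv_mem x
  · intro x hx h
    rw [hlam x hx] at h
    have h1 : residue B.toSubring ⟨x, hx⟩ ≠ 0 := by
      intro h0
      apply h
      show Λ (residue B.toSubring ⟨x, hx⟩) = 0
      rw [h0, map_zero]
    rw [residue_ne_zero_iff_isUnit] at h1
    obtain ⟨y, hy⟩ := h1.exists_right_inv
    have h2 : x * (y : Om k) = 1 := congrArg Subtype.val hy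
    rw [inv_eq_of_mul_eq_one_right h2]
    exact y.2
  · intro x hx
    exact hB ⟨x, hx⟩
  · intro x hx
    exact (hlam (algebraMap k (Om k) x) (hB ⟨x, hx⟩)).trans (hΦ ⟨x, hx⟩)
  · intro x p hp hcoef hx
    have hcs : (↑(p.map (algebraMap k (Om k))).coeffs : Set (Om k)) ⊆ B.toSubring := by
      intro y hy
      rw [Finset.mem_coe, mem_coeffs_iff] at hy
      obtain ⟨i, -, rfl⟩ := hy
      rw [coeff_map]
      exact hB ⟨p.coeff i, hcoef i⟩
    have hint : IsIntegral B x := by
      refine ⟨(p.map (algebraMap k (Om k))).toSubring B.toSubring hcs, ?_, ?_⟩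
      · exact (monic_toSubring _ _ hcs).2 (hp.map _)
      · have h1 := map_toSubring (p.map (algebraMap k (Om k))) B.toSubring hcs
        have h2 : eval₂ (algebraMap B (Om k)) x
            ((p.map (algebraMap k (Om k))).toSubring B.toSubring hcs)
            = eval x (((p.map (algebraMap k (Om k))).toSubring B.toSubring hcs).map
              B.toSubring.subtype) := by
          rw [eval_map]
          rfl
        rw [h2, h1, eval_map, ← aeval_def, hx]
    obtain ⟨y, hy⟩ := IsIntegrallyClosed.isIntegral_iff.1 hint
    rw [← hy]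
    exact y.2

end Pool.Agent.PFS
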