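import Mathlib

/-!
# PFS, row SG0: sign lemma over `ℝ` (MP_b906c2_al)
-/

set_option autoImplicit false

namespace Pool.Agent.PFS

open Polynomial

/-- a real monic polynomial without zeros on `[c, ∞)` is positive at `c` -/
theorem SG0aux (Q : ℝ[X]) (hQ : Q.Monic) (c : ℝ) (h : ∀ x, c ≤ x → Q.eval x ≠ 0) :
    0 < Q.eval c := by
  rcases Nat.eq_zero_or_pos Q.natDegree with h0 | h0
  · rw [hQ.natDegree_eq_zero] at h0
    subst h0
    simp
  · by_contra hneg
    push Not at hneg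
    have hdeg : 0 < Q.degree := natDegree_pos_iff_degree_pos.1 h0
    have ht := Q.tendsto_atTop_of_leadingCoeff_nonneg hdeg (by rw [hQ.leadingCoeff]; norm_num)
    obtain ⟨y, hy1, hy2⟩ := ((ht.eventually_gt_atTop 0).and
      (Filter.eventually_ge_atTop c)).exists
    have hc : ContinuousOn (fun x => Q.eval x) (Set.Icc c y) := Q.continuous.continuousOn
    have := intermediate_value_Icc hy2 hc
    obtain ⟨x, hx, hx0⟩ := this (Set.mem_Icc.2 ⟨hneg, hy1.le⟩)
    exact h x hx.1 hx0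

theorem SG0 {ι : Type} (s : Finset ι) (w : ι → ℂ) (P : ℝ[X])
    (hP : P.map (algebraMap ℝ ℂ) = ∏ i ∈ s, (X - C (w i))) (c : ℝ) (i₀ : ι) (hi₀ : i₀ ∈ s)
    (h0 : c < (w i₀).re) (h1 : ∀ i ∈ s, i ≠ i₀ → (w i).re < c) : P.eval c < 0 := by
  classical
  have hroot : aeval (w i₀) P = 0 := by
    rw [aeval_def, ← eval_map, hP, eval_prod]
    exact Finset.prod_eq_zero hi₀ (by simp)
  have hconj : aeval ((starRingEnd ℂ) (w i₀)) P = 0 := by
    rw [Polynomial.aeval_conj, hroot, map_zero]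
  rw [aeval_def, ← eval_map, hP, eval_prod, Finset.prod_eq_zero_iff] at hconj
  obtain ⟨j, hj, hj0⟩ := hconj
  have hjw : (starRingEnd ℂ) (w i₀) = w j := by
    simpa [sub_eq_zero] using hj0
  have hji : j = i₀ := by
    by_contra hne
    have := h1 j hj hne
    rw [← hjw, Complex.conj_re] at this
    exact absurd this (not_lt.2 h0.le)
  subst hji
  obtain ⟨ρ, hρ⟩ := Complex.conj_eq_iff_real.1 hjw
  have hρc : c < ρ := by rw [hρ] at h0; simpa using h0
  have hPρ : P.IsRoot ρ := by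
    have h3 : ((P.eval ρ : ℝ) : ℂ) = 0 := by
      rw [← hroot, hρ]
      exact (Polynomial.aeval_algebraMap_apply ℂ ρ P).symm ▸ by simp
    exact_mod_cast h3
  obtain ⟨Q, hQ⟩ := dvd_iff_isRoot.2 hPρ
  have hPm : P.Monic := by
    apply Polynomial.monic_of_injective (algebraMap ℝ ℂ).injective
    rw [hP]
    exact monic_prod_of_monic _ _ fun i _ => monic_X_sub_C _
  have hQm : Q.Monic := by
    rw [hQ] at hPm
    exact (monic_X_sub_C ρ).of_mul_monic_left hPm
  have hQmap : Q.map (algebraMap ℝ ℂ) = ∏ i ∈ s.erase j, (X - C (w i)) := by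
    have h4 : (X - C (w j)) * Q.map (algebraMap ℝ ℂ) =
        (X - C (w j)) * ∏ i ∈ s.erase j, (X - C (w i)) := by
      rw [Finset.mul_prod_erase s (fun i => (X : ℂ[X]) - C (w i)) hj, ← hP, hQ, hρ]
      simp
    exact mul_left_cancel₀ (X_sub_C_ne_zero _) h4
  have hQ0 : ∀ x, c ≤ x → Q.eval x ≠ 0 := by
    intro x hx h5
    have h6 : (Q.map (algebraMap ℝ ℂ)).eval (x : ℂ) = 0 := by
      have : (Q.map (algebraMap ℝ ℂ)).eval ((algebraMap ℝ ℂ) x) = (algebraMap ℝ ℂ) (Q.eval x) := by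
        rw [eval_map_apply]
      rw [h5, map_zero] at this
      exact this
    rw [hQmap, eval_prod, Finset.prod_eq_zero_iff] at h6
    obtain ⟨i, hi, hi0⟩ := h6
    have h7 : (x : ℂ) = w i := by simpa [sub_eq_zero] using hi0
    have h8 := h1 i (Finset.mem_of_mem_erase hi) (Finset.ne_of_mem_erase hi)
    rw [← h7, Complex.ofReal_re] at h8
    exact absurd h8 (not_lt.2 hx)
  have hpos := SG0aux Q hQm c hQ0
  rw [hQ, eval_mul, eval_sub, eval_X, eval_C]
  exact mul_neg_of_neg_of_pos (by linarith) hpos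

end Pool.Agent.PFS
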