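import Pool.Agent.PFS.Defs
import Pool.Agent.PFS.SG0

/-!
# PFS, row SGN: sign of `P(D - 1)` at an ordering (MP_b906c2_al)
-/

set_option autoImplicit false

namespace Pool.Agent.PFS

open Polynomial Pool.Agent.PDF

namespace SGNaux

variable {k Ω : Type} [Field k] [LinearOrder k] [IsStrictOrderedRing k] [Field Ω] [Algebra k Ω]
  (p : Pl k Ω)

theorem lam_zero' : p.lam 0 = 0 := by
  have h := p.lam_add 0 p.V.zero_mem 0 p.V.zero_mem
  rw [add_zero] at h
  exact (left_eq_add.1 h)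

/-- the place as a ring homomorphism -/
noncomputable def ph : p.V →+* ℂ where
  toFun x := p.lam x
  map_one' := p.lam_one
  map_mul' x y := p.lam_mul x x.2 y y.2
  map_zero' := lam_zero' p
  map_add' x y := p.lam_add x x.2 y y.2

theorem ph_apply (x : Ω) (hx : x ∈ p.V) : ph p ⟨x, hx⟩ = p.lam x := rfl

theorem mem_of_sq {x : Ω} (h : x ^ 2 ∈ p.V) : x ∈ p.V := by
  rcases p.val x with h1 | h1
  · exact h1
  · by_cases hx : x = 0
    · rw [hx]; exact p.V.zero_mem
    · have : x = x ^ 2 * x⁻¹ := by field_simp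
      rw [this]
      exact p.V.mul_mem h h1

/-- the real polynomial of the places of the roots, and the place of a value -/
theorem real_poly {σ : Type} (s : Finset σ) (t : σ → Ω) (ht : ∀ S ∈ s, t S ∈ p.V) (P : k[X])
    (hP : P.map (algebraMap k Ω) = ∏ S ∈ s, (X - C (t S))) (m : ℕ) :
    ∃ R : ℝ[X], R.map (algebraMap ℝ ℂ) = ∏ S ∈ s, (X - C (p.lam (t S))) ∧
      (R.eval ((m : ℝ) - 1) < 0 → P.eval ((m : k) - 1) < 0) := by
  classical
  -- the polynomial over the valuation ring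
  let PV : p.V[X] := ∏ S ∈ s.attach, (X - C (⟨t S.1, ht S.1 S.2⟩ : p.V))
  have h1 : PV.map p.V.subtype = P.map (algebraMap k Ω) := by
    rw [hP, ← Finset.prod_attach s, Polynomial.map_prod]
    refine Finset.prod_congr rfl fun S _ => ?_
    simp
  have h2 : PV.map (ph p) = ∏ S ∈ s, (X - C (p.lam (t S))) := by
    rw [← Finset.prod_attach s, Polynomial.map_prod]
    refine Finset.prod_congr rfl fun S _ => ?_
    simp [ph_apply]
  have hco : ∀ i, algebraMap k Ω (P.coeff i) = (PV.coeff i : Ω) := by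
    intro i
    have := congrArg (fun q => q.coeff i) h1
    simpa [coeff_map] using this.symm
  have hfin : ∀ i, 0 ≤ ArchimedeanClass.mk (P.coeff i) := by
    intro i
    apply p.fin_of_mem
    rw [hco i]
    exact (PV.coeff i).2
  have hlam : ∀ i, (ph p) (PV.coeff i) = ((ArchimedeanClass.stdPart (P.coeff i) : ℝ) : ℂ) := by
    intro i
    rw [← p.lam_fin _ (hfin i), hco i]
    rfl
  have hl : PV.map (ph p) ∈ Polynomial.lifts (algebraMap ℝ ℂ) := by
    rw [Polynomial.lifts_iff_coeff_lifts]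
    intro i
    rw [coeff_map, hlam i]
    exact ⟨_, rfl⟩
  obtain ⟨R, hR⟩ := (Polynomial.mem_lifts _).1 hl
  refine ⟨R, by rw [hR, h2], fun hneg => ?_⟩
  by_contra hpos
  push Not at hpos
  -- the value of `P`
  have hval : algebraMap k Ω (P.eval ((m : k) - 1)) = ((PV.eval ((m : p.V) - 1) : p.V) : Ω) := by
    have h3 : (P.map (algebraMap k Ω)).eval (algebraMap k Ω ((m : k) - 1)) =
        algebraMap k Ω (P.eval ((m : k) - 1)) := eval_map_apply _ _
    have h4 : (PV.map p.V.subtype).eval (p.V.subtype ((m : p.V) - 1)) =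
        p.V.subtype (PV.eval ((m : p.V) - 1)) := eval_map_apply _ _
    have h5 : algebraMap k Ω ((m : k) - 1) = p.V.subtype ((m : p.V) - 1) := by
      rw [map_sub, map_sub, map_natCast, map_natCast, map_one, map_one]
    rw [← h3, ← h1, h5, h4]
    rfl
  have hm0 : 0 ≤ ArchimedeanClass.mk (P.eval ((m : k) - 1)) := by
    apply p.fin_of_mem
    rw [hval]
    exact (PV.eval ((m : p.V) - 1)).2
  have hst : ((ArchimedeanClass.stdPart (P.eval ((m : k) - 1)) : ℝ) : ℂ) =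
      ((R.eval ((m : ℝ) - 1) : ℝ) : ℂ) := by
    have h6 : (PV.map (ph p)).eval ((ph p) ((m : p.V) - 1)) = (ph p) (PV.eval ((m : p.V) - 1)) :=
      eval_map_apply _ _
    have h7 : (R.map (algebraMap ℝ ℂ)).eval ((algebraMap ℝ ℂ) ((m : ℝ) - 1)) =
        (algebraMap ℝ ℂ) (R.eval ((m : ℝ) - 1)) := eval_map_apply _ _
    have h8 : (ph p) ((m : p.V) - 1) = (algebraMap ℝ ℂ) ((m : ℝ) - 1) := by
      rw [map_sub, map_sub, map_natCast, map_natCast, map_one, map_one]
    rw [← p.lam_fin _ hm0, hval]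
    rw [h8, ← hR, h7] at h6
    exact h6.symm
  have hst' : ArchimedeanClass.stdPart (P.eval ((m : k) - 1)) = R.eval ((m : ℝ) - 1) := by
    exact_mod_cast hst
  have := ArchimedeanClass.stdPart_nonneg hpos
  rw [hst'] at this
  linarith

/-- a square root of a complex number close to `1` is close to `± 1` -/
theorem sq_near {x : ℂ} {η : ℝ} (h : ‖x ^ 2 - 1‖ ≤ η) :
    ∃ σ : ℝ, (σ = 1 ∨ σ = -1) ∧ ‖x - σ‖ ≤ η := by
  have h1 : ‖x - 1‖ * ‖x + 1‖ ≤ η := by
    rw [← norm_mul]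
    calc ‖(x - 1) * (x + 1)‖ = ‖x ^ 2 - 1‖ := by ring_nf
      _ ≤ η := h
  have h2 : 2 ≤ ‖x - 1‖ + ‖x + 1‖ := by
    have : (2 : ℂ) = (x + 1) - (x - 1) := by ring
    calc (2 : ℝ) = ‖(2 : ℂ)‖ := by simp
      _ = ‖(x + 1) - (x - 1)‖ := by rw [← this]
      _ ≤ ‖x + 1‖ + ‖x - 1‖ := norm_sub_le _ _
      _ = ‖x - 1‖ + ‖x + 1‖ := add_comm _ _
  have hn1 := norm_nonneg (x - 1)
  have hn2 := norm_nonneg (x + 1)
  rcases le_total 1 ‖x + 1‖ with h3 | h3
  · refine ⟨1, Or.inl rfl, ?_⟩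
    have : ‖x - 1‖ ≤ η := by nlinarith
    simpa using this
  · refine ⟨-1, Or.inr rfl, ?_⟩
    have h4 : 1 ≤ ‖x - 1‖ := by linarith
    have : ‖x + 1‖ ≤ η := by nlinarith
    simpa using this

theorem prod_near {x y : ℂ} {σ η : ℝ} (hσ : σ = 1 ∨ σ = -1) (hη : 0 ≤ η) (hη1 : η ≤ 1)
    (hx : ‖x - σ‖ ≤ η) (hy : ‖y - 1‖ ≤ η) : |(y * x).re - σ| ≤ 3 * η := by
  have h1 : y * x - σ = (y - 1) * (x - σ) + (x - σ) + σ * (y - 1) := by ring
  have hs : ‖(σ : ℂ)‖ = 1 := by
    rcases hσ with h | h <;> simp [h]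
  have h2 : ‖y * x - σ‖ ≤ 3 * η := by
    rw [h1]
    have h5 : ‖(y - 1) * (x - σ)‖ ≤ η := by
      rw [norm_mul]
      calc ‖y - 1‖ * ‖x - σ‖ ≤ η * 1 :=
            mul_le_mul hy (hx.trans hη1) (norm_nonneg _) hη
        _ = η := mul_one η
    have h6 : ‖(σ : ℂ) * (y - 1)‖ ≤ η := by
      rw [norm_mul, hs, one_mul]; exact hy
    calc ‖(y - 1) * (x - σ) + (x - σ) + σ * (y - 1)‖
        ≤ ‖(y - 1) * (x - σ)‖ + ‖x - σ‖ + ‖(σ : ℂ) * (y - 1)‖ := norm_add₃_le
      _ ≤ 3 * η := by linarith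
  have h3 : (y * x).re - σ = (y * x - σ).re := by simp
  rw [h3]
  exact (Complex.abs_re_le_norm _).trans h2

/-- the combinatorial estimate -/
theorem sums {Z : Type} [DecidableEq Z] (s : Finset Z) (y : Z → ℝ) (σ : Z → ℝ)
    (hσ : ∀ z ∈ s, σ z = 1 ∨ σ z = -1) (η : ℝ) (hη1 : 8 * s.card * η ≤ 1)
    (hy : ∀ z ∈ s, |y z - σ z| ≤ 3 * η) :
    (s.card : ℝ) - 1 < ∑ z ∈ s, (if z ∈ s.filter (fun z => σ z = 1) then (1 : ℝ) else -1) * y z ∧
    ∀ S ⊆ s, S ≠ s.filter (fun z => σ z = 1) →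
      ∑ z ∈ s, (if z ∈ S then (1 : ℝ) else -1) * y z < (s.card : ℝ) - 1 := by
  constructor
  · have h1 : ∑ z ∈ s, (1 - 3 * η) ≤
        ∑ z ∈ s, (if z ∈ s.filter (fun z => σ z = 1) then (1 : ℝ) else -1) * y z := by
      refine Finset.sum_le_sum fun z hz => ?_
      have h2 := abs_le.1 (hy z hz)
      rcases hσ z hz with h | h
      · rw [if_pos (Finset.mem_filter.2 ⟨hz, h⟩), one_mul]
        rw [h] at h2
        linarith [h2.1]
      · rw [if_neg (fun h3 => by
          have := (Finset.mem_filter.1 h3).2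
          rw [h] at this
          norm_num at this)]
        rw [h] at h2
        linarith [h2.2]
    rw [Finset.sum_const, nsmul_eq_mul] at h1
    nlinarith
  · intro S hS hne
    obtain ⟨z₁, hz₁, h1⟩ : ∃ z₁ ∈ s, (if z₁ ∈ S then (1 : ℝ) else -1) * σ z₁ = -1 := by
      by_contra hcon
      push Not at hcon
      apply hne
      ext z
      rw [Finset.mem_filter]
      constructor
      · intro hz
        refine ⟨hS hz, ?_⟩
        have h2 := hcon z (hS hz)
        rw [if_pos hz, one_mul] at h2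
        exact (hσ z (hS hz)).resolve_right h2
      · rintro ⟨hz, hz1⟩
        by_contra hzS
        have h2 := hcon z hz
        rw [if_neg hzS, hz1] at h2
        norm_num at h2
    have h3 : ∀ z ∈ s, (if z ∈ S then (1 : ℝ) else -1) * y z ≤
        (if z ∈ S then (1 : ℝ) else -1) * σ z + 3 * η := by
      intro z hz
      have h2 := abs_le.1 (hy z hz)
      split_ifs
      · linarith [h2.2]
      · linarith [h2.1]
    have h4 : ∀ z ∈ s, (if z ∈ S then (1 : ℝ) else -1) * σ z ≤ 1 := by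
      intro z hz
      rcases hσ z hz with h | h <;> rw [h] <;> split_ifs <;> norm_num
    have h5 : ∑ z ∈ s, (if z ∈ S then (1 : ℝ) else -1) * σ z ≤ (s.card : ℝ) - 2 := by
      rw [← Finset.add_sum_erase s _ hz₁, h1]
      have h6 : ∑ z ∈ s.erase z₁, (if z ∈ S then (1 : ℝ) else -1) * σ z ≤
          ∑ _z ∈ s.erase z₁, (1 : ℝ) :=
        Finset.sum_le_sum fun z hz => h4 z (Finset.mem_of_mem_erase hz)
      rw [Finset.sum_const, nsmul_eq_mul, mul_one, Finset.card_erase_of_mem hz₁] at h6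
      have h7 : 1 ≤ s.card := Finset.card_pos.2 ⟨z₁, hz₁⟩
      rw [Nat.cast_sub h7] at h6
      push_cast at h6
      linarith
    have h8 := Finset.sum_le_sum h3
    rw [Finset.sum_add_distrib, Finset.sum_const, nsmul_eq_mul] at h8
    nlinarith

end SGNaux

open SGNaux

theorem SGNaux.card_Zs0 {k : Type} [Field k] [CharZero k] (F : k[X]) (hs : Squarefree F) :
    (Zs F).card = F.natDegree := by
  classical
  have hsep : F.Separable := PerfectField.separable_iff_squarefree.2 hs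
  unfold Zs
  rw [Multiset.toFinset_card_of_nodup (nodup_roots hsep.map)]
  exact IsAlgClosed.card_aroots_eq_natDegree

theorem SGN {k : Type} [Field k] [LinearOrder k] [IsStrictOrderedRing k] (p : Pl k (Om k))
    (F : k[X]) (hF : F.Monic) (hs : Squarefree F) (hd : 0 < F.natDegree) (ξ : Om k → Om k)
    (τ : k[X]) (η : ℝ) (hη : 0 ≤ η) (hη1 : 8 * F.natDegree * η ≤ 1)
    (hξ : ∀ z ∈ Zs F, ξ z ^ 2 ∈ p.V ∧ ‖p.lam (ξ z ^ 2) - 1‖ ≤ η)
    (hτ : ∀ z ∈ Zs F, aeval z τ ∈ p.V ∧ ‖p.lam (aeval z τ) - 1‖ ≤ η)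
    (P : k[X])
    (hP : P.map (algebraMap k (Om k)) = ∏ S ∈ (Zs F).powerset, (X - C (TT F ξ τ S))) :
    P.eval ((F.natDegree : k) - 1) < 0 := by
  classical
  have hcard := SGNaux.card_Zs0 F hs
  have hηle : η ≤ 1 := by
    have : (1 : ℝ) ≤ F.natDegree := by exact_mod_cast hd
    nlinarith
  have hV : ∀ z ∈ Zs F, ξ z ∈ p.V := fun z hz => mem_of_sq p (hξ z hz).1
  have hnear : ∀ z ∈ Zs F, ∃ σ : ℝ, (σ = 1 ∨ σ = -1) ∧ ‖p.lam (ξ z) - σ‖ ≤ η := by
    intro z hz
    apply SGNaux.sq_near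
    have := (hξ z hz).2
    rw [pow_two, p.lam_mul _ (hV z hz) _ (hV z hz), ← pow_two] at this
    exact this
  choose! σ hσ hσn using hnear
  have hmemV : ∀ z ∈ Zs F, aeval z τ * ξ z ∈ p.V := fun z hz =>
    p.V.mul_mem (hτ z hz).1 (hV z hz)
  have hTV : ∀ S ∈ (Zs F).powerset, TT F ξ τ S ∈ p.V := by
    intro S _
    unfold TT
    refine p.V.sum_mem fun z hz => p.V.mul_mem ?_ (hmemV z hz)
    split_ifs
    · exact p.V.one_mem
    · exact p.V.neg_mem p.V.one_mem
  have hlamT : ∀ S ∈ (Zs F).powerset, (p.lam (TT F ξ τ S)).re =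
      ∑ z ∈ Zs F, (if z ∈ S then (1 : ℝ) else -1) * (p.lam (aeval z τ) * p.lam (ξ z)).re := by
    intro S hS
    have hb : ∀ z ∈ Zs F, (if z ∈ S then (1 : Om k) else -1) * (aeval z τ * ξ z) ∈ p.V := by
      intro z hz
      refine p.V.mul_mem ?_ (hmemV z hz)
      split_ifs
      · exact p.V.one_mem
      · exact p.V.neg_mem p.V.one_mem
    have h1 : p.lam (TT F ξ τ S) =
        ∑ z ∈ Zs F, p.lam ((if z ∈ S then (1 : Om k) else -1) * (aeval z τ * ξ z)) := by
      have h2 : TT F ξ τ S = ((∑ z ∈ (Zs F).attach,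
          (⟨(if z.1 ∈ S then (1 : Om k) else -1) * (aeval z.1 τ * ξ z.1), hb z.1 z.2⟩ : p.V) :
            p.V) : Om k) := by
        rw [AddSubmonoidClass.coe_finsetSum]
        unfold TT
        rw [← Finset.sum_attach (Zs F)]
      have h3 : p.lam (TT F ξ τ S) = (ph p) (∑ z ∈ (Zs F).attach,
          (⟨(if z.1 ∈ S then (1 : Om k) else -1) * (aeval z.1 τ * ξ z.1), hb z.1 z.2⟩ :
            p.V)) := by
        rw [h2]; rfl
      rw [h3, map_sum, ← Finset.sum_attach (Zs F)]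
      rfl
    rw [h1, Complex.re_sum]
    refine Finset.sum_congr rfl fun z hz => ?_
    split_ifs
    · rw [one_mul, one_mul, p.lam_mul _ (hτ z hz).1 _ (hV z hz)]
    · have h4 : p.lam (-1 * (aeval z τ * ξ z)) = - p.lam (aeval z τ * ξ z) := by
        have h5 := (ph p).map_neg ⟨aeval z τ * ξ z, hmemV z hz⟩
        rw [neg_one_mul]
        exact h5
      rw [h4, p.lam_mul _ (hτ z hz).1 _ (hV z hz), Complex.neg_re]
      ring
  obtain ⟨R, hR, hRP⟩ := real_poly p (Zs F).powerset (TT F ξ τ) hTV P hP F.natDegree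
  apply hRP
  have hs1 := sums (Zs F) (fun z => (p.lam (aeval z τ) * p.lam (ξ z)).re) σ
    hσ η (by rw [hcard]; exact hη1)
    (fun z hz => prod_near (hσ z hz) hη hηle (hσn z hz) (hτ z hz).2)
  rw [hcard] at hs1
  have hmem0 : (Zs F).filter (fun z => σ z = 1) ∈ (Zs F).powerset :=
    Finset.mem_powerset.2 (Finset.filter_subset _ _)
  refine SG0 (Zs F).powerset (fun S => p.lam (TT F ξ τ S)) R hR _
    ((Zs F).filter (fun z => σ z = 1)) hmem0 ?_ ?_
  · rw [hlamT _ hmem0]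
    exact hs1.1
  · intro S hS hne
    rw [hlamT S hS]
    exact hs1.2 S (Finset.mem_powerset.1 hS) hne

end Pool.Agent.PFS
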