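import Pool.Agent.PFS.API
import Pool.Agent.PFS.ORD
import Pool.Agent.PFS.NU
import Pool.Agent.PFS.GEN
import Pool.Agent.PFS.INT
import Pool.Agent.PFS.SGN
import Pool.Agent.PFS.PLV

set_option autoImplicit false

namespace Pool.Agent.PFS

open Polynomial Pool.Agent.PDF

theorem HE2 {k : Type} [Field k] [CharZero k] [Algebra ℝ k] (hk : FR k) (n : ℕ) (hn : TrD n k)
    (F : k[X]) {q : ℕ} (B : Fin q → k[X]) (hF : Dat F B) :
    ∃ (P : k[X]) (Ξ U W : k[X][X]) (a : Fin (n + 1) → k[X]) (c : k), P.Monic ∧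
      P.eval c ≠ 0 ∧ IsSumSq (-(P.eval c)) ∧ IsCoprime (∑ i, a i ^ 2) F ∧
      Ξ ^ 2 + (∑ i, a i ^ 2).map C = C P * U + F.map C * W := by
  classical
  have hD : 0 < F.natDegree := hF.deg
  have hD' : (0 : ℝ) < F.natDegree := by exact_mod_cast hD
  obtain ⟨η, hηdef⟩ : ∃ η : ℝ, η = 1 / (8 * F.natDegree) := ⟨_, rfl⟩
  have hη : 0 < η := by rw [hηdef]; positivity
  have hη8 : 8 * F.natDegree * η ≤ 1 := by
    rw [hηdef]
    have : (8 * (F.natDegree : ℝ)) ≠ 0 := by positivity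
    rw [mul_one_div_cancel this]
  have hη1 : η < 1 := by
    have h1 : (1 : ℝ) ≤ F.natDegree := by exact_mod_cast hD
    nlinarith
  obtain ⟨a, ha⟩ := NU n hn F B hF η hη
  let ν : k[X] := -∑ i, a i ^ 2
  have hνz : ∀ z : Om k, aeval z ν = - ∑ c, aeval z (a c) ^ 2 := by
    intro z
    simp only [ν, map_neg, map_sum, map_pow]
  have hsq : ∀ z : Om k, ∃ x : Om k, x ^ 2 = aeval z ν := fun z =>
    IsAlgClosed.exists_pow_nat_eq _ (by norm_num)
  choose ξ hξ using hsq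
  -- values at the places
  have hmem : ∀ [LinearOrder k] [IsStrictOrderedRing k] (p : Pl k (Om k)), ∀ z ∈ Zs F,
      (∑ c, aeval z (a c) ^ 2) ∈ p.V := by
    intro _ _ p z hz
    exact sum_mem fun c _ => pow_mem ((ha p z hz).1 c) 2
  have hval : ∀ [LinearOrder k] [IsStrictOrderedRing k] (p : Pl k (Om k)), ∀ z ∈ Zs F,
      ξ z ^ 2 ∈ p.V ∧ ‖p.lam (ξ z ^ 2) - 1‖ ≤ η := by
    intro _ _ p z hz
    rw [hξ z, hνz z]
    refine ⟨neg_mem (hmem p z hz), ?_⟩
    rw [lam_neg p (hmem p z hz)]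
    have h := (ha p z hz).2
    rw [← norm_neg, show -(-p.lam (∑ c, aeval z (a c) ^ 2) - 1) =
      p.lam (∑ c, aeval z (a c) ^ 2) + 1 from by ring]
    exact h
  obtain ⟨LO, SO⟩ := exists_ordering hk
  obtain ⟨p₀⟩ : Nonempty (Pl k (Om k)) := PLV
  have hξ0 : ∀ z ∈ Zs F, ξ z ≠ 0 := by
    intro z hz h0
    have h := (hval p₀ z hz).2
    rw [h0, zero_pow two_ne_zero, lam_zero, zero_sub, norm_neg, norm_one] at h
    linarith
  obtain ⟨τ, hτ, hinj⟩ := GEN F hF.monic hF.sqf hF.deg ξ hξ0 η hη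
  obtain ⟨P, Ξ, U, W, hP, hPp, hid⟩ := INT F hF.monic hF.sqf hF.deg ν τ ξ (fun z _ => hξ z) hξ0
    hinj
  have hneg : ∀ [LinearOrder k] [IsStrictOrderedRing k],
      P.eval ((F.natDegree : k) - 1) < 0 := by
    intro _ _
    obtain ⟨p⟩ : Nonempty (Pl k (Om k)) := PLV
    exact SGN p F hF.monic hF.sqf hF.deg ξ τ η hη.le hη8 (hval p) (hτ p) P hPp
  refine ⟨P, Ξ, U, W, a, (F.natDegree : k) - 1, hP, (hneg).ne, ?_, ?_, ?_⟩
  · refine AS hk _ ?_
    intro _ _
    exact neg_nonneg.2 (hneg).le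
  · refine (Polynomial.isCoprime_iff_aeval_ne_zero_of_isAlgClosed k (Om k) _ _).2 fun z => ?_
    by_cases hz : z ∈ Zs F
    · left
      intro h
      apply hξ0 z hz
      have h1 := hξ z
      rw [show aeval z ν = - aeval z (∑ i, a i ^ 2) from by simp only [ν, map_neg], h,
        neg_zero] at h1
      exact pow_eq_zero_iff two_ne_zero |>.1 h1
    · right
      intro h
      apply hz
      unfold Zs
      rw [Multiset.mem_toFinset, mem_aroots]
      exact ⟨hF.monic.ne_zero, h⟩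
  · rw [← hid]
    simp only [ν, Polynomial.map_neg, sub_neg_eq_add]

end Pool.Agent.PFS
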