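import Pool.Agent.PFS.API

/-!
# Row NU1: the local step (MP_b906c2_al)
-/

set_option autoImplicit false

namespace Pool.Agent.PFS

open Polynomial Pool.Agent.PDF

namespace NU1aux

section

variable {k Ω : Type} [Field k] [LinearOrder k] [IsStrictOrderedRing k] [Field Ω] [Algebra k Ω]
  (p : Pl k Ω)

theorem exists_max (s : Finset Ω) (hs : s.Nonempty) (h0 : ∀ x ∈ s, x ≠ 0) :
    ∃ m ∈ s, ∀ x ∈ s, x * m⁻¹ ∈ p.V := by
  classical
  induction hs using Finset.Nonempty.cons_induction with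
  | singleton a =>
    refine ⟨a, Finset.mem_singleton_self a, fun x hx => ?_⟩
    rw [Finset.mem_singleton.1 hx, mul_inv_cancel₀ (h0 a (Finset.mem_singleton_self a))]
    exact p.V.one_mem
  | cons a s ha hs ih =>
    obtain ⟨m, hm, hmax⟩ := ih fun x hx => h0 x (Finset.mem_cons_of_mem hx)
    have ha0 : a ≠ 0 := h0 a (Finset.mem_cons_self a s)
    have hm0 : m ≠ 0 := h0 m (Finset.mem_cons_of_mem hm)
    rcases p.val (a * m⁻¹) with h | h
    · refine ⟨m, Finset.mem_cons_of_mem hm, fun x hx => ?_⟩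
      rcases Finset.mem_cons.1 hx with rfl | hx
      · exact h
      · exact hmax x hx
    · refine ⟨a, Finset.mem_cons_self a s, fun x hx => ?_⟩
      rcases Finset.mem_cons.1 hx with rfl | hx
      · rw [mul_inv_cancel₀ ha0]
        exact p.V.one_mem
      · have h1 : x * a⁻¹ = (x * m⁻¹) * (a * m⁻¹)⁻¹ := by
          field_simp
        rw [h1]
        exact p.V.mul_mem (hmax x hx) h

/-- dividing a nontrivial relation `∑ b i ^ 2 = 0` by a largest term gives a non-real value -/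
theorem nonreal {q : ℕ} (b : Fin q → Ω) (h : ∑ i, b i ^ 2 = 0) (hb : ∃ i, b i ≠ 0) :
    ∃ i j, b j ≠ 0 ∧ b i * (b j)⁻¹ ∈ p.V ∧ (p.lam (b i * (b j)⁻¹)).im ≠ 0 := by
  classical
  obtain ⟨i₀, hi₀⟩ := hb
  obtain ⟨m, hm, hmax⟩ := exists_max p ((Finset.univ.image b).filter (· ≠ 0))
    ⟨b i₀, by simp [hi₀]⟩ (fun x hx => (Finset.mem_filter.1 hx).2)
  obtain ⟨hm1, hm2⟩ := Finset.mem_filter.1 hm
  obtain ⟨j, -, rfl⟩ := Finset.mem_image.1 hm1
  have hV : ∀ i, b i * (b j)⁻¹ ∈ p.V := by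
    intro i
    by_cases hi : b i = 0
    · rw [hi, zero_mul]
      exact p.V.zero_mem
    · exact hmax _ (by simp [hi])
  by_contra hcon
  push Not at hcon
  have hre : ∀ i, (p.lam (b i * (b j)⁻¹)).im = 0 := fun i => hcon i j hm2 (hV i)
  have h1 : ∑ i, (b i * (b j)⁻¹) ^ 2 = 0 := by
    simp_rw [mul_pow]
    rw [← Finset.sum_mul, h, zero_mul]
  have h2 : ∑ i, p.lam (b i * (b j)⁻¹) ^ 2 = 0 := by
    have h3 := congrArg p.lam h1
    rw [lam_zero, lam_sum p _ _ fun i _ => p.V.pow_mem (hV i) 2] at h3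
    rw [← h3]
    exact Finset.sum_congr rfl fun i _ => (lam_pow p (hV i) 2).symm
  have h3 : ∑ i, ((p.lam (b i * (b j)⁻¹)).re) ^ 2 = 0 := by
    have h4 := congrArg Complex.re h2
    rw [Complex.re_sum, Complex.zero_re] at h4
    rw [← h4]
    refine Finset.sum_congr rfl fun i _ => ?_
    rw [sq, sq, Complex.mul_re, hre i]
    ring
  have h5 : ((p.lam (b j * (b j)⁻¹)).re) ^ 2 = 0 :=
    (Finset.sum_eq_zero_iff_of_nonneg fun i _ => sq_nonneg _).1 h3 j (Finset.mem_univ j)
  rw [mul_inv_cancel₀ hm2, p.lam_one] at h5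
  norm_num at h5

end

section

variable {k : Type} [Field k] [LinearOrder k] [IsStrictOrderedRing k]

/-- the ring of the polynomials which are finite at all the roots of `F` -/
def AA (p : Pl k (Om k)) (F : k[X]) : Subring k[X] where
  carrier := {a | ∀ z ∈ Zs F, aeval z a ∈ p.V}
  mul_mem' := fun {a b} ha hb z hz => by
    rw [map_mul]
    exact p.V.mul_mem (ha z hz) (hb z hz)
  one_mem' := fun z _ => by
    rw [map_one]
    exact p.V.one_mem
  add_mem' := fun {a b} ha hb z hz => by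
    rw [map_add]
    exact p.V.add_mem (ha z hz) (hb z hz)
  zero_mem' := fun z _ => by
    rw [map_zero]
    exact p.V.zero_mem
  neg_mem' := fun {a} ha z hz => by
    rw [map_neg]
    exact p.V.neg_mem (ha z hz)

/-- the value at the root `z` -/
noncomputable def th (p : Pl k (Om k)) (F : k[X]) (z : Zs F) : AA p F →+* ℂ where
  toFun a := p.lam (aeval z.1 a.1)
  map_one' := by
    show p.lam (aeval z.1 1) = 1
    rw [map_one, p.lam_one]
  map_zero' := by
    show p.lam (aeval z.1 0) = 0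
    rw [map_zero, lam_zero]
  map_mul' a b := by
    show p.lam (aeval z.1 (a.1 * b.1)) = _
    rw [map_mul, p.lam_mul _ (a.2 z.1 z.2) _ (b.2 z.1 z.2)]
  map_add' a b := by
    show p.lam (aeval z.1 (a.1 + b.1)) = _
    rw [map_add, p.lam_add _ (a.2 z.1 z.2) _ (b.2 z.1 z.2)]

theorem th_apply (p : Pl k (Om k)) (F : k[X]) (z : Zs F) (a : AA p F) :
    th p F z a = p.lam (aeval z.1 a.1) := rfl

/-- a polynomial with a given non-real value -/
theorem exists_poly (p : Pl k (Om k)) (F : k[X]) {q : ℕ} (B : Fin q → k[X])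
    (hF : Dat F B) (z : Om k) (hz : z ∈ Zs F) :
    ∃ x : k[X], aeval z x ∈ p.V ∧ (p.lam (aeval z x)).im ≠ 0 := by
  have hF0 : F ≠ 0 := hF.monic.ne_zero
  have hroot : aeval z F = 0 := (mem_Zs hF0).1 hz
  have hsum : ∑ i, aeval z (B i) ^ 2 = 0 := by
    obtain ⟨G, hG⟩ := hF.dvd
    have h := congrArg (aeval z) hG
    rw [map_mul, hroot, zero_mul, map_sum] at h
    rw [← h]
    exact Finset.sum_congr rfl fun i _ => (map_pow _ _ _).symm
  obtain ⟨i, j, hj, hV, him⟩ := nonreal p (fun i => aeval z (B i)) hsum (hF.ne z hz)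
  have hint : IsIntegral k z := Algebra.IsIntegral.isIntegral z
  have hco : IsCoprime (minpoly k z) (B j) := by
    rw [(minpoly.irreducible hint).coprime_iff_not_dvd]
    rintro ⟨G, hG⟩
    apply hj
    show aeval z (B j) = 0
    rw [hG, map_mul, minpoly.aeval, zero_mul]
  obtain ⟨u, v, huv⟩ := hco
  have h1 : aeval z v = (aeval z (B j))⁻¹ := by
    have h := congrArg (aeval z) huv
    rw [map_add, map_mul, map_mul, minpoly.aeval, mul_zero, zero_add, map_one] at h
    exact eq_inv_of_mul_eq_one_left h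
  refine ⟨B i * v, ?_, ?_⟩
  · rw [map_mul, h1]
    exact hV
  · rw [map_mul, h1]
    exact him

variable [Algebra ℝ k]

/-- real constants -/
noncomputable def re (p : Pl k (Om k)) (F : k[X]) (r : ℝ) : AA p F :=
  ⟨C (algebraMap ℝ k r), fun z _ => by
    rw [aeval_C]
    exact (lam_real p r).1⟩

theorem th_re (p : Pl k (Om k)) (F : k[X]) (z : Zs F) (r : ℝ) : th p F z (re p F r) = r := by
  rw [th_apply]
  show p.lam (aeval z.1 (C (algebraMap ℝ k r))) = r
  rw [aeval_C]
  exact (lam_real p r).2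

/-- an element of the ring with non-real value at `z` -/
theorem exists_im [CharZero k] (p : Pl k (Om k)) (F : k[X]) {q : ℕ} (B : Fin q → k[X])
    (hF : Dat F B) (z : Zs F) : ∃ a : AA p F, (th p F z a).im ≠ 0 := by
  classical
  obtain ⟨x, hxV, him⟩ := exists_poly p F B hF z.1 z.2
  -- choice of the constant
  obtain ⟨c, hc⟩ := Infinite.exists_notMem_finset
    ((Zs F).image fun z' => (-(p.lam (aeval z' x)) ^ 2).re)
  have hc' : ∀ z' ∈ Zs F, p.lam (aeval z' x) ^ 2 + (c : ℂ) ≠ 0 := by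
    intro z' hz' h
    apply hc
    refine Finset.mem_image.2 ⟨z', hz', ?_⟩
    have h1 : -(p.lam (aeval z' x)) ^ 2 = (c : ℂ) := by linear_combination -h
    rw [h1, Complex.ofReal_re]
  set d : Om k := algebraMap k (Om k) (algebraMap ℝ k c) with hd
  obtain ⟨hdV, hdl⟩ := lam_real p c
  rw [← hd] at hdV hdl
  -- the two elements are finite at all roots
  have key : ∀ z' ∈ Zs F, aeval z' x ^ 2 + d ≠ 0 ∧ (aeval z' x ^ 2 + d)⁻¹ ∈ p.V ∧
      aeval z' x * (aeval z' x ^ 2 + d)⁻¹ ∈ p.V := by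
    intro z' hz'
    set t := aeval z' x with ht
    by_cases htV : t ∈ p.V
    · have h1 : t ^ 2 + d ∈ p.V := p.V.add_mem (p.V.pow_mem htV 2) hdV
      have h2 : p.lam (t ^ 2 + d) ≠ 0 := by
        rw [p.lam_add _ (p.V.pow_mem htV 2) _ hdV, lam_pow p htV, hdl]
        exact hc' z' hz'
      have h3 := p.inv_mem _ h1 h2
      exact ⟨ne_zero_of_lam p h2, h3, p.V.mul_mem htV h3⟩
    · obtain ⟨h1, h2⟩ := lam_inv_zero p htV
      have ht0 : t ≠ 0 := by
        rintro h
        rw [h] at htV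
        exact htV p.V.zero_mem
      have h3 : 1 + d * t⁻¹ ^ 2 ∈ p.V :=
        p.V.add_mem p.V.one_mem (p.V.mul_mem hdV (p.V.pow_mem h1 2))
      have h4 : p.lam (1 + d * t⁻¹ ^ 2) = 1 := by
        rw [p.lam_add _ p.V.one_mem _ (p.V.mul_mem hdV (p.V.pow_mem h1 2)), p.lam_one,
          p.lam_mul _ hdV _ (p.V.pow_mem h1 2), lam_pow p h1, h2]
        ring
      have h4' : p.lam (1 + d * t⁻¹ ^ 2) ≠ 0 := by
        rw [h4]
        exact one_ne_zero
      have h5 := p.inv_mem _ h3 h4'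
      have h6 := ne_zero_of_lam p h4'
      have h7 : t ^ 2 + d = t ^ 2 * (1 + d * t⁻¹ ^ 2) := by
        field_simp
      have h8 : (t ^ 2 + d)⁻¹ = t⁻¹ ^ 2 * (1 + d * t⁻¹ ^ 2)⁻¹ := by
        rw [h7, mul_inv, inv_pow]
      refine ⟨?_, ?_, ?_⟩
      · rw [h7]
        exact mul_ne_zero (pow_ne_zero 2 ht0) h6
      · rw [h8]
        exact p.V.mul_mem (p.V.pow_mem h1 2) h5
      · have h9 : t * (t ^ 2 + d)⁻¹ = t⁻¹ * (1 + d * t⁻¹ ^ 2)⁻¹ := by
          rw [h8, ← mul_assoc]
          congr 1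
          field_simp
        rw [h9]
        exact p.V.mul_mem h1 h5
  have hcop : IsCoprime (x ^ 2 + C (algebraMap ℝ k c)) F := by
    rw [isCoprime_iff_aeval_ne_zero_of_isAlgClosed k (Om k)]
    intro z'
    by_cases hz' : z' ∈ Zs F
    · left
      rw [map_add, map_pow, aeval_C]
      exact (key z' hz').1
    · right
      intro h
      exact hz' ((mem_Zs hF.monic.ne_zero).2 h)
  obtain ⟨u, v, huv⟩ := hcop
  have hu : ∀ z' ∈ Zs F, aeval z' u = (aeval z' x ^ 2 + d)⁻¹ := by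
    intro z' hz'
    have h := congrArg (aeval z') huv
    rw [map_add, map_mul, map_mul, (mem_Zs hF.monic.ne_zero).1 hz', mul_zero, add_zero, map_one,
      map_add, map_pow, aeval_C] at h
    exact eq_inv_of_mul_eq_one_left h
  have hu1 : ∀ z' ∈ Zs F, aeval z' u ∈ p.V := fun z' hz' => by
    rw [hu z' hz']
    exact (key z' hz').2.1
  have hu2 : ∀ z' ∈ Zs F, aeval z' (x * u) ∈ p.V := fun z' hz' => by
    rw [map_mul, hu z' hz']
    exact (key z' hz').2.2
  by_contra hcon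
  push Not at hcon
  have r1 := hcon ⟨u, hu1⟩
  have r2 := hcon ⟨x * u, hu2⟩
  rw [th_apply] at r1 r2
  change (p.lam (aeval z.1 u)).im = 0 at r1
  change (p.lam (aeval z.1 (x * u))).im = 0 at r2
  rw [map_mul, p.lam_mul _ hxV _ (hu1 z.1 z.2)] at r2
  have h10 : p.lam (aeval z.1 u) ≠ 0 := by
    intro h0
    have h := congrArg p.lam (mul_inv_cancel₀ (key z.1 z.2).1)
    rw [← hu z.1 z.2, p.lam_mul _ (p.V.add_mem (p.V.pow_mem hxV 2) hdV) _ (hu1 z.1 z.2), h0,
      mul_zero, p.lam_one] at h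
    exact zero_ne_one h
  rw [Complex.mul_im, r1, mul_zero, zero_add] at r2
  rcases mul_eq_zero.1 r2 with h | h
  · exact him h
  · exact h10 (Complex.ext h r1)

theorem th_surj [CharZero k] (p : Pl k (Om k)) (F : k[X]) {q : ℕ} (B : Fin q → k[X])
    (hF : Dat F B) (z : Zs F) : Function.Surjective (th p F z) := by
  intro w
  obtain ⟨a, ha⟩ := exists_im p F B hF z
  set t := th p F z a with ht
  refine ⟨re p F (w.re - w.im / t.im * t.re) + re p F (w.im / t.im) * a, ?_⟩
  rw [map_add, map_mul, th_re, th_re, ← ht]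
  apply Complex.ext
  · simp
  · simp
    field_simp

end

end NU1aux

open NU1aux

theorem NU1 {k : Type} [Field k] [CharZero k] [Algebra ℝ k] [LinearOrder k]
    [IsStrictOrderedRing k] (p : Pl k (Om k)) (F : k[X]) {q : ℕ} (B : Fin q → k[X])
    (hF : Dat F B) :
    ∃ a : k[X], ∀ z ∈ Zs F, aeval z a ∈ p.V ∧ p.lam (aeval z a) ^ 2 = -1 := by
  classical
  let s : Finset (Ideal (AA p F)) := Finset.univ.image fun z : Zs F => RingHom.ker (th p F z)
  have hex : ∀ I : Ideal (AA p F), ∃ a : AA p F, I ∈ s → a ^ 2 + 1 ∈ I := by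
    intro I
    by_cases hI : I ∈ s
    · obtain ⟨z, -, rfl⟩ := Finset.mem_image.1 hI
      obtain ⟨a, ha⟩ := th_surj p F B hF z Complex.I
      refine ⟨a, fun _ => ?_⟩
      rw [RingHom.mem_ker, map_add, map_pow, ha, Complex.I_sq, map_one]
      ring
    · exact ⟨0, fun h => absurd h hI⟩
  choose f hf using hex
  have hpair : Pairwise (Function.onFun IsCoprime fun I : s => (I : Ideal (AA p F))) := by
    intro I J hne
    obtain ⟨z, -, hz⟩ := Finset.mem_image.1 I.2
    obtain ⟨z', -, hz'⟩ := Finset.mem_image.1 J.2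
    have hne' : (I : Ideal (AA p F)) ≠ J := fun h => hne (Subtype.ext h)
    show IsCoprime (I : Ideal (AA p F)) (J : Ideal (AA p F))
    rw [Ideal.isCoprime_iff_sup_eq]
    rw [← hz, ← hz'] at hne' ⊢
    exact (RingHom.ker_isMaximal_of_surjective _ (th_surj p F B hF z)).coprime_of_ne
      (RingHom.ker_isMaximal_of_surjective _ (th_surj p F B hF z')) hne'
  obtain ⟨a, ha⟩ := Ideal.exists_forall_sub_mem_ideal hpair fun I => f I
  refine ⟨a.1, fun z hz => ⟨a.2 z hz, ?_⟩⟩
  have hI : RingHom.ker (th p F ⟨z, hz⟩) ∈ s := Finset.mem_image.2 ⟨⟨z, hz⟩, Finset.mem_univ _, rfl⟩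
  have h1 : a - f (RingHom.ker (th p F ⟨z, hz⟩)) ∈ RingHom.ker (th p F ⟨z, hz⟩) := ha ⟨_, hI⟩
  have h2 := hf _ hI
  rw [RingHom.mem_ker, map_sub, sub_eq_zero] at h1
  rw [RingHom.mem_ker, map_add, map_pow, map_one, ← h1, th_apply] at h2
  linear_combination h2

end Pool.Agent.PFS
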