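import Pool.Agent.PFS.NU2of
import Pool.Agent.PFS.NU1
import Pool.Agent.PFS.PLV

/-!
# Row NU2 (project PFS, MP_b906c2_al)
-/

set_option autoImplicit false

namespace Pool.Agent.PFS

open Polynomial Pool.Agent.PDF

/-- NU2: at every ordering there is a witness with `e` infinitesimal -/
theorem NU2 {k : Type} [Field k] [CharZero k] [Algebra ℝ k] [LinearOrder k]
    [IsStrictOrderedRing k] (F : k[X]) {q : ℕ} (B : Fin q → k[X]) (hF : Dat F B) (ε : ℝ)
    (hε : 0 < ε) :
    ∃ (a : k[X]) (e : k), Wit F a e ∧ e < algebraMap ℝ k ε := by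
  obtain ⟨p⟩ := PLV (k := k)
  exact NU2_of p F B hF (NU1 p F B hF) ε hε

end Pool.Agent.PFS
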