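import Pool.Agent.PFS.Wit
import Pool.Agent.PDF.HA

/-!
# Row NU2 (project PFS, MP_b906c2_al): witnesses at an ordering
-/

set_option autoImplicit false

namespace Pool.Agent.PFS

open Polynomial Pool.Agent.PDF

namespace NU2aux

/-- coefficients of a product of linear factors -/
theorem lam_coeff_prod {k Ω : Type} [Field k] [LinearOrder k] [IsStrictOrderedRing k] [Field Ω]
    [Algebra k Ω] (p : Pl k Ω) {ι : Type} (s : Finset ι) (r : ι → Ω) (hr : ∀ i ∈ s, r i ∈ p.V)
    (j : ℕ) :
    (∏ i ∈ s, (X - C (r i))).coeff j ∈ p.V ∧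
      p.lam ((∏ i ∈ s, (X - C (r i))).coeff j) = (∏ i ∈ s, (X - C (p.lam (r i)))).coeff j := by
  classical
  set f : s → p.V := fun i => ⟨r i.1, hr i.1 i.2⟩ with hf
  set P : (p.V)[X] := ∏ i : s, (X - C (f i)) with hP
  have h1 : P.map p.V.subtype = ∏ i ∈ s, (X - C (r i)) := by
    rw [hP, Polynomial.map_prod, ← Finset.prod_coe_sort s]
    refine Finset.prod_congr rfl fun i _ => ?_
    rw [Polynomial.map_sub, map_X, map_C]
    rfl
  have h2 : P.map (Pl.hom p) = ∏ i ∈ s, (X - C (p.lam (r i))) := by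
    rw [hP, Polynomial.map_prod, ← Finset.prod_coe_sort s]
    refine Finset.prod_congr rfl fun i _ => ?_
    rw [Polynomial.map_sub, map_X, map_C]
    rfl
  rw [← h1, ← h2, coeff_map, coeff_map]
  exact ⟨(P.coeff j).2, rfl⟩

end NU2aux

open NU2aux in
/-- the witness (over a place and `NU1`) -/
theorem NU2_of {k : Type} [Field k] [CharZero k] [Algebra ℝ k] [LinearOrder k]
    [IsStrictOrderedRing k] (p : Pl k (Om k)) (F : k[X]) {q : ℕ} (B : Fin q → k[X])
    (hF : Dat F B)
    (hNU1 : ∃ a : k[X], ∀ z ∈ Zs F, aeval z a ∈ p.V ∧ p.lam (aeval z a) ^ 2 = -1) (ε : ℝ)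
    (hε : 0 < ε) :
    ∃ (a : k[X]) (e : k), Wit F a e ∧ e < algebraMap ℝ k ε := by
  classical
  obtain ⟨a, ha⟩ := hNU1
  set r : Om k → Om k := fun z => aeval z a ^ 2 + 1 with hr
  have hF0 : F ≠ 0 := hF.monic.ne_zero
  -- the Galois group permutes the roots
  have hZ : ∀ (σ : Om k ≃ₐ[k] Om k), ∀ z ∈ Zs F, σ z ∈ Zs F := by
    intro σ z hz
    rw [mem_Zs hF0] at hz ⊢
    rw [aeval_algHom_apply, hz, map_zero]
  have hσr : ∀ (σ : Om k ≃ₐ[k] Om k) z, r (σ z) = σ (r z) := by
    intro σ z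
    simp only [hr]
    rw [aeval_algHom_apply]
    simp
  obtain ⟨χ, hχ⟩ := HAaux.descend (k := k) (∏ z ∈ Zs F, (X - C (r z))) (by
    intro σ
    rw [Polynomial.map_prod]
    refine Finset.prod_nbij (fun z => σ z) (fun z hz => hZ σ z hz)
      (fun z _ z' _ h => σ.injective h) ?_ ?_
    · intro z hz
      exact ⟨σ.symm z, hZ σ.symm z hz, by simp⟩
    · intro z _
      rw [Polynomial.map_sub, map_X, map_C, hσr]
      rfl)
  have hmon : χ.Monic := by
    have h1 : (χ.map (algebraMap k (Om k))).Monic := by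
      rw [hχ]
      exact monic_prod_of_monic _ _ fun z _ => monic_X_sub_C _
    exact (monic_map_iff).1 h1
  have hdeg : χ.natDegree = F.natDegree := by
    have h1 : (χ.map (algebraMap k (Om k))).natDegree = (Zs F).card := by
      rw [hχ, natDegree_prod_of_monic _ _ fun z _ => monic_X_sub_C _]
      simp
    rw [natDegree_map] at h1
    rw [h1, card_Zs hF.sqf]
  have hroot : ∀ z ∈ Zs F, aeval (r z) χ = 0 := by
    intro z hz
    rw [← eval_map_algebraMap, hχ, eval_prod]
    exact Finset.prod_eq_zero hz (by simp)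
  -- the lower coefficients are infinitesimal
  have hcoeff : ∀ i < F.natDegree, 0 < ArchimedeanClass.mk (χ.coeff i) := by
    intro i hi
    have h1 := lam_coeff_prod p (Zs F) r
      (fun z hz => p.V.add_mem (p.V.pow_mem (ha z hz).1 2) p.V.one_mem) i
    rw [← hχ, coeff_map] at h1
    have h2 : ∏ z ∈ Zs F, (X - C (p.lam (r z))) = X ^ F.natDegree := by
      rw [← card_Zs hF.sqf, ← Finset.prod_const]
      refine Finset.prod_congr rfl fun z hz => ?_
      have h3 : p.lam (r z) = 0 := by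
        simp only [hr]
        rw [p.lam_add _ (p.V.pow_mem (ha z hz).1 2) _ p.V.one_mem, lam_pow p (ha z hz).1,
          (ha z hz).2, p.lam_one]
        ring
      rw [h3, C_0, sub_zero]
    rw [h2, coeff_X_pow, if_neg hi.ne] at h1
    have h3 := p.fin_of_mem _ h1.1
    have h4 := p.lam_fin _ h3
    rw [h1.2] at h4
    have h5 : ArchimedeanClass.stdPart (χ.coeff i) = 0 := by
      exact_mod_cast h4.symm
    exact lt_of_le_of_ne h3 (Ne.symm (ArchimedeanClass.stdPart_eq_zero.1 h5))
  set S : k := ∑ i ∈ Finset.range F.natDegree, χ.coeff i ^ 2 with hS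
  have hS0 : 0 ≤ S := Finset.sum_nonneg fun i _ => sq_nonneg _
  refine ⟨a, S / (1 + S), ⟨χ, hmon, hdeg, hroot, rfl⟩, ?_⟩
  have hlt : S < algebraMap ℝ k ε := by
    have h1 : 0 < ArchimedeanClass.mk S := by
      rw [hS]
      refine Finset.sum_induction (fun i => χ.coeff i ^ 2) (fun x => 0 < ArchimedeanClass.mk x)
        (fun x y hx hy => lt_of_lt_of_le (lt_min hx hy) (ArchimedeanClass.min_le_mk_add x y))
        (by simp) ?_
      intro i hi
      have h2 := hcoeff i (Finset.mem_range.1 hi)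
      show 0 < ArchimedeanClass.mk (χ.coeff i ^ 2)
      rw [sq, ArchimedeanClass.mk_mul]
      exact lt_of_lt_of_le h2 (le_add_of_nonneg_left h2.le)
    have h2 := ArchimedeanClass.lt_of_stdPart_lt (realHom k) (r := ε) h1.le (by
      rw [ArchimedeanClass.stdPart_eq_zero.2 h1.ne']
      exact hε)
    rwa [realHom_apply] at h2
  refine lt_of_le_of_lt ?_ hlt
  rw [div_le_iff₀ (by linarith)]
  nlinarith

end Pool.Agent.PFS
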