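import Pool.Agent.PFI.WS

/-! Project PFS (MP_b906c2_al), row NU5c: Weierstrass on a compact set. -/

set_option autoImplicit false

namespace Pool.Agent.PFS

theorem NU5c (M : ℕ) (K : Set (Fin M → ℝ)) (hK : IsCompact K) (φ : C(K, ℝ)) (η : ℝ)
    (hη : 0 < η) :
    ∃ P : MvPolynomial (Fin M) ℝ, ∀ x : K, |MvPolynomial.eval x.1 P - φ x| ≤ η := by
  obtain ⟨θ, hθ⟩ := φ.exists_restrict_eq hK.isClosed
  obtain ⟨P, hP⟩ := PFI.WS K hK θ η hη
  refine ⟨P, fun x => ?_⟩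
  have h := hP x.1 x.2
  have h2 : φ x = θ x.1 := by rw [← hθ]; rfl
  rw [h2]
  exact h

end Pool.Agent.PFS
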