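import Pool.Agent.PFS.NU5c

/-! Project PFS (MP_b906c2_al), row NU5 over the statements of NU5a and NU5b. -/

set_option autoImplicit false

namespace Pool.Agent.PFS

theorem NU5of
    (NU5a : ∀ (n M : ℕ) (ε : ℝ) (_ : 0 < ε)
      (Q : (Fin (n + 1) → Fin M) → MvPolynomial (Fin (n + 1)) ℝ) (_ : ∀ J, Q J ≠ 0),
      ∃ (t : Fin M → ℝ) (κ : ℝ), 0 < κ ∧ (∀ j, ε < t j ∧ t j + κ < 2 * ε) ∧
        ∀ J : Fin (n + 1) → Fin M, Function.Injective J → ∀ x : Fin M → ℝ,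
          (∀ i, |x (J i) - t (J i)| ≤ κ) → MvPolynomial.eval (x ∘ J) (Q J) ≠ 0)
    (NU5b : ∀ (n M : ℕ) (ε κ : ℝ) (t : Fin M → ℝ) (_ : 0 < κ)
      (_ : ∀ j, ε < t j ∧ t j + κ < 2 * ε) (K : Set (Fin M → ℝ)) (_ : IsCompact K)
      (_ : ∀ x ∈ K, ∃ j, x j ≤ ε)
      (_ : ∀ x ∈ K, ∀ J : Fin (n + 1) → Fin M, Function.Injective J →
        ∃ i, κ < |x (J i) - t (J i)|),
      ∃ φ : Fin (n + 1) → Fin M → C(K, ℝ), ∀ x : K, ∃ (J : Fin (n + 1) → Fin M)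
        (w : Fin (n + 1) → ℝ), ∑ c, w c ^ 2 = 1 ∧ (∀ c, w c ≠ 0 → x.1 (J c) < 2 * ε) ∧
        ∀ c j, φ c j x = if j = J c then w c else 0)
    (n M : ℕ) (ε η : ℝ) (hε : 0 < ε) (hη : 0 < η)
    (Q : (Fin (n + 1) → Fin M) → MvPolynomial (Fin (n + 1)) ℝ) (hQ : ∀ J, Q J ≠ 0) :
    ∃ P : Fin (n + 1) → Fin M → MvPolynomial (Fin M) ℝ, ∀ x : Fin M → ℝ,
      (∀ j, 0 ≤ x j ∧ x j ≤ 1) → (∃ j, x j ≤ ε) →
      (∀ J : Fin (n + 1) → Fin M, MvPolynomial.eval (x ∘ J) (Q J) = 0) →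
      ∃ (J : Fin (n + 1) → Fin M) (w : Fin (n + 1) → ℝ), ∑ c, w c ^ 2 = 1 ∧
        (∀ c, w c ≠ 0 → x (J c) < 2 * ε) ∧
        ∀ c j, |MvPolynomial.eval x (P c j) - if j = J c then w c else 0| ≤ η := by
  obtain ⟨t, κ, hκ, ht, hne⟩ := NU5a n M ε hε Q hQ
  let K : Set (Fin M → ℝ) := {x | x ∈ Set.univ.pi (fun _ : Fin M => Set.Icc (0 : ℝ) 1) ∧
    (∃ j, x j ≤ ε) ∧ ∀ J : Fin (n + 1) → Fin M, MvPolynomial.eval (x ∘ J) (Q J) = 0}
  have hK : IsCompact K := by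
    have hc : IsCompact (Set.univ.pi (fun _ : Fin M => Set.Icc (0 : ℝ) 1)) :=
      isCompact_univ_pi fun _ => isCompact_Icc
    refine hc.inter_right (t := {x | (∃ j, x j ≤ ε) ∧
      ∀ J : Fin (n + 1) → Fin M, MvPolynomial.eval (x ∘ J) (Q J) = 0}) ?_
    refine IsClosed.inter (s₁ := {x | ∃ j, x j ≤ ε})
      (s₂ := {x | ∀ J : Fin (n + 1) → Fin M, MvPolynomial.eval (x ∘ J) (Q J) = 0}) ?_ ?_
    · have : {x : Fin M → ℝ | ∃ j, x j ≤ ε} = ⋃ j, {x | x j ≤ ε} := by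
        ext x; simp
      rw [this]
      exact isClosed_iUnion_of_finite fun j => isClosed_le (continuous_apply j) continuous_const
    · have : {x : Fin M → ℝ | ∀ J : Fin (n + 1) → Fin M, MvPolynomial.eval (x ∘ J) (Q J) = 0} =
          ⋂ J : Fin (n + 1) → Fin M, {x | MvPolynomial.eval (x ∘ J) (Q J) = 0} := by
        ext x; simp
      rw [this]
      refine isClosed_iInter fun J => isClosed_eq ?_ continuous_const
      exact (MvPolynomial.continuous_eval (Q J)).comp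
        (continuous_pi fun i => continuous_apply (J i))
  obtain ⟨φ, hφ⟩ := NU5b n M ε κ t hκ ht K hK (fun x hx => hx.2.1) (fun x hx J hJ => by
    by_contra hcon
    push Not at hcon
    exact hne J hJ x hcon (hx.2.2 J))
  choose P hP using fun c j => NU5c M K hK (φ c j) η hη
  refine ⟨P, fun x h01 hj hz => ?_⟩
  have hxK : x ∈ K := ⟨fun j _ => ⟨(h01 j).1, (h01 j).2⟩, hj, hz⟩
  obtain ⟨J, w, hw, hlt, hval⟩ := hφ ⟨x, hxK⟩
  refine ⟨J, w, hw, hlt, fun c j => ?_⟩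
  have h := hP c j ⟨x, hxK⟩
  rw [hval c j] at h
  exact h

end Pool.Agent.PFS
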