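import Pool.Agent.PFS.API

/-!
# Key lemma NU: definitions (MP_b906c2_al, project PFS)
-/

set_option autoImplicit false

namespace Pool.Agent.PFS

open Polynomial Pool.Agent.PDF

/-- `q ≥ n + 2` elements of the algebraic closure satisfy a homogeneous relation over `ℝ` -/
def HDep (n : ℕ) (k : Type) [Field k] [Algebra ℝ k] : Prop :=
  ∀ q : ℕ, n + 2 ≤ q → ∀ β : Fin q → Om k,
    ∃ (P : MvPolynomial (Fin q) ℝ) (d : ℕ), P ≠ 0 ∧ P.IsHomogeneous d ∧
      MvPolynomial.eval₂ ((algebraMap k (Om k)).comp (algebraMap ℝ k)) β P = 0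

/-- the `h r` are bounded by `C` at all places and all roots -/
def Bdd {k : Type} [Field k] (F : k[X]) {q : ℕ} (h : Fin q → k[X]) (C : ℝ) : Prop :=
  ∀ [LinearOrder k] [IsStrictOrderedRing k] (p : Pl k (Om k)), ∀ z ∈ Zs F, ∀ r,
    aeval z (h r) ∈ p.V ∧ ‖p.lam (aeval z (h r))‖ ≤ C

/-- the imaginary parts of the `h r` are bounded away from `0` at all places and all roots -/
def Away {k : Type} [Field k] (F : k[X]) {q : ℕ} (h : Fin q → k[X]) (c : ℝ) : Prop :=
  ∀ [LinearOrder k] [IsStrictOrderedRing k] (p : Pl k (Om k)), ∀ z ∈ Zs F,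
    c ≤ ∑ r, (p.lam (aeval z (h r))).im ^ 2

end Pool.Agent.PFS
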