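import Pool.Agent.PFS.ENG3
import Pool.Agent.PFS.HE2
import Pool.Agent.PFS.RED
import Pool.Agent.PFS.NR
import Pool.Agent.PFS.TRD

/-!
# The quadratic bound: `p(ℝ(X₁,…,X_N)) ≤ M (2 N - M) ≤ N²`, `M` the largest power of two `≤ N`
(MP_b906c2_al)
-/

set_option autoImplicit false

namespace Pool.Agent.PFS

open Polynomial Pool.Agent.PDF

namespace QNaux

theorem SS_mono {K : Type} [Field K] {m n : ℕ} (h : m ≤ n) {a : K} (ha : SS m a) : SS n a := by
  obtain ⟨x, rfl⟩ := ha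
  obtain ⟨j, rfl⟩ := Nat.exists_eq_add_of_le h
  refine ⟨Fin.append x 0, ?_⟩
  rw [Fin.sum_univ_add]
  simp

theorem SS_one_val {K : Type} [Field K] {n : ℕ} (hn : 0 < n) : SS n (1 : K) :=
  SS_mono (m := 1) hn ⟨fun _ => 1, by simp⟩

/-- every sum of squares of `ℝ(X₁,…,X_n)` is a sum of `m` squares -/
def Q (n m : ℕ) : Prop := ∀ x : kk n, IsSumSq x → SS m x

/-- Pfister's theorem -/
theorem pfister (n : ℕ) : Q n (2 ^ n) := by
  intro x hx
  rw [SS_iff_D]
  refine SPn n _ List.length_replicate ?_ x hx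
  intro a ha
  rw [List.eq_of_mem_replicate ha]
  exact one_ne_zero

/-- the recursion -/
theorem step (n r b : ℕ) (hr : n + 2 ≤ 2 ^ r) (hb : Q n (b * 2 ^ r)) :
    Q (n + 1) ((b + 1) * 2 ^ r) := by
  intro x hx
  by_cases hx0 : x = 0
  · rw [hx0]; exact SS_zero_val _
  obtain ⟨F, h, φ, y, g, hF, hs, hh, hsum, hxg⟩ := RED n x hx hx0
  rw [hxg]
  refine SS_sq_mul ?_ g
  rcases Nat.eq_zero_or_pos F.natDegree with hd | hd
  · have : F = 1 := hF.natDegree_eq_zero.1 hd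
    rw [this, eval₂_one]
    exact SS_one_val (by positivity)
  obtain ⟨q, B, hB⟩ := NR F h hF hs hd hh hsum
  obtain ⟨P, Ξ, U, W, a, c, hPm, hPc, hσ, hco, hid⟩ := HE2 (FR_kk n) n (TRD n) F B hB
  exact ENG3 n r b hr F P Ξ U W a c hF hPm hPc (hb _ hσ) hco hid (FR_kk (n + 1)) φ y

theorem Q.mono {n m m' : ℕ} (h : Q n m) (hm : m ≤ m') : Q n m' := fun x hx =>
  SS_mono hm (h x hx)

theorem quad : ∀ a : ℕ, 1 ≤ a → ∀ i : ℕ, i < 2 ^ a → Q (2 ^ a + i) (2 ^ a * (2 ^ a + 2 * i)) := by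
  intro a ha
  induction a, ha using Nat.le_induction with
  | base =>
    intro i
    induction i with
    | zero => intro _; exact pfister 2
    | succ i ih =>
      intro hi
      have h1 := ih (by omega)
      obtain rfl : i = 0 := by omega
      exact step 2 2 1 (by norm_num) h1
  | succ a ha iha =>
    intro i
    induction i with
    | zero =>
      intro _
      have h1 : 1 ≤ 2 ^ a := Nat.one_le_two_pow
      have h2 := iha (2 ^ a - 1) (by omega)
      obtain ⟨m, hm⟩ : ∃ m, 2 ^ a = m + 2 := by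
        obtain ⟨j, rfl⟩ := Nat.exists_eq_add_of_le ha
        refine ⟨2 ^ (1 + j) - 2, ?_⟩
        have : 2 ≤ 2 ^ (1 + j) := by
          rw [pow_add, pow_one]
          have : 1 ≤ 2 ^ j := Nat.one_le_two_pow
          omega
        omega
      have h3 : 2 ^ (a + 1) = 2 * (m + 2) := by rw [pow_succ, hm]; ring
      have h4 : 2 ^ (a + 2) = 4 * (m + 2) := by rw [pow_succ, pow_succ, hm]; ring
      have h5 : 2 ^ a + (2 ^ a - 1) = 2 * m + 3 := by omega
      rw [h5] at h2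
      have h6 := step (2 * m + 3) (a + 2) (m + 1) (by rw [h4]; omega) (h2.mono (by
        rw [h4, hm]
        have : m + 2 - 1 = m + 1 := by omega
        rw [this]
        nlinarith))
      have h7 : 2 * m + 3 + 1 = 2 ^ (a + 1) + 0 := by rw [h3]; ring
      have h8 : (m + 1 + 1) * 2 ^ (a + 2) = 2 ^ (a + 1) * (2 ^ (a + 1) + 2 * 0) := by
        rw [h3, h4]; ring
      rw [h7, h8] at h6
      exact h6
    | succ i ih =>
      intro hi
      have h1 := ih (by omega)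
      have h2 : 2 ^ (a + 1) * (2 ^ (a + 1) + 2 * i) = (2 ^ a + i) * 2 ^ (a + 2) := by
        rw [pow_succ, pow_succ]; ring
      rw [h2] at h1
      have h3 := step (2 ^ (a + 1) + i) (a + 2) (2 ^ a + i) (by
        have : 2 ^ (a + 2) = 2 ^ (a + 1) + 2 ^ (a + 1) := by rw [pow_succ, mul_two]
        omega) h1
      have h4 : (2 ^ a + i + 1) * 2 ^ (a + 2) =
          2 ^ (a + 1) * (2 ^ (a + 1) + 2 * (i + 1)) := by
        rw [pow_succ, pow_succ]; ring
      rw [h4] at h3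
      exact h3

end QNaux

open QNaux in
/-- `2 ^ a ≤ N < 2 ^ (a + 1)`: every sum of squares in `ℝ(X₁,…,X_N)` is a sum of
`2 ^ a (2 N - 2 ^ a)` squares -/
theorem quadratic (N a : ℕ) (hN : 2 ≤ N) (h1 : 2 ^ a ≤ N) (h2 : N < 2 ^ (a + 1)) (x : kk N)
    (hx : IsSumSq x) : SS (2 ^ a * (2 * N - 2 ^ a)) x := by
  obtain ⟨i, rfl⟩ := Nat.exists_eq_add_of_le h1
  have ha : 1 ≤ a := by
    rw [Nat.one_le_iff_ne_zero]
    rintro rfl
    rw [pow_zero] at *
    omega
  have h3 : 2 * (2 ^ a + i) - 2 ^ a = 2 ^ a + 2 * i := by omega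
  rw [h3]
  exact quad a ha i (by rw [pow_succ] at h2; omega) x hx

open QNaux in
/-- every sum of squares in `ℝ(X₁,…,X_N)`, `N ≥ 2`, is a sum of `N²` squares -/
theorem sq_bound (N : ℕ) (hN : 2 ≤ N) (x : kk N) (hx : IsSumSq x) : SS (N ^ 2) x := by
  have h1 : 2 ^ Nat.log 2 N ≤ N := Nat.pow_log_le_self 2 (by omega)
  have h2 : N < 2 ^ (Nat.log 2 N + 1) := Nat.lt_pow_succ_log_self (by norm_num) N
  refine SS_mono ?_ (quadratic N (Nat.log 2 N) hN h1 h2 x hx)
  generalize 2 ^ Nat.log 2 N = M at h1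
  obtain ⟨i, rfl⟩ := Nat.exists_eq_add_of_le h1
  have h3 : 2 * (M + i) - M = M + 2 * i := by omega
  rw [h3]
  nlinarith

end Pool.Agent.PFS
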