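import Pool.Agent.PDF.Fin

/-!
# Change of variables making a polynomial monic (after Nagata), MP_b906c2_al
-/

set_option autoImplicit false

namespace Pool.Agent.PFS.REDaux

open Polynomial MvPolynomial

variable {k : Type} [Field k] {n : ℕ}

/-- `X_i ↦ X_i + c X_0 ^ (u ^ i)` for `i ≠ 0`, `X_0 ↦ X_0` -/
noncomputable def T1 (u : ℕ) (c : k) :
    MvPolynomial (Fin (n + 1)) k →ₐ[k] MvPolynomial (Fin (n + 1)) k :=
  aeval fun i => if i = 0 then X 0 else X i + c • X 0 ^ (u ^ i.1)

theorem T1_comp (u : ℕ) (c : k) :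
    (T1 (n := n) u c).comp (T1 u (-c)) = AlgHom.id _ _ := by
  rw [T1, T1, comp_aeval, ← MvPolynomial.aeval_X_left]
  ext i v
  cases i using Fin.cases <;> simp

/-- the automorphism -/
noncomputable def T (u : ℕ) : MvPolynomial (Fin (n + 1)) k ≃ₐ[k] MvPolynomial (Fin (n + 1)) k :=
  AlgEquiv.ofAlgHom (T1 u 1) (T1 u (-1)) (T1_comp u 1) (by simpa using T1_comp (n := n) u (-1 : k))

theorem T_apply (u : ℕ) (p : MvPolynomial (Fin (n + 1)) k) : T u p = T1 u 1 p := rfl

theorem sum_ne (u : ℕ) (hu : 1 < u) (v w : Fin (n + 1) →₀ ℕ) (vlt : ∀ i, v i < u)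
    (wlt : ∀ i, w i < u) (ne : v ≠ w) :
    ∑ x : Fin (n + 1), u ^ x.1 * v x ≠ ∑ x : Fin (n + 1), u ^ x.1 * w x := by
  intro h
  refine ne <| Finsupp.ext <| congrFun <| List.ofFn_inj.mp ?_
  apply Nat.ofDigits_inj_of_len_eq hu (by simp) (by grind) (by grind)
  simpa only [Nat.ofDigits_eq_sum_mapIdx, List.mapIdx_eq_ofFn, List.get_ofFn, List.length_ofFn,
    Fin.val_cast, mul_comm, List.sum_ofFn] using! h

theorem degreeOf_T (u : ℕ) (hu : 0 < u) (v : Fin (n + 1) →₀ ℕ) {a : k} (ha : a ≠ 0) :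
    ((T u) (monomial v a)).degreeOf 0 = ∑ i : Fin (n + 1), u ^ i.1 * v i := by
  rw [T_apply, T1, ← natDegree_finSuccEquiv, monomial_eq, Finsupp.prod_pow v fun a ↦ X a]
  simp only [Fin.prod_univ_succ, Fin.sum_univ_succ, map_mul, map_prod, map_pow,
    MvPolynomial.aeval_C, MvPolynomial.aeval_X, if_pos, Fin.succ_ne_zero,
    ite_false, one_smul, map_add, finSuccEquiv_X_zero, finSuccEquiv_X_succ, algebraMap_eq]
  have h (i : Fin n) :
      (Polynomial.C (X (R := k) i) + Polynomial.X ^ (u ^ (i.succ).1)) ^ v i.succ ≠ 0 :=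
    pow_ne_zero (v i.succ) (leadingCoeff_ne_zero.mp <| by
      rw [add_comm, leadingCoeff_X_pow_add_C (pow_pos hu _)]
      exact one_ne_zero)
  rw [natDegree_mul (by simp [ha]) (mul_ne_zero (by simp) (Finset.prod_ne_zero_iff.mpr
    (fun i _ ↦ h i))), natDegree_mul (by simp) (Finset.prod_ne_zero_iff.mpr (fun i _ ↦ h i)),
    natDegree_prod _ _ (fun i _ ↦ h i), natDegree_finSuccEquiv, degreeOf_C]
  simpa only [natDegree_pow, zero_add, natDegree_X, mul_one, Fin.val_zero, pow_zero, one_mul,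
    add_right_inj] using Finset.sum_congr rfl (fun i _ ↦ by
    rw [add_comm (Polynomial.C _), natDegree_X_pow_add_C, mul_comm])

theorem lt_of_mem (f : MvPolynomial (Fin (n + 1)) k) {v : Fin (n + 1) →₀ ℕ} (hv : v ∈ f.support)
    (i : Fin (n + 1)) : v i < 2 + f.totalDegree :=
  lt_of_le_of_lt ((monomial_le_degreeOf i hv).trans (degreeOf_le_totalDegree f i)) (by omega)

theorem degreeOf_T_ne (f : MvPolynomial (Fin (n + 1)) k) {v w : Fin (n + 1) →₀ ℕ}
    (hv : v ∈ f.support) (hw : w ∈ f.support) (ne : v ≠ w) :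
    (T (2 + f.totalDegree) (monomial v (coeff v f))).degreeOf 0 ≠
    (T (2 + f.totalDegree) (monomial w (coeff w f))).degreeOf 0 := by
  rw [degreeOf_T _ (by omega) _ (mem_support_iff.mp hv),
    degreeOf_T _ (by omega) _ (mem_support_iff.mp hw)]
  exact sum_ne _ (by omega) v w (lt_of_mem f hv) (lt_of_mem f hw) ne

theorem leadingCoeff_T (u : ℕ) (hu : 0 < u) (v : Fin (n + 1) →₀ ℕ) (a : k) :
    (finSuccEquiv k n (T u (monomial v a))).leadingCoeff = MvPolynomial.C a := by
  rw [T_apply, monomial_eq, Finsupp.prod_fintype]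
  · simp only [map_mul, map_prod, leadingCoeff_mul, leadingCoeff_prod]
    rw [algHom_C, MvPolynomial.algebraMap_eq, finSuccEquiv_apply, eval₂Hom_C]
    simp only [RingHom.coe_comp, Function.comp_apply, leadingCoeff_C, map_pow,
      leadingCoeff_pow]
    have : ∀ j, ((finSuccEquiv k n) ((T1 u) 1 (X j))).leadingCoeff = 1 := fun j ↦ by
      rw [T1, MvPolynomial.aeval_X]
      by_cases h : j = 0
      · simp [h, finSuccEquiv_apply]
      · simp only [if_neg h, one_smul, map_add, map_pow]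
        obtain ⟨i, rfl⟩ := Fin.exists_succ_eq.mpr h
        rw [finSuccEquiv_X_succ, finSuccEquiv_X_zero, add_comm,
          leadingCoeff_X_pow_add_C (pow_pos hu _)]
    simp only [this, one_pow, Finset.prod_const_one, mul_one]
  exact fun i ↦ pow_zero _

/-- after the automorphism the leading coefficient is a nonzero constant -/
theorem exists_leadingCoeff (f : MvPolynomial (Fin (n + 1)) k) (fne : f ≠ 0) :
    ∃ a : k, a ≠ 0 ∧ (finSuccEquiv k n (T (2 + f.totalDegree) f)).leadingCoeff =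
      MvPolynomial.C a := by
  set u := 2 + f.totalDegree with hu
  obtain ⟨v, vin, vs⟩ := Finset.exists_max_image f.support
    (fun v ↦ (T u ((monomial v) (coeff v f))).degreeOf 0) (support_nonempty.mpr fne)
  set h := fun w ↦ (MvPolynomial.monomial w) (coeff w f) with hh
  simp only [← natDegree_finSuccEquiv] at vs
  replace vs : ∀ x ∈ f.support \ {v}, (finSuccEquiv k n ((T u) (h x))).degree <
      (finSuccEquiv k n ((T u) (h v))).degree := by
    intro x hx
    obtain ⟨h1, h2⟩ := Finset.mem_sdiff.mp hx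
    apply degree_lt_degree <| lt_of_le_of_ne (vs x h1) ?_
    simpa only [natDegree_finSuccEquiv]
      using degreeOf_T_ne f h1 vin (by simpa using h2)
  have hcoeff : (finSuccEquiv k n ((T u) (h v + ∑ x ∈ f.support \ {v}, h x))).leadingCoeff =
      (finSuccEquiv k n ((T u) (h v))).leadingCoeff := by
    simp only [map_add, map_sum]
    rw [add_comm]
    apply leadingCoeff_add_of_degree_lt <| (lt_of_le_of_lt <| degree_sum_le _ _) ?_
    have h2 : h v ≠ 0 := by simpa [h] using mem_support_iff.mp vin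
    replace h2 : (finSuccEquiv k n ((T u) (h v))) ≠ 0 := fun eq ↦ h2 <|
      by simpa only [map_eq_zero_iff _ (AlgEquiv.injective _)] using eq
    exact (Finset.sup_lt_iff <| Ne.bot_lt (fun x ↦ h2 <| degree_eq_bot.mp x)).mpr vs
  refine ⟨coeff v f, mem_support_iff.mp vin, ?_⟩
  have h3 : f = h v + ∑ x ∈ f.support \ {v}, h x := by
    conv_lhs => rw [← f.support_sum_monomial_coeff]
    rw [Finset.sum_eq_add_sum_sdiff_singleton_of_mem vin h]
  conv_lhs => rw [h3]
  rw [hcoeff, hh]
  exact leadingCoeff_T u (by omega) v _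

end Pool.Agent.PFS.REDaux
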