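import Pool.Agent.PFS.API

/-!
# Witnesses (MP_b906c2_al)
-/

set_option autoImplicit false

namespace Pool.Agent.PFS

open Polynomial Pool.Agent.PDF

/-- `χ` is a monic polynomial of degree `deg F` which vanishes at `a(z)^2 + 1` for all roots `z`
of `F`, and `e = S / (1 + S)`, `S` the sum of the squares of the lower coefficients -/
def Wit {k : Type} [Field k] (F a : k[X]) (e : k) : Prop :=
  ∃ χ : k[X], χ.Monic ∧ χ.natDegree = F.natDegree ∧
    (∀ z ∈ Zs F, aeval (aeval z a ^ 2 + 1) χ = 0) ∧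
    e = (∑ i ∈ Finset.range F.natDegree, χ.coeff i ^ 2) /
      (1 + ∑ i ∈ Finset.range F.natDegree, χ.coeff i ^ 2)

end Pool.Agent.PFS
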